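import Pool.Agent.Lib.FewX.PointsU

/-!
# FewX.Points: the points theorem  (1.2 h)

If the theorem fails for `N, ε`, then for every `j` the choice `M = j`, `δ = 1/(j+1)`, `Y0 = j + 2` fails: there are `Y j ≥ j + 2`, `α j, β j, γ j, e j, f j, g j`, `Z j` with more than `Y j ^ ε` elements. (`choose`.) Cast the points to `ℤ` (`Z' j` = image of `Z j` under
`fun z i => (z i : ℤ)`, injective). `ABC`, `hinj` hold, `Large` with `η = ε`: contradiction to `points_U`.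
-/

open Filter

namespace Pool.Agent.Lib.FewX

theorem points (N : ℕ) (ε : ℝ) (hε : 0 < ε) : ∃ (M : ℕ) (δ : ℝ) (Y0 : ℕ), 0 < δ ∧ 2 ≤ Y0 ∧
    ∀ Y : ℕ, Y0 ≤ Y → ∀ (α β γ : ℕ) (e f g : Fin N → ℕ), (∀ i, e i ≤ Y ∧ f i ≤ Y ∧ g i ≤ Y) →
    ∀ Z : Finset (Fin N → ℕ),
      (∀ z ∈ Z, (∀ i, 1 ≤ z i ∧ z i ≤ Y) ∧
        0 < α * ∏ i, z i ^ e i ∧ 0 < β * ∏ i, z i ^ f i ∧
        α * ∏ i, z i ^ e i + β * ∏ i, z i ^ f i = γ * ∏ i, z i ^ g i ∧
        Nat.Coprime (α * ∏ i, z i ^ e i) (β * ∏ i, z i ^ f i) ∧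
        Y ^ M ≤ γ * ∏ i, z i ^ g i ∧
        ((γ * ∏ i, z i ^ g i : ℕ) : ℝ) ≤ Real.exp ((Y : ℝ) ^ δ)) →
      (∀ z ∈ Z, ∀ z' ∈ Z, α * ∏ i, z i ^ e i = α * ∏ i, z' i ^ e i →
        γ * ∏ i, z i ^ g i = γ * ∏ i, z' i ^ g i → z = z') →
      (Z.card : ℝ) ≤ (Y : ℝ) ^ ε := by
  by_contra hcon
  push Not at hcon
  choose Y hY α β γ e f g hb Z hZ hinj hcard using
    fun j : ℕ => hcon j (1 / ((j : ℝ) + 1)) (j + 2) (by positivity) (by omega)
  have hcinj : Function.Injective (fun (z : Fin N → ℕ) (i : Fin N) => (z i : ℤ)) := by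
    intro z z' h
    funext i
    have h1 : (z i : ℤ) = (z' i : ℤ) := congrFun h i
    exact_mod_cast h1
  have hprod : ∀ (a : ℕ) (z k : Fin N → ℕ),
      (a : ℤ) * ∏ i, ((z i : ℕ) : ℤ) ^ k i = ((a * ∏ i, z i ^ k i : ℕ) : ℤ) := by
    intro a z k
    push_cast
    rfl
  refine points_U (Y := Y) hY
    (fun j => (Z j).image (fun (z : Fin N → ℕ) (i : Fin N) => (z i : ℤ)))
    (fun j => (α j : ℤ)) (fun j => (β j : ℤ)) (fun j => (γ j : ℤ)) e f g ?_ ?_ ?_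
  · refine ⟨hb, ?_⟩
    intro j z' hz'
    obtain ⟨z, hz, rfl⟩ := Finset.mem_image.1 hz'
    obtain ⟨h1, h2, h3, h4, h5, h6, h7⟩ := hZ j z hz
    simp only [hprod]
    refine ⟨?_, by exact_mod_cast h2, by exact_mod_cast h3, by exact_mod_cast h4,
      Nat.isCoprime_iff_coprime.mpr h5, by exact_mod_cast h6, ?_⟩
    · intro i
      exact ⟨by exact_mod_cast (h1 i).1, by exact_mod_cast (h1 i).2⟩
    · rw [Int.cast_natCast]
      exact h7
  · intro j z hz z' hz' hA hC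
    obtain ⟨w, hw, rfl⟩ := Finset.mem_image.1 hz
    obtain ⟨w', hw', rfl⟩ := Finset.mem_image.1 hz'
    simp only [hprod] at hA hC
    have := hinj j w hw w' hw' (by exact_mod_cast hA) (by exact_mod_cast hC)
    rw [this]
  · refine ⟨ε, hε, Filter.Eventually.of_forall fun j => ?_⟩
    rw [Finset.card_image_of_injective _ hcinj]
    exact (hcard j).le

end Pool.Agent.Lib.FewX
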