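import Pool.Agent.Lib.FewX.Triples
import Pool.Agent.Lib.FewX.Points

/-!
# FewX.TransA: triples whose members are products of few powers  (2 h)

`points` for `N = 3 n` and `ε / 2`: `M, δ0, Y0`. `δ = min δ0 (min (1/2) (ε / (12 n + 12)))`. For each `t ∈ T` choose representations `a' = ∏ x i ^ k i` etc. with `k i = 0` whenever `x i = 1`; then `2^(k i) ≤ c ≤ exp (Y^δ)`, so `k i ≤ 2 Y^δ ≤ Y`.
(`C > 0`, `c > 0`, so each factor `x i ^ k i` divides `c`.) Index the variables by `Fin (3 n)` (`Fin n ⊕ Fin n ⊕ Fin n`, or `finProdFinEquiv`, or transport `points` first to a general index type by an equivalence): the point `z = (x, y, w)`, the exponent vector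
`(k, k', k'')` in at most `(2 Y^δ + 1)^(3 n)` ways. For a fixed exponent vector: `e = (k, 0, 0)`, `f = (0, k', 0)`, `g = (0, 0, k'')`, `Z` = the set of the chosen points of the triples with this exponent vector: `t` is determined by the point (`a = A ∏ ..`), so the number of these triples is `Z.card`
and the last hypothesis of `points` holds (`a` and `c` determine `t`, hence its chosen point). So `T.card ≤ (2 Y^δ + 1)^(3n) * Y^(ε/2) ≤ Y^ε` for `Y` large.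
-/

namespace Pool.Agent.Lib.FewX

namespace TransAAux

theorem norm_powers {n Y m : ℕ} (h : Powers n Y m) : ∃ x k : Fin n → ℕ,
    (∀ i, 1 ≤ x i ∧ x i ≤ Y) ∧ (∀ i, x i = 1 → k i = 0) ∧ m = ∏ i, x i ^ k i := by
  obtain ⟨x, k, h1, h2⟩ := h
  refine ⟨x, fun i => if x i = 1 then 0 else k i, h1, ?_, ?_⟩
  · intro i hi
    simp [hi]
  · rw [h2]
    refine Finset.prod_congr rfl fun i _ => ?_
    by_cases hi : x i = 1
    · simp [hi]
    · simp [hi]

theorem exp_bound {n A : ℕ} {x k : Fin n → ℕ} {R : ℝ} (hx : ∀ i, 1 ≤ x i)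
    (hk : ∀ i, x i = 1 → k i = 0) (hA : 0 < A) (hR : 0 ≤ R)
    (h : ((A * ∏ i, x i ^ k i : ℕ) : ℝ) ≤ Real.exp R) (i : Fin n) : (k i : ℝ) ≤ 2 * R := by
  by_cases hi : x i = 1
  · rw [hk i hi]
    push_cast
    linarith
  · have h2 : 2 ≤ x i := by
      have := hx i
      omega
    have hpos : 0 < ∏ j, x j ^ k j := Finset.prod_pos fun j _ => pow_pos (hx j) _
    have h3 : x i ^ k i ≤ ∏ j, x j ^ k j :=
      Nat.le_of_dvd hpos (Finset.dvd_prod_of_mem _ (Finset.mem_univ i))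
    have h4 : 2 ^ k i ≤ A * ∏ j, x j ^ k j :=
      (Nat.pow_le_pow_left h2 _).trans (h3.trans (Nat.le_mul_of_pos_left _ hA))
    have h5 : (2 : ℝ) ^ k i ≤ Real.exp R := by
      refine le_trans ?_ h
      exact_mod_cast h4
    have h6 : (k i : ℝ) * Real.log 2 ≤ R := by
      rw [← Real.log_pow]
      have h7 := Real.log_le_log (by positivity) h5
      rwa [Real.log_exp] at h7
    have h7 : (1 : ℝ) / 2 ≤ Real.log 2 := by
      have := Real.log_two_gt_d9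
      linarith
    have h8 : (0 : ℝ) ≤ k i := Nat.cast_nonneg _
    nlinarith

/-- the point of three vectors -/
def pt {n : ℕ} (x y w : Fin n → ℕ) : Fin (n + n + n) → ℕ := Fin.append (Fin.append x y) w

theorem prod_pt {n : ℕ} (x y w a b c : Fin n → ℕ) : ∏ i, pt x y w i ^ pt a b c i =
    (∏ i, x i ^ a i) * (∏ i, y i ^ b i) * ∏ i, w i ^ c i := by
  unfold pt
  rw [Fin.prod_univ_add, Fin.prod_univ_add]
  simp only [Fin.append_left, Fin.append_right]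

theorem prod_pt1 {n : ℕ} (x y w a : Fin n → ℕ) : ∏ i, pt x y w i ^ pt a 0 0 i =
    ∏ i, x i ^ a i := by
  rw [prod_pt]
  simp

theorem prod_pt2 {n : ℕ} (x y w a : Fin n → ℕ) : ∏ i, pt x y w i ^ pt 0 a 0 i =
    ∏ i, y i ^ a i := by
  rw [prod_pt]
  simp

theorem prod_pt3 {n : ℕ} (x y w a : Fin n → ℕ) : ∏ i, pt x y w i ^ pt 0 0 a i =
    ∏ i, w i ^ a i := by
  rw [prod_pt]
  simp

theorem pt_all {n : ℕ} {x y w : Fin n → ℕ} {P : ℕ → Prop} (hx : ∀ i, P (x i)) (hy : ∀ i, P (y i))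
    (hw : ∀ i, P (w i)) (i : Fin (n + n + n)) : P (pt x y w i) := by
  unfold pt
  refine Fin.addCases (fun j => ?_) (fun j => ?_) i
  · rw [Fin.append_left]
    refine Fin.addCases (fun j => ?_) (fun j => ?_) j
    · rw [Fin.append_left]
      exact hx j
    · rw [Fin.append_right]
      exact hy j
  · rw [Fin.append_right]
    exact hw j

theorem final_bound (n : ℕ) (ε δ : ℝ) (hε : 0 < ε) (hδ : 0 < δ) (hδ2 : δ ≤ ε / (12 * n + 12))
    (Y K : ℕ) (hY : 1 ≤ Y) (hY1 : ((27 : ℝ) ^ n) ^ (4 / ε) ≤ Y) (hK : (K : ℝ) ≤ 2 * (Y : ℝ) ^ δ) :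
    (Y : ℝ) ^ (ε / 2) * (((K : ℝ) + 1) ^ n * (((K : ℝ) + 1) ^ n * ((K : ℝ) + 1) ^ n)) ≤
      (Y : ℝ) ^ ε := by
  have hY' : (1 : ℝ) ≤ Y := by exact_mod_cast hY
  have hY0 : (0 : ℝ) < Y := by linarith
  have h1 : (1 : ℝ) ≤ (Y : ℝ) ^ δ := Real.one_le_rpow hY' hδ.le
  have h2 : (K : ℝ) + 1 ≤ 3 * (Y : ℝ) ^ δ := by linarith
  have h0 : (0 : ℝ) ≤ (K : ℝ) + 1 := by positivity
  have h3 : ((K : ℝ) + 1) ^ n * (((K : ℝ) + 1) ^ n * ((K : ℝ) + 1) ^ n) =
      (((K : ℝ) + 1) ^ 3) ^ n := by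
    rw [← mul_pow, ← mul_pow]
    congr 1
    ring
  have h4 : (((K : ℝ) + 1) ^ 3) ^ n ≤ (27 : ℝ) ^ n * (Y : ℝ) ^ (δ * (3 * n)) := by
    have h5 : ((K : ℝ) + 1) ^ 3 ≤ 27 * ((Y : ℝ) ^ δ) ^ 3 := by
      have := pow_le_pow_left₀ h0 h2 3
      calc ((K : ℝ) + 1) ^ 3 ≤ (3 * (Y : ℝ) ^ δ) ^ 3 := this
        _ = 27 * ((Y : ℝ) ^ δ) ^ 3 := by ring
    have h6 : (((K : ℝ) + 1) ^ 3) ^ n ≤ (27 * ((Y : ℝ) ^ δ) ^ 3) ^ n :=
      pow_le_pow_left₀ (by positivity) h5 n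
    refine h6.trans (le_of_eq ?_)
    rw [mul_pow, ← pow_mul, Real.rpow_mul hY0.le]
    congr 1
    rw [← Real.rpow_natCast]
    push_cast
    ring_nf
  have h5 : (27 : ℝ) ^ n ≤ (Y : ℝ) ^ (ε / 4) := by
    have h6 := Real.rpow_le_rpow (by positivity) hY1 (by positivity : (0 : ℝ) ≤ ε / 4)
    rw [← Real.rpow_mul (by positivity)] at h6
    have h7 : 4 / ε * (ε / 4) = 1 := by
      field_simp
    rwa [h7, Real.rpow_one] at h6
  have h6 : (Y : ℝ) ^ (δ * (3 * n)) ≤ (Y : ℝ) ^ (ε / 4) := by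
    apply Real.rpow_le_rpow_of_exponent_le hY'
    have hn : (0 : ℝ) ≤ n := Nat.cast_nonneg n
    have h7 : δ * (3 * n) ≤ ε / (12 * n + 12) * (3 * n) := by
      apply mul_le_mul_of_nonneg_right hδ2
      positivity
    refine h7.trans ?_
    rw [div_mul_eq_mul_div, div_le_div_iff₀ (by positivity) (by norm_num)]
    nlinarith
  rw [h3]
  calc (Y : ℝ) ^ (ε / 2) * (((K : ℝ) + 1) ^ 3) ^ n
      ≤ (Y : ℝ) ^ (ε / 2) * ((27 : ℝ) ^ n * (Y : ℝ) ^ (δ * (3 * n))) :=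
        mul_le_mul_of_nonneg_left h4 (by positivity)
    _ ≤ (Y : ℝ) ^ (ε / 2) * ((Y : ℝ) ^ (ε / 4) * (Y : ℝ) ^ (ε / 4)) := by
        apply mul_le_mul_of_nonneg_left _ (by positivity)
        exact mul_le_mul h5 h6 (by positivity) (by positivity)
    _ = (Y : ℝ) ^ ε := by
        rw [← Real.rpow_add hY0, ← Real.rpow_add hY0]
        congr 1
        ring

end TransAAux

theorem few_powers (n : ℕ) (ε : ℝ) (hε : 0 < ε) : ∃ (M : ℕ) (δ : ℝ) (Y0 : ℕ), 0 < δ ∧ 2 ≤ Y0 ∧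
    ∀ Y : ℕ, Y0 ≤ Y → ∀ (A B C : ℕ) (T : Finset (ℕ × ℕ × ℕ)),
      (∀ t ∈ T, AbcTriple t.1 t.2.1 t.2.2 ∧ (∃ a', Powers n Y a' ∧ t.1 = A * a') ∧
        (∃ b', Powers n Y b' ∧ t.2.1 = B * b') ∧ (∃ c', Powers n Y c' ∧ t.2.2 = C * c') ∧
        Y ^ M ≤ t.2.2 ∧ (t.2.2 : ℝ) ≤ Real.exp ((Y : ℝ) ^ δ)) →
      (T.card : ℝ) ≤ (Y : ℝ) ^ ε := by
  classical
  obtain ⟨M, δ0, Y0, hδ0, hY0, hpts⟩ := points (n + n + n) (ε / 2) (by positivity)
  have hn : (0 : ℝ) ≤ n := Nat.cast_nonneg n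
  obtain ⟨δ, hδ⟩ : ∃ δ : ℝ, δ = min δ0 (min (1 / 2) (ε / (12 * n + 12))) := ⟨_, rfl⟩
  have hδpos : 0 < δ := by
    rw [hδ]
    refine lt_min hδ0 (lt_min (by norm_num) (by positivity))
  have hδ1 : δ ≤ δ0 := by rw [hδ]; exact min_le_left _ _
  have hδ2 : δ ≤ 1 / 2 := by rw [hδ]; exact (min_le_right _ _).trans (min_le_left _ _)
  have hδ3 : δ ≤ ε / (12 * n + 12) := by
    rw [hδ]
    exact (min_le_right _ _).trans (min_le_right _ _)
  refine ⟨M, δ, max Y0 (max 4 ⌈((27 : ℝ) ^ n) ^ (4 / ε)⌉₊), hδpos,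
    le_trans hY0 (le_max_left _ _), ?_⟩
  intro Y hY A B C T hT
  have hY1 : Y0 ≤ Y := le_trans (le_max_left _ _) hY
  have hY2 : 4 ≤ Y := le_trans (le_trans (le_max_left _ _) (le_max_right _ _)) hY
  have hY3 : ((27 : ℝ) ^ n) ^ (4 / ε) ≤ Y := by
    have h1 : ⌈((27 : ℝ) ^ n) ^ (4 / ε)⌉₊ ≤ Y :=
      le_trans (le_trans (le_max_right _ _) (le_max_right _ _)) hY
    exact (Nat.le_ceil _).trans (by exact_mod_cast h1)
  have hYr : (4 : ℝ) ≤ Y := by exact_mod_cast hY2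
  have hYr1 : (1 : ℝ) ≤ Y := by linarith
  obtain ⟨K, hK⟩ : ∃ K : ℕ, K = ⌊2 * (Y : ℝ) ^ δ⌋₊ := ⟨_, rfl⟩
  have hKr : (K : ℝ) ≤ 2 * (Y : ℝ) ^ δ := by
    rw [hK]
    exact Nat.floor_le (by positivity)
  have hKY : K ≤ Y := by
    have h1 : (Y : ℝ) ^ δ ≤ (Y : ℝ) ^ ((1 : ℝ) / 2) :=
      Real.rpow_le_rpow_of_exponent_le hYr1 hδ2
    have h2 : (Y : ℝ) ^ ((1 : ℝ) / 2) = Real.sqrt Y := (Real.sqrt_eq_rpow _).symm
    have h3 : 2 * Real.sqrt Y ≤ Y := by
      have h4 : Real.sqrt Y * Real.sqrt Y = Y := Real.mul_self_sqrt (by positivity)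
      have h5 : (2 : ℝ) ≤ Real.sqrt Y := by
        apply Real.le_sqrt_of_sq_le
        linarith
      nlinarith
    have h4 : (K : ℝ) ≤ Y := by
      rw [h2] at h1
      linarith
    exact_mod_cast h4
  have hrep : ∀ t : ℕ × ℕ × ℕ, ∃ x k y l w m : Fin n → ℕ, t ∈ T →
      ((∀ i, 1 ≤ x i ∧ x i ≤ Y) ∧ (∀ i, 1 ≤ y i ∧ y i ≤ Y) ∧ (∀ i, 1 ≤ w i ∧ w i ≤ Y)) ∧
      (t.1 = A * ∏ i, x i ^ k i ∧ t.2.1 = B * ∏ i, y i ^ l i ∧ t.2.2 = C * ∏ i, w i ^ m i) ∧
      (∀ i, k i ≤ K) ∧ (∀ i, l i ≤ K) ∧ (∀ i, m i ≤ K) := by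
    intro t
    by_cases ht : t ∈ T
    · obtain ⟨habc, ⟨a', ha, hA⟩, ⟨b', hb, hB⟩, ⟨c', hc, hC⟩, -, hexp⟩ := hT t ht
      obtain ⟨x, k, hx1, hx2, hx3⟩ := TransAAux.norm_powers ha
      obtain ⟨y, l, hy1, hy2, hy3⟩ := TransAAux.norm_powers hb
      obtain ⟨w, m, hw1, hw2, hw3⟩ := TransAAux.norm_powers hc
      obtain ⟨h1, h2, h3, h4, h5, h6, h7⟩ := habc
      have hR : (0 : ℝ) ≤ (Y : ℝ) ^ δ := by positivity
      have hle1 : ((A * ∏ i, x i ^ k i : ℕ) : ℝ) ≤ Real.exp ((Y : ℝ) ^ δ) := by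
        refine le_trans ?_ hexp
        rw [← hx3, ← hA]
        have : t.1 ≤ t.2.2 := by omega
        exact_mod_cast this
      have hle2 : ((B * ∏ i, y i ^ l i : ℕ) : ℝ) ≤ Real.exp ((Y : ℝ) ^ δ) := by
        refine le_trans ?_ hexp
        rw [← hy3, ← hB]
        have : t.2.1 ≤ t.2.2 := by omega
        exact_mod_cast this
      have hle3 : ((C * ∏ i, w i ^ m i : ℕ) : ℝ) ≤ Real.exp ((Y : ℝ) ^ δ) := by
        rw [← hw3, ← hC]
        exact hexp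
      have hA0 : 0 < A := by
        rcases Nat.eq_zero_or_pos A with h | h
        · rw [h, zero_mul] at hA
          omega
        · exact h
      have hB0 : 0 < B := by
        rcases Nat.eq_zero_or_pos B with h | h
        · rw [h, zero_mul] at hB
          omega
        · exact h
      have hC0 : 0 < C := by
        rcases Nat.eq_zero_or_pos C with h | h
        · rw [h, zero_mul] at hC
          omega
        · exact h
      refine ⟨x, k, y, l, w, m, fun _ => ⟨⟨hx1, hy1, hw1⟩,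
        ⟨by rw [hA, hx3], by rw [hB, hy3], by rw [hC, hw3]⟩, ?_, ?_, ?_⟩⟩
      · intro i
        rw [hK]
        exact Nat.le_floor (TransAAux.exp_bound (fun i => (hx1 i).1) hx2 hA0 hR hle1 i)
      · intro i
        rw [hK]
        exact Nat.le_floor (TransAAux.exp_bound (fun i => (hy1 i).1) hy2 hB0 hR hle2 i)
      · intro i
        rw [hK]
        exact Nat.le_floor (TransAAux.exp_bound (fun i => (hw1 i).1) hw2 hC0 hR hle3 i)
    · exact ⟨0, 0, 0, 0, 0, 0, fun h => absurd h ht⟩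
  choose x k y l w m hrep using hrep
  have hfib : ∀ v ∈ (Fintype.piFinset (fun _ : Fin n => Finset.range (K + 1))) ×ˢ
      ((Fintype.piFinset (fun _ : Fin n => Finset.range (K + 1))) ×ˢ
      (Fintype.piFinset (fun _ : Fin n => Finset.range (K + 1)))),
      (T.filter (fun t => (k t, l t, m t) = v)).card ≤ ⌊(Y : ℝ) ^ (ε / 2)⌋₊ := by
    rintro ⟨v1, v2, v3⟩ hv
    simp only [Finset.mem_product, Fintype.mem_piFinset, Finset.mem_range] at hv
    obtain ⟨hv1, hv2, hv3⟩ := hv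
    have hmem : ∀ t ∈ T.filter (fun t => (k t, l t, m t) = (v1, v2, v3)),
        t ∈ T ∧ t.1 = A * ∏ i, x t i ^ v1 i ∧ t.2.1 = B * ∏ i, y t i ^ v2 i ∧
          t.2.2 = C * ∏ i, w t i ^ v3 i := by
      intro t ht
      obtain ⟨ht1, ht2⟩ := Finset.mem_filter.1 ht
      simp only [Prod.mk.injEq] at ht2
      obtain ⟨e1, e2, e3⟩ := ht2
      obtain ⟨_, ⟨h1, h2, h3⟩, _⟩ := hrep t ht1
      rw [e1] at h1
      rw [e2] at h2
      rw [e3] at h3
      exact ⟨ht1, h1, h2, h3⟩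
    have hinj : Set.InjOn (fun t => TransAAux.pt (x t) (y t) (w t))
        ((T.filter (fun t => (k t, l t, m t) = (v1, v2, v3)) : Finset (ℕ × ℕ × ℕ)) :
          Set (ℕ × ℕ × ℕ)) := by
      intro t ht t' ht' h
      obtain ⟨_, h1, h2, h3⟩ := hmem t ht
      obtain ⟨_, h1', h2', h3'⟩ := hmem t' ht'
      have h : TransAAux.pt (x t) (y t) (w t) = TransAAux.pt (x t') (y t') (w t') := h
      have e1 : t.1 = t'.1 := by
        rw [h1, h1', ← TransAAux.prod_pt1 (x t) (y t) (w t), h, TransAAux.prod_pt1]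
      have e2 : t.2.1 = t'.2.1 := by
        rw [h2, h2', ← TransAAux.prod_pt2 (x t) (y t) (w t), h, TransAAux.prod_pt2]
      have e3 : t.2.2 = t'.2.2 := by
        rw [h3, h3', ← TransAAux.prod_pt3 (x t) (y t) (w t), h, TransAAux.prod_pt3]
      exact Prod.ext e1 (Prod.ext e2 e3)
    have hcard := hpts Y hY1 A B C (TransAAux.pt v1 0 0) (TransAAux.pt 0 v2 0)
      (TransAAux.pt 0 0 v3) (fun i => ⟨
        TransAAux.pt_all (P := fun a => a ≤ Y) (fun i => by have := hv1 i; omega)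
          (fun i => by simp) (fun i => by simp) i,
        TransAAux.pt_all (P := fun a => a ≤ Y) (fun i => by simp)
          (fun i => by have := hv2 i; omega) (fun i => by simp) i,
        TransAAux.pt_all (P := fun a => a ≤ Y) (fun i => by simp)
          (fun i => by simp) (fun i => by have := hv3 i; omega) i⟩)
      ((T.filter (fun t => (k t, l t, m t) = (v1, v2, v3))).image
        (fun t => TransAAux.pt (x t) (y t) (w t))) ?_ ?_
    · rw [Finset.card_image_of_injOn hinj] at hcard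
      exact Nat.le_floor hcard
    · intro z hz
      obtain ⟨t, ht, rfl⟩ := Finset.mem_image.1 hz
      obtain ⟨htT, h1, h2, h3⟩ := hmem t ht
      obtain ⟨⟨hx, hy, hw⟩, _⟩ := hrep t htT
      obtain ⟨⟨g1, g2, g3, g4, g5, g6, g7⟩, -, -, -, hM, hexp⟩ := hT t htT
      rw [TransAAux.prod_pt1, TransAAux.prod_pt2, TransAAux.prod_pt3, ← h1, ← h2, ← h3]
      refine ⟨TransAAux.pt_all (P := fun a => 1 ≤ a ∧ a ≤ Y) hx hy hw, g1, g2, g7, g4, hM, ?_⟩
      refine hexp.trans (Real.exp_le_exp.2 ?_)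
      exact Real.rpow_le_rpow_of_exponent_le hYr1 hδ1
    · intro z hz z' hz' h h'
      obtain ⟨t, ht, rfl⟩ := Finset.mem_image.1 hz
      obtain ⟨t', ht', rfl⟩ := Finset.mem_image.1 hz'
      obtain ⟨htT, h1, h2, h3⟩ := hmem t ht
      obtain ⟨htT', h1', h2', h3'⟩ := hmem t' ht'
      obtain ⟨⟨g1, g2, g3, g4, g5, g6, g7⟩, _⟩ := hT t htT
      obtain ⟨⟨g1', g2', g3', g4', g5', g6', g7'⟩, _⟩ := hT t' htT'
      rw [TransAAux.prod_pt1, TransAAux.prod_pt1, ← h1, ← h1'] at h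
      rw [TransAAux.prod_pt3, TransAAux.prod_pt3, ← h3, ← h3'] at h'
      have e2 : t.2.1 = t'.2.1 := by omega
      have e : t = t' := Prod.ext h (Prod.ext e2 h')
      rw [e]
  have hmaps : ∀ t ∈ T, (k t, l t, m t) ∈ (Fintype.piFinset (fun _ : Fin n =>
      Finset.range (K + 1))) ×ˢ ((Fintype.piFinset (fun _ : Fin n => Finset.range (K + 1))) ×ˢ
      (Fintype.piFinset (fun _ : Fin n => Finset.range (K + 1)))) := by
    intro t ht
    obtain ⟨_, _, h1, h2, h3⟩ := hrep t ht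
    simp only [Finset.mem_product, Fintype.mem_piFinset, Finset.mem_range]
    exact ⟨fun i => by have := h1 i; omega, fun i => by have := h2 i; omega,
      fun i => by have := h3 i; omega⟩
  have hcard := Finset.card_le_mul_card_image_of_maps_to hmaps _ hfib
  rw [Finset.card_product, Finset.card_product, Fintype.card_piFinset_const,
    Finset.card_range] at hcard
  have hc2 : (T.card : ℝ) ≤ (⌊(Y : ℝ) ^ (ε / 2)⌋₊ : ℝ) *
      (((K : ℝ) + 1) ^ n * (((K : ℝ) + 1) ^ n * ((K : ℝ) + 1) ^ n)) := by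
    exact_mod_cast hcard
  refine hc2.trans ((mul_le_mul_of_nonneg_right (Nat.floor_le (by positivity))
    (by positivity)).trans ?_)
  exact TransAAux.final_bound n ε δ hε hδpos hδ3 Y K (by omega) hY3 hKr

end Pool.Agent.Lib.FewX
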