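import Pool.Agent.Lib.FewX.LargeAlg

/-!
# FewX.BdAlg: bounded sequences of polynomials  (1.5 h)

Always `2 ≤ j + 2 ≤ Y j`. `mul`: degree at most `k1 + k2`, a coefficient of the product is a sum of at most
`(k1 + 1)^N` products (`MvPolynomial.coeff_mul`, or bound the sum of the absolute values of all coefficients by
`(k+1)^N Y^k`, which is submultiplicative), and a constant is at most `Y j` almost surely (`ev_ge`).
`pderiv`: a coefficient is multiplied by an exponent `≤ k`. `Jac`, `vf`, `Dd`, `Ld`: finite sums and products.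
`eval`: at most `(k+1)^N` monomials, each of absolute value at most `Y^k * Y^k`.
-/

open MvPolynomial Filter

namespace Pool.Agent.Lib.FewX

variable {N : ℕ} {Y : ℕ → ℕ} {G G' : ℕ → MvPolynomial (Fin N) ℤ}

namespace BdAlgAux

/-- the sum of the absolute values of the coefficients -/
noncomputable def l1 (P : MvPolynomial (Fin N) ℤ) : ℤ := ∑ m ∈ P.support, |coeff m P|

theorem l1_eq (P : MvPolynomial (Fin N) ℤ) {S : Finset (Fin N →₀ ℕ)} (h : P.support ⊆ S) :
    ∑ m ∈ S, |coeff m P| = l1 P := by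
  symm
  refine Finset.sum_subset h fun m _ hm => ?_
  rw [notMem_support_iff.1 hm, abs_zero]

theorem l1_nonneg (P : MvPolynomial (Fin N) ℤ) : 0 ≤ l1 P :=
  Finset.sum_nonneg fun _ _ => abs_nonneg _

theorem l1_zero : l1 (0 : MvPolynomial (Fin N) ℤ) = 0 := by
  simp [l1]

theorem coeff_le_l1 (P : MvPolynomial (Fin N) ℤ) (m : Fin N →₀ ℕ) : |coeff m P| ≤ l1 P := by
  by_cases hm : m ∈ P.support
  · exact Finset.single_le_sum (f := fun m => |coeff m P|) (fun _ _ => abs_nonneg _) hm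
  · rw [notMem_support_iff.1 hm, abs_zero]
    exact l1_nonneg P

theorem l1_add (P Q : MvPolynomial (Fin N) ℤ) : l1 (P + Q) ≤ l1 P + l1 Q := by
  classical
  have h1 : (P + Q).support ⊆ P.support ∪ Q.support := support_add
  rw [← l1_eq (P + Q) h1, ← l1_eq P (S := P.support ∪ Q.support) Finset.subset_union_left,
    ← l1_eq Q (S := P.support ∪ Q.support) Finset.subset_union_right, ← Finset.sum_add_distrib]
  refine Finset.sum_le_sum fun m _ => ?_
  rw [coeff_add]
  exact abs_add_le _ _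

theorem l1_monomial (m : Fin N →₀ ℕ) (c : ℤ) : l1 (monomial m c) ≤ |c| := by
  classical
  have h1 : (monomial m c).support ⊆ ({m} : Finset (Fin N →₀ ℕ)) := support_monomial_subset
  rw [← l1_eq _ h1, Finset.sum_singleton, coeff_monomial, if_pos rfl]

theorem l1_sum {ι : Type*} (s : Finset ι) (F : ι → MvPolynomial (Fin N) ℤ) :
    l1 (∑ i ∈ s, F i) ≤ ∑ i ∈ s, l1 (F i) := by
  classical
  induction s using Finset.induction_on with
  | empty => simp [l1_zero]
  | insert a s ha ih =>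
    rw [Finset.sum_insert ha, Finset.sum_insert ha]
    exact (l1_add _ _).trans (by linarith)

theorem l1_mul (P Q : MvPolynomial (Fin N) ℤ) : l1 (P * Q) ≤ l1 P * l1 Q := by
  have h : P * Q = ∑ m ∈ P.support, ∑ n ∈ Q.support, monomial (m + n) (coeff m P * coeff n Q) := by
    conv_lhs => rw [P.as_sum, Q.as_sum]
    rw [Finset.sum_mul_sum]
    refine Finset.sum_congr rfl fun m _ => Finset.sum_congr rfl fun n _ => ?_
    rw [monomial_mul]
  rw [h]
  calc l1 (∑ m ∈ P.support, ∑ n ∈ Q.support, monomial (m + n) (coeff m P * coeff n Q))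
      ≤ ∑ m ∈ P.support, l1 (∑ n ∈ Q.support, monomial (m + n) (coeff m P * coeff n Q)) :=
        l1_sum _ _
    _ ≤ ∑ m ∈ P.support, ∑ n ∈ Q.support, |coeff m P| * |coeff n Q| := by
        refine Finset.sum_le_sum fun m _ => (l1_sum _ _).trans (Finset.sum_le_sum fun n _ => ?_)
        rw [← abs_mul]
        exact l1_monomial _ _
    _ = l1 P * l1 Q := by
        unfold l1
        rw [Finset.sum_mul_sum]

theorem exp_le {P : MvPolynomial (Fin N) ℤ} {k : ℕ} (hP : P.totalDegree ≤ k) {m : Fin N →₀ ℕ}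
    (hm : m ∈ P.support) : ∑ i, m i ≤ k := by
  have h1 := le_totalDegree hm
  rw [Finsupp.sum_fintype _ _ fun _ => rfl] at h1
  exact h1.trans hP

theorem exp_le' {P : MvPolynomial (Fin N) ℤ} {k : ℕ} (hP : P.totalDegree ≤ k) {m : Fin N →₀ ℕ}
    (hm : m ∈ P.support) (i : Fin N) : m i ≤ k :=
  (Finset.single_le_sum (f := fun i => m i) (fun _ _ => Nat.zero_le _) (Finset.mem_univ i)).trans
    (exp_le hP hm)

theorem card_support {P : MvPolynomial (Fin N) ℤ} {k : ℕ} (hP : P.totalDegree ≤ k) :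
    P.support.card ≤ (k + 1) ^ N := by
  have h1 : P.support.card ≤ (Fintype.piFinset fun _ : Fin N => Finset.range (k + 1)).card := by
    apply Finset.card_le_card_of_injOn (fun m : Fin N →₀ ℕ => (m : Fin N → ℕ))
    · intro m hm
      refine Finset.mem_coe.2 (Fintype.mem_piFinset.2 fun i => Finset.mem_range.2 ?_)
      exact Nat.lt_succ_of_le (exp_le' hP (Finset.mem_coe.1 hm) i)
    · intro m _ m' _ h
      exact DFunLike.coe_injective h
  refine h1.trans (le_of_eq ?_)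
  simp

theorem l1_pderiv {P : MvPolynomial (Fin N) ℤ} {k : ℕ} (hP : P.totalDegree ≤ k) (i : Fin N) :
    (pderiv i P).totalDegree ≤ k ∧ l1 (pderiv i P) ≤ k * l1 P := by
  have h : pderiv i P = ∑ m ∈ P.support, monomial (m - Finsupp.single i 1) (coeff m P * m i) := by
    conv_lhs => rw [P.as_sum]
    rw [map_sum]
    refine Finset.sum_congr rfl fun m _ => ?_
    rw [pderiv_monomial]
  rw [h]
  constructor
  · refine (totalDegree_finsetSum _ _).trans (Finset.sup_le fun m hm => ?_)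
    refine (totalDegree_monomial_le _ _).trans ?_
    rw [Finsupp.sum_fintype _ _ fun _ => rfl]
    refine (Finset.sum_le_sum fun l _ => ?_).trans (exp_le hP hm)
    rw [Finsupp.tsub_apply]
    exact Nat.sub_le _ _
  · refine (l1_sum _ _).trans ?_
    unfold l1
    rw [Finset.mul_sum]
    refine Finset.sum_le_sum fun m hm => (l1_monomial _ _).trans ?_
    rw [abs_mul, mul_comm]
    refine mul_le_mul_of_nonneg_right ?_ (abs_nonneg _)
    rw [Nat.abs_cast]
    exact_mod_cast exp_le' hP hm i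

/-- bounded degree and bounded sum of the coefficients -/
def Nd (Y : ℕ → ℕ) (k : ℕ) (G : ℕ → MvPolynomial (Fin N) ℤ) : Prop :=
  ∀ᶠ j in UU, (G j).totalDegree ≤ k ∧ l1 (G j) ≤ (Y j : ℤ) ^ k

theorem one_le (hY : ∀ j, j + 2 ≤ Y j) (j : ℕ) : (1 : ℤ) ≤ Y j := by
  have := hY j
  exact_mod_cast (by omega : 1 ≤ Y j)

theorem two_le (hY : ∀ j, j + 2 ≤ Y j) (j : ℕ) : (2 : ℤ) ≤ Y j := by
  have := hY j
  exact_mod_cast (by omega : 2 ≤ Y j)

theorem ev_le (hY : ∀ j, j + 2 ≤ Y j) (n : ℕ) : ∀ᶠ j in UU, (n : ℤ) ≤ Y j := by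
  filter_upwards [ev_ge n] with j hj
  have := hY j
  exact_mod_cast (by omega : n ≤ Y j)

theorem nd_mono (hY : ∀ j, j + 2 ≤ Y j) {k k' : ℕ} (h : k ≤ k') (hG : Nd Y k G) : Nd Y k' G := by
  filter_upwards [hG] with j hj
  exact ⟨hj.1.trans h, hj.2.trans (pow_le_pow_right₀ (one_le hY j) h)⟩

theorem bdE_iff (hY : ∀ j, j + 2 ≤ Y j) : BdE Y G ↔ ∃ k, Nd Y k G := by
  constructor
  · rintro ⟨k, hk⟩
    refine ⟨k + 1, ?_⟩
    filter_upwards [hk, ev_le hY ((k + 1) ^ N)] with j hj h2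
    refine ⟨hj.1.trans (Nat.le_succ k), ?_⟩
    have h3 : (0 : ℤ) ≤ (Y j : ℤ) ^ k := pow_nonneg (by have := one_le hY j; linarith) _
    calc l1 (G j) ≤ ∑ _m ∈ (G j).support, (Y j : ℤ) ^ k := Finset.sum_le_sum fun m _ => hj.2 m
      _ = (G j).support.card * (Y j : ℤ) ^ k := by rw [Finset.sum_const, nsmul_eq_mul]
      _ ≤ (((k + 1) ^ N : ℕ) : ℤ) * (Y j : ℤ) ^ k :=
          mul_le_mul_of_nonneg_right (by exact_mod_cast card_support hj.1) h3
      _ ≤ (Y j : ℤ) * (Y j : ℤ) ^ k := mul_le_mul_of_nonneg_right h2 h3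
      _ = (Y j : ℤ) ^ (k + 1) := by ring
  · rintro ⟨k, hk⟩
    refine ⟨k, ?_⟩
    filter_upwards [hk] with j hj
    exact ⟨hj.1, fun m => (coeff_le_l1 _ m).trans hj.2⟩

end BdAlgAux

open BdAlgAux

theorem bd_mono (hY : ∀ j, j + 2 ≤ Y j) {k k' : ℕ} (h : k ≤ k') (hG : Bd Y k G) : Bd Y k' G := by
  filter_upwards [hG] with j hj
  exact ⟨hj.1.trans h, fun m => (hj.2 m).trans (pow_le_pow_right₀ (one_le hY j) h)⟩

theorem bdE_const (hY : ∀ j, j + 2 ≤ Y j) (c : ℕ → ℤ) (k : ℕ)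
    (hc : ∀ᶠ j in UU, |c j| ≤ (Y j : ℤ) ^ k) :
    BdE Y (fun j => (C (c j) : MvPolynomial (Fin N) ℤ)) := by
  rw [bdE_iff hY]
  refine ⟨k, ?_⟩
  filter_upwards [hc] with j hj
  refine ⟨?_, ?_⟩
  · rw [totalDegree_C]
    exact Nat.zero_le k
  · exact (l1_monomial 0 (c j)).trans hj

theorem bdE_X (hY : ∀ j, j + 2 ≤ Y j) (i : Fin N) :
    BdE Y (fun _ => (X i : MvPolynomial (Fin N) ℤ)) := by
  rw [bdE_iff hY]
  refine ⟨1, Eventually.of_forall fun j => ⟨?_, ?_⟩⟩
  · exact (totalDegree_X i).le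
  · have h1 : l1 (X i : MvPolynomial (Fin N) ℤ) ≤ |1| := l1_monomial (Finsupp.single i 1) 1
    rw [abs_one] at h1
    rw [pow_one]
    exact h1.trans (one_le hY j)

theorem bdE_add (hY : ∀ j, j + 2 ≤ Y j) (h : BdE Y G) (h' : BdE Y G') :
    BdE Y (fun j => G j + G' j) := by
  rw [bdE_iff hY] at *
  obtain ⟨k, hk⟩ := h
  obtain ⟨k', hk'⟩ := h'
  refine ⟨max k k' + 1, ?_⟩
  filter_upwards [nd_mono hY (le_max_left k k') hk, nd_mono hY (le_max_right k k') hk'] with j h1 h2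
  refine ⟨?_, ?_⟩
  · exact (totalDegree_add _ _).trans ((max_le h1.1 h2.1).trans (Nat.le_succ _))
  · have h3 := two_le hY j
    have h4 : (0 : ℤ) ≤ (Y j : ℤ) ^ max k k' := pow_nonneg (by linarith) _
    have h5 := l1_add (G j) (G' j)
    rw [pow_succ]
    nlinarith [h1.2, h2.2]

theorem bdE_neg (h : BdE Y G) : BdE Y (fun j => - G j) := by
  obtain ⟨k, hk⟩ := h
  refine ⟨k, ?_⟩
  filter_upwards [hk] with j hj
  refine ⟨by rw [totalDegree_neg]; exact hj.1, fun m => ?_⟩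
  rw [coeff_neg, abs_neg]
  exact hj.2 m

theorem bdE_sub (hY : ∀ j, j + 2 ≤ Y j) (h : BdE Y G) (h' : BdE Y G') :
    BdE Y (fun j => G j - G' j) := by
  simpa only [sub_eq_add_neg] using bdE_add hY h (bdE_neg h')

theorem bdE_mul (hY : ∀ j, j + 2 ≤ Y j) (h : BdE Y G) (h' : BdE Y G') :
    BdE Y (fun j => G j * G' j) := by
  rw [bdE_iff hY] at *
  obtain ⟨k, hk⟩ := h
  obtain ⟨k', hk'⟩ := h'
  refine ⟨k + k', ?_⟩
  filter_upwards [hk, hk'] with j h1 h2
  refine ⟨(totalDegree_mul _ _).trans (Nat.add_le_add h1.1 h2.1), ?_⟩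
  rw [pow_add]
  exact (l1_mul _ _).trans (mul_le_mul h1.2 h2.2 (l1_nonneg _)
    (pow_nonneg (by have := one_le hY j; linarith) _))

theorem bdE_sum (hY : ∀ j, j + 2 ≤ Y j) {ι : Type} (s : Finset ι)
    (F : ι → ℕ → MvPolynomial (Fin N) ℤ) (h : ∀ i ∈ s, BdE Y (F i)) :
    BdE Y (fun j => ∑ i ∈ s, F i j) := by
  classical
  induction s using Finset.induction_on with
  | empty =>
    have h1 := bdE_const (N := N) hY (fun _ => 0) 0 (Eventually.of_forall fun j => by simp)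
    simpa using h1
  | insert a s ha ih =>
    have h1 := bdE_add hY (h a (Finset.mem_insert_self a s))
      (ih fun i hi => h i (Finset.mem_insert_of_mem hi))
    simpa only [Finset.sum_insert ha] using h1

theorem bdE_prod (hY : ∀ j, j + 2 ≤ Y j) {ι : Type} (s : Finset ι)
    (F : ι → ℕ → MvPolynomial (Fin N) ℤ) (h : ∀ i ∈ s, BdE Y (F i)) :
    BdE Y (fun j => ∏ i ∈ s, F i j) := by
  classical
  induction s using Finset.induction_on with
  | empty =>
    have h1 := bdE_const (N := N) hY (fun _ => 1) 0 (Eventually.of_forall fun j => by simp)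
    simpa using h1
  | insert a s ha ih =>
    have h1 := bdE_mul hY (h a (Finset.mem_insert_self a s))
      (ih fun i hi => h i (Finset.mem_insert_of_mem hi))
    simpa only [Finset.prod_insert ha] using h1

theorem bdE_pderiv (hY : ∀ j, j + 2 ≤ Y j) (i : Fin N) (h : BdE Y G) :
    BdE Y (fun j => pderiv i (G j)) := by
  rw [bdE_iff hY] at *
  obtain ⟨k, hk⟩ := h
  refine ⟨k + 1, ?_⟩
  filter_upwards [hk, ev_le hY k] with j h1 h2
  obtain ⟨h3, h4⟩ := l1_pderiv h1.1 i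
  refine ⟨h3.trans (Nat.le_succ k), h4.trans ?_⟩
  rw [pow_succ, mul_comm]
  exact mul_le_mul h1.2 h2 (Nat.cast_nonneg k) (pow_nonneg (by have := one_le hY j; linarith) _)

variable {B : Finset (Fin N)} {P : ℕ → Fin N → MvPolynomial (Fin N) ℤ}

theorem bdE_Jac (hY : ∀ j, j + 2 ≤ Y j) (hP : ∀ i, i ∉ B → BdE Y (fun j => P j i)) :
    BdE Y (fun j => Jac B (P j)) := by
  unfold Jac
  exact bdE_prod hY Bᶜ (fun i j => pderiv i (P j i)) fun i hi =>
    bdE_pderiv hY i (hP i (Finset.mem_compl.1 hi))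

theorem bdE_vf (hY : ∀ j, j + 2 ≤ Y j) (hP : ∀ i, i ∉ B → BdE Y (fun j => P j i))
    (b i : Fin N) : BdE Y (fun j => vf B (P j) b i) := by
  unfold vf
  by_cases hi : i ∈ B
  · simp only [if_pos hi]
    by_cases hb : i = b
    · simp only [if_pos hb]
      exact bdE_Jac hY hP
    · simp only [if_neg hb]
      simpa using bdE_const (N := N) hY (fun _ => 0) 0 (Eventually.of_forall fun j => by simp)
  · simp only [if_neg hi]
    exact bdE_mul hY (bdE_neg (bdE_pderiv hY b (hP i hi)))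
      (bdE_prod hY (Bᶜ.erase i) (fun i' j => pderiv i' (P j i')) fun i' hi' =>
        bdE_pderiv hY i' (hP i' (Finset.mem_compl.1 (Finset.mem_of_mem_erase hi'))))

theorem bdE_Dd (hY : ∀ j, j + 2 ≤ Y j) (hP : ∀ i, i ∉ B → BdE Y (fun j => P j i))
    (b : Fin N) (h : BdE Y G) : BdE Y (fun j => Dd B (P j) b (G j)) := by
  unfold Dd
  exact bdE_sum hY Finset.univ (fun i j => vf B (P j) b i * pderiv i (G j)) fun i _ =>
    bdE_mul hY (bdE_vf hY hP b i) (bdE_pderiv hY i h)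

theorem bdE_Ld (hY : ∀ j, j + 2 ≤ Y j) (hP : ∀ i, i ∉ B → BdE Y (fun j => P j i))
    (b : Fin N) (e : ℕ → Fin N → ℕ) (he : ∀ᶠ j in UU, ∀ i, e j i ≤ Y j) :
    BdE Y (fun j => Ld B (P j) b (e j)) := by
  unfold Ld
  refine bdE_sum hY Finset.univ (fun i j => (e j i : MvPolynomial (Fin N) ℤ) * vf B (P j) b i *
    ∏ i' ∈ Finset.univ.erase i, X i') fun i _ => ?_
  refine bdE_mul hY (bdE_mul hY ?_ (bdE_vf hY hP b i))
    (bdE_prod hY (Finset.univ.erase i) (fun i' _ => X i') fun i' _ => bdE_X hY i')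
  have h1 := bdE_const (N := N) hY (fun j => (e j i : ℤ)) 1 (by
    filter_upwards [he] with j hj
    rw [pow_one, Nat.abs_cast]
    exact_mod_cast hj i)
  simpa using h1

theorem bdE_eval (hY : ∀ j, j + 2 ≤ Y j) (h : BdE Y G) :
    ∃ k : ℕ, ∀ᶠ j in UU, ∀ z : Fin N → ℤ, (∀ i, |z i| ≤ Y j) →
      |eval z (G j)| ≤ (Y j : ℤ) ^ k := by
  rw [bdE_iff hY] at h
  obtain ⟨k, hk⟩ := h
  refine ⟨k + k, ?_⟩
  filter_upwards [hk] with j hj z hz
  have h1 := one_le hY j
  have h0 : (0 : ℤ) ≤ Y j := by linarith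
  have h2 : |eval z (G j)| ≤ l1 (G j) * (Y j : ℤ) ^ k := by
    rw [eval_eq']
    unfold l1
    rw [Finset.sum_mul]
    refine (Finset.abs_sum_le_sum_abs _ _).trans (Finset.sum_le_sum fun m hm => ?_)
    rw [abs_mul]
    refine mul_le_mul_of_nonneg_left ?_ (abs_nonneg _)
    rw [Finset.abs_prod]
    calc ∏ i, |z i ^ m i| ≤ ∏ i, (Y j : ℤ) ^ m i := by
          refine Finset.prod_le_prod (fun i _ => abs_nonneg _) fun i _ => ?_
          rw [abs_pow]
          exact pow_le_pow_left₀ (abs_nonneg _) (hz i) _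
      _ = (Y j : ℤ) ^ ∑ i, m i := Finset.prod_pow_eq_pow_sum _ _ _
      _ ≤ (Y j : ℤ) ^ k := pow_le_pow_right₀ h1 (exp_le hj.1 hm)
  rw [pow_add]
  exact h2.trans (mul_le_mul_of_nonneg_right hj.2 (pow_nonneg h0 _))

end Pool.Agent.Lib.FewX
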