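import Mathlib

/-!
# FewX.ChartAlg: coordinates and equations for an ideal  (1 h)

`I` an ideal of `K[X_1, .., X_N]`, `K` a field of characteristic `0`, `1 ∉ I`. `B` = a maximal set of variables such that `I` contains no nonzero polynomial in
the variables of `B` (`∅` has this property: nonzero constants are units). For `i ∉ B` the set `insert i B` has not the property; among the nonzero
elements of `I` with variables in `insert i B` take `P` of minimal total degree (or minimal `degreeOf i`). If `pderiv i P ∈ I`: it has smaller total degree and its variables are in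
`insert i B`, so it is `0`, so (characteristic `0`) `i ∉ P.vars`, `P.vars ⊆ B`, `P = 0`: contradiction.
-/

open MvPolynomial

namespace Pool.Agent.Lib.FewX

namespace ChartAlgAux

variable {N : ℕ} {K : Type*} [Field K] [CharZero K]

omit [CharZero K] in
theorem supp_pderiv {i : Fin N} {P : MvPolynomial (Fin N) K} {m : Fin N →₀ ℕ}
    (h : m ∈ (pderiv i P).support) : m + Finsupp.single i 1 ∈ P.support := by
  rw [mem_support_iff, coeff_pderiv] at h
  rw [mem_support_iff]
  exact left_ne_zero_of_mul h

omit [CharZero K] in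
theorem vars_pderiv_sub {i : Fin N} {P : MvPolynomial (Fin N) K} :
    (pderiv i P).vars ⊆ P.vars := by
  intro j hj
  rw [mem_vars_iff_mem_support] at hj ⊢
  obtain ⟨m, hm, hjm⟩ := hj
  refine ⟨m + Finsupp.single i 1, supp_pderiv hm, ?_⟩
  rw [Finsupp.mem_support_iff] at hjm ⊢
  rw [Finsupp.add_apply]
  omega

omit [CharZero K] in
theorem degreeOf_pderiv_lt {i : Fin N} {P : MvPolynomial (Fin N) K} (h : pderiv i P ≠ 0) :
    degreeOf i (pderiv i P) < degreeOf i P := by
  have hb : ∀ m ∈ (pderiv i P).support, m i + 1 ≤ degreeOf i P := by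
    intro m hm
    have h1 := monomial_le_degreeOf i (supp_pderiv hm)
    rw [Finsupp.add_apply, Finsupp.single_eq_same] at h1
    exact h1
  obtain ⟨m, hm⟩ := Finset.nonempty_of_ne_empty fun h0 : (pderiv i P).support = ∅ =>
    h (support_eq_empty.1 h0)
  have hpos : 0 < degreeOf i P := by
    have := hb m hm
    omega
  rw [degreeOf_lt_iff hpos]
  intro m hm
  exact hb m hm

theorem not_mem_of_pderiv {i : Fin N} {P : MvPolynomial (Fin N) K} (h : pderiv i P = 0) :
    i ∉ P.vars := by
  intro hi
  rw [mem_vars_iff_mem_support] at hi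
  obtain ⟨m, hm, him⟩ := hi
  rw [Finsupp.mem_support_iff] at him
  have h1 : coeff (m - Finsupp.single i 1) (pderiv i P) = 0 := by rw [h, coeff_zero]
  have h2 : m - Finsupp.single i 1 + Finsupp.single i 1 = m := by
    ext j
    by_cases hj : i = j
    · subst hj
      simp only [Finsupp.add_apply, Finsupp.tsub_apply, Finsupp.single_eq_same]
      omega
    · simp [Finsupp.single_eq_of_ne' hj]
  rw [coeff_pderiv, h2] at h1
  rw [mem_support_iff] at hm
  rcases mul_eq_zero.1 h1 with h3 | h3
  · exact hm h3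
  · have h4 : ((((m - Finsupp.single i 1 : Fin N →₀ ℕ) i : ℕ) : K) + 1) ≠ 0 := by
      exact Nat.cast_add_one_ne_zero _
    exact h4 h3

end ChartAlgAux

open ChartAlgAux

theorem chart_alg {N : ℕ} {K : Type*} [Field K] [CharZero K]
    (I : Ideal (MvPolynomial (Fin N) K)) (h1 : (1 : MvPolynomial (Fin N) K) ∉ I) :
    ∃ B : Finset (Fin N), (∀ Q ∈ I, Q.vars ⊆ B → Q = 0) ∧
      ∀ i, i ∉ B → ∃ P ∈ I, P.vars ⊆ insert i B ∧ pderiv i P ∉ I := by
  classical
  set good : Finset (Fin N) → Prop := fun B => ∀ Q ∈ I, Q.vars ⊆ B → Q = 0 with hgood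
  have h0 : good ∅ := by
    intro Q hQ hv
    by_contra hne
    have hv' : Q.vars = ∅ := Finset.subset_empty.1 hv
    obtain ⟨c, hc⟩ : ∃ c : K, Q = C c := by
      refine ⟨coeff 0 Q, ?_⟩
      ext m
      rw [coeff_C]
      by_cases hm : 0 = m
      · rw [if_pos hm, hm]
      · rw [if_neg hm]
        by_contra hcm
        obtain ⟨j, hj⟩ : ∃ j, m j ≠ 0 := by
          by_contra hall
          push Not at hall
          exact hm (Finsupp.ext fun j => (hall j).symm)
        have : j ∈ Q.vars := by
          rw [mem_vars_iff_mem_support]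
          exact ⟨m, mem_support_iff.2 hcm, Finsupp.mem_support_iff.2 hj⟩
        rw [hv'] at this
        exact Finset.notMem_empty _ this
    have hc0 : c ≠ 0 := by
      rintro rfl
      exact hne (by rw [hc, C_0])
    apply h1
    have : (1 : MvPolynomial (Fin N) K) = C c⁻¹ * Q := by
      rw [hc, ← C_mul, inv_mul_cancel₀ hc0, C_1]
    rw [this]
    exact I.mul_mem_left _ hQ
  obtain ⟨B, hB, hmax⟩ := Finset.exists_max_image (Finset.univ.filter good) Finset.card
    ⟨∅, Finset.mem_filter.2 ⟨Finset.mem_univ _, h0⟩⟩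
  have hBg : good B := (Finset.mem_filter.1 hB).2
  refine ⟨B, hBg, fun i hi => ?_⟩
  have hng : ¬ good (insert i B) := by
    intro hg
    have := hmax (insert i B) (Finset.mem_filter.2 ⟨Finset.mem_univ _, hg⟩)
    rw [Finset.card_insert_of_notMem hi] at this
    omega
  have hex : ∃ d : ℕ, ∃ Q ∈ I, Q.vars ⊆ insert i B ∧ Q ≠ 0 ∧ degreeOf i Q = d := by
    by_contra hcon
    apply hng
    intro Q hQ hv
    by_contra hne
    exact hcon ⟨_, Q, hQ, hv, hne, rfl⟩
  obtain ⟨P, hPI, hPv, hP0, hPd⟩ := Nat.find_spec hex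
  refine ⟨P, hPI, hPv, fun hder => ?_⟩
  by_cases hz : pderiv i P = 0
  · have hni := not_mem_of_pderiv hz
    have hsub : P.vars ⊆ B := by
      intro j hj
      rcases Finset.mem_insert.1 (hPv hj) with h | h
      · subst h
        exact absurd hj hni
      · exact h
    exact hP0 (hBg P hPI hsub)
  · have hlt := degreeOf_pderiv_lt hz
    rw [hPd] at hlt
    exact Nat.find_min hex hlt ⟨pderiv i P, hder, vars_pderiv_sub.trans hPv, hz, rfl⟩

end Pool.Agent.Lib.FewX
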