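import Pool.Agent.Lib.FewX.RepA

/-!
# FewX.RepC: integral representatives  (1.5 h)

`rep_int`: for each `m ∈ Q.support` the coefficient is the germ of `p m j / q m j` with integers `|p|, |q| ≤ Y j ^ k`, `q ≠ 0` (`mem_Kf`;
finitely many `m`, take the largest `k`; outside the almost sure set put `p = 0`, `q = 1`). `c` = the germ of `∏ m ∈ Q.support, q m j`, which is in
`Kf` and not `0`; `G j = ∑ m ∈ Q.support, monomial m (p m j * ∏ m' ∈ Q.support.erase m, q m' j)`.
`rep_lift`: the monomials of degree `≤ k` are finitely many (for instance the `m` with all `m i ≤ k`); `Q` = the sum over them of `monomial m` of the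
germ of `coeff m (G j)`, which is in `Kf`.
-/

open MvPolynomial Filter

namespace Pool.Agent.Lib.FewX

variable {N : ℕ} {Y : ℕ → ℕ} {hY : ∀ j, j + 2 ≤ Y j}

namespace RepCAux

theorem one_le_pow (hY : ∀ j, j + 2 ≤ Y j) (j k : ℕ) : (1 : ℤ) ≤ (Y j : ℤ) ^ k := by
  have h : (1 : ℤ) ≤ Y j := by
    have := hY j
    exact_mod_cast (by omega : 1 ≤ Y j)
  exact one_le_pow₀ h

theorem coe_prod {ι : Type*} (s : Finset ι) (q : ι → ℕ → ℚ) :
    ((fun j => ∏ m ∈ s, q m j : ℕ → ℚ) : Germ UU ℚ) = ∏ m ∈ s, ((q m : ℕ → ℚ) : Germ UU ℚ) := by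
  classical
  induction s using Finset.induction_on with
  | empty => simp; rfl
  | insert a s ha ih =>
    rw [Finset.prod_insert ha, ← ih, ← Germ.coe_mul]
    congr 1
    funext j
    simp [Finset.prod_insert ha]

theorem choose_pq (hY : ∀ j, j + 2 ≤ Y j) {f : ℕ → ℚ} (hf : PB Y f) :
    ∃ (k : ℕ) (p q : ℕ → ℤ), (∀ j, q j ≠ 0 ∧ |p j| ≤ (Y j : ℤ) ^ k ∧ |q j| ≤ (Y j : ℤ) ^ k) ∧
      ∀ᶠ j in UU, f j = (p j : ℚ) / q j := by
  classical
  obtain ⟨k, hk⟩ := hf
  have h1 : ∀ j, ∃ p q : ℤ, (q ≠ 0 ∧ |p| ≤ (Y j : ℤ) ^ k ∧ |q| ≤ (Y j : ℤ) ^ k) ∧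
      ((∃ p q : ℤ, q ≠ 0 ∧ |p| ≤ (Y j : ℤ) ^ k ∧ |q| ≤ (Y j : ℤ) ^ k ∧ f j = (p : ℚ) / q) →
        f j = (p : ℚ) / q) := by
    intro j
    by_cases h : ∃ p q : ℤ, q ≠ 0 ∧ |p| ≤ (Y j : ℤ) ^ k ∧ |q| ≤ (Y j : ℤ) ^ k ∧
        f j = (p : ℚ) / q
    · obtain ⟨p, q, h1, h2, h3, h4⟩ := h
      exact ⟨p, q, ⟨h1, h2, h3⟩, fun _ => h4⟩
    · refine ⟨0, 1, ⟨one_ne_zero, ?_, ?_⟩, fun h' => absurd h' h⟩
      · have := one_le_pow hY j k
        simp only [abs_zero]
        linarith
      · simpa using one_le_pow hY j k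
  choose p q hpq hpq' using h1
  refine ⟨k, p, q, hpq, ?_⟩
  filter_upwards [hk] with j hj
  exact hpq' j hj

end RepCAux

open RepCAux

theorem rep_int (Q : MvPolynomial (Fin N) (Kf hY)) :
    ∃ (c : Kf hY) (G : ℕ → MvPolynomial (Fin N) ℤ), c ≠ 0 ∧ BdE Y G ∧
      Rep (C c * Q) (fun j => toQ (G j)) := by
  classical
  have h0 : ∀ m : Fin N →₀ ℕ, ∃ (k : ℕ) (p q : ℕ → ℤ),
      (∀ j, q j ≠ 0 ∧ |p j| ≤ (Y j : ℤ) ^ k ∧ |q j| ≤ (Y j : ℤ) ^ k) ∧
      ((coeff m Q : Kf hY) : Germ UU ℚ) = ((fun j => (p j : ℚ) / q j : ℕ → ℚ) : Germ UU ℚ) := by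
    intro m
    obtain ⟨f, hf, hPB⟩ := (mem_Kf hY _).1 (coeff m Q).2
    obtain ⟨k, p, q, h1, h2⟩ := choose_pq hY hPB
    refine ⟨k, p, q, h1, ?_⟩
    rw [hf]
    exact Germ.coe_eq.2 h2
  choose k p q hpq hco using h0
  have hqmem : ∀ m, (((fun j => (q m j : ℚ)) : ℕ → ℚ) : Germ UU ℚ) ∈ Kf hY := by
    intro m
    rw [mem_Kf]
    refine ⟨_, rfl, k m, Eventually.of_forall fun j => ⟨q m j, 1, one_ne_zero, (hpq m j).2.2,
      ?_, by simp⟩⟩
    simpa using one_le_pow hY j (k m)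
  let cq : (Fin N →₀ ℕ) → Kf hY := fun m => ⟨_, hqmem m⟩
  have hcq : ∀ m, cq m ≠ 0 := by
    intro m h
    have h1 : (((fun j => (q m j : ℚ)) : ℕ → ℚ) : Germ UU ℚ) = ((fun _ => (0 : ℚ) : ℕ → ℚ) : Germ UU ℚ) :=
      congrArg Subtype.val h
    have h2 := Germ.coe_eq.1 h1
    obtain ⟨j, hj⟩ := h2.exists
    have hj' : (q m j : ℚ) = 0 := hj
    exact (hpq m j).1 (by exact_mod_cast hj')
  refine ⟨∏ m ∈ Q.support, cq m, fun j => ∑ m ∈ Q.support, monomial m
    (p m j * ∏ m' ∈ Q.support.erase m, q m' j), Finset.prod_ne_zero_iff.2 fun m _ => hcq m, ?_, ?_⟩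
  · have hcoef : ∀ j m, coeff m (∑ m ∈ Q.support, monomial m
        (p m j * ∏ m' ∈ Q.support.erase m, q m' j)) =
        if m ∈ Q.support then p m j * ∏ m' ∈ Q.support.erase m, q m' j else 0 := by
      intro j m
      rw [coeff_sum]
      simp only [coeff_monomial]
      rw [Finset.sum_ite_eq']
    refine ⟨max Q.totalDegree (∑ m ∈ Q.support, k m), Eventually.of_forall fun j => ⟨?_, ?_⟩⟩
    · refine le_trans (Finset.sup_mono (s₂ := Q.support) ?_) (le_max_left _ _)
      intro m hm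
      rw [mem_support_iff, hcoef] at hm
      by_contra h
      rw [if_neg h] at hm
      exact hm rfl
    · intro m
      rw [hcoef]
      have hY1 : (1 : ℤ) ≤ Y j := by simpa using one_le_pow hY j 1
      split_ifs with h
      · rw [abs_mul, Finset.abs_prod]
        calc |p m j| * ∏ m' ∈ Q.support.erase m, |q m' j|
            ≤ (Y j : ℤ) ^ (k m) * ∏ m' ∈ Q.support.erase m, (Y j : ℤ) ^ (k m') := by
              refine mul_le_mul (hpq m j).2.1 (Finset.prod_le_prod (fun _ _ => abs_nonneg _)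
                fun m' _ => (hpq m' j).2.2) (Finset.prod_nonneg fun _ _ => abs_nonneg _)
                (by positivity)
          _ = (Y j : ℤ) ^ (∑ m ∈ Q.support, k m) := by
              rw [Finset.prod_pow_eq_pow_sum, ← pow_add, Finset.add_sum_erase _ _ h]
          _ ≤ _ := pow_le_pow_right₀ hY1 (le_max_right _ _)
      · rw [abs_zero]
        positivity
  · have hcoef : ∀ j m, coeff m (toQ (∑ m ∈ Q.support, monomial m
        (p m j * ∏ m' ∈ Q.support.erase m, q m' j))) =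
        if m ∈ Q.support then (p m j : ℚ) * ∏ m' ∈ Q.support.erase m, (q m' j : ℚ) else 0 := by
      intro j m
      rw [coeff_map, coeff_sum]
      simp only [coeff_monomial]
      rw [Finset.sum_ite_eq']
      split_ifs
      · simp
      · simp
    refine rep_of Q.support ?_ ?_
    · intro m
      rw [coeff_C_mul]
      by_cases h : m ∈ Q.support
      · have h1 : ((∏ m ∈ Q.support, cq m : Kf hY) : Germ UU ℚ) =
            ((fun j => ∏ m ∈ Q.support, (q m j : ℚ) : ℕ → ℚ) : Germ UU ℚ) := by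
          rw [coe_prod Q.support (fun m j => (q m j : ℚ))]
          push_cast
          rfl
        rw [Subfield.coe_mul, h1, hco m, ← Germ.coe_mul]
        refine Germ.coe_eq.2 (Eventually.of_forall fun j => ?_)
        beta_reduce
        rw [hcoef, if_pos h]
        simp only [Pi.mul_apply]
        rw [← Finset.mul_prod_erase _ _ h]
        have hq : (q m j : ℚ) ≠ 0 := by exact_mod_cast (hpq m j).1
        field_simp
      · rw [notMem_support_iff.1 h, mul_zero]
        refine Germ.coe_eq.2 (Eventually.of_forall fun j => ?_)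
        beta_reduce
        rw [hcoef, if_neg h]
    · refine Eventually.of_forall fun j => ?_
      intro m hm
      rw [mem_support_iff, hcoef] at hm
      by_contra h
      rw [if_neg h] at hm
      exact hm rfl

theorem rep_lift (hY : ∀ j, j + 2 ≤ Y j) {G : ℕ → MvPolynomial (Fin N) ℤ} (h : BdE Y G) :
    ∃ Q : MvPolynomial (Fin N) (Kf hY), Rep Q (fun j => toQ (G j)) := by
  classical
  obtain ⟨k, hk⟩ := h
  have hmem : ∀ m : Fin N →₀ ℕ, (((fun j => ((coeff m (G j) : ℤ) : ℚ)) : ℕ → ℚ) : Germ UU ℚ) ∈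
      Kf hY := by
    intro m
    rw [mem_Kf]
    refine ⟨_, rfl, k, ?_⟩
    filter_upwards [hk] with j hj
    refine ⟨coeff m (G j), 1, one_ne_zero, hj.2 m, ?_, by simp⟩
    simpa using one_le_pow hY j k
  let S : Finset (Fin N →₀ ℕ) := Finset.Iic (Finsupp.equivFunOnFinite.symm (fun _ => k))
  have hS : ∀ᶠ j in UU, (toQ (G j)).support ⊆ S := by
    filter_upwards [hk] with j hj
    intro m hm
    have h1 : m ∈ (G j).support := by
      rw [mem_support_iff, coeff_map] at hm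
      rw [mem_support_iff]
      intro h
      rw [h] at hm
      exact hm (map_zero _)
    have h2 := (le_totalDegree h1).trans hj.1
    rw [Finset.mem_Iic]
    intro i
    have h3 : m i ≤ m.sum fun _ e => e := by
      by_cases hi : i ∈ m.support
      · exact Finset.single_le_sum (f := fun i => m i) (fun _ _ => Nat.zero_le _) hi
      · rw [Finsupp.notMem_support_iff.1 hi]
        exact Nat.zero_le _
    exact h3.trans h2
  refine ⟨∑ m ∈ S, monomial m (⟨_, hmem m⟩ : Kf hY), rep_of S ?_ hS⟩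
  intro m
  rw [coeff_sum]
  simp only [coeff_monomial]
  rw [Finset.sum_ite_eq']
  split_ifs with h
  · refine Germ.coe_eq.2 (Eventually.of_forall fun j => ?_)
    beta_reduce
    rw [coeff_map]
    rfl
  · refine Germ.coe_eq.2 ?_
    filter_upwards [hS] with j hj
    have : m ∉ (toQ (G j)).support := fun h' => h (hj h')
    rw [notMem_support_iff] at this
    exact this.symm

end Pool.Agent.Lib.FewX
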