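import Pool.Agent.Lib.FewX.RepA

/-!
# FewX.VIdeal: the ideal of a sequence of sets; maximal ones  (1.2 h)

`VI Z`: the polynomials over `Kf` vanishing on `Z`. Ideal: `rep_zero`, `rep_add`, `rep_mul`, `rep_exists`.
`mem_VI_iff`: by `rep_unique` any representative can be used; `eval` of `toQ G` at an integral point is the cast of the value of `G`.
`exists_max`: `MvPolynomial (Fin N) (Kf hY)` is Noetherian (Hilbert, `Kf hY` is a field), so the set of the ideals `VI Z'`, `Z' ⊆ Z0` large, has a maximal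
element (`set_has_maximal_iff_noetherian` / `WellFoundedGT`); if `Z' ⊆ Z` is large then `VI Z ≤ VI Z'`, so they are equal.
`one_notMem`: a large sequence is almost surely nonempty (`Large.nonempty`).
-/

open MvPolynomial Filter

namespace Pool.Agent.Lib.FewX

variable {N : ℕ} {Y : ℕ → ℕ}

namespace VIdealAux

theorem eval_toQ (z : Fin N → ℤ) (p : MvPolynomial (Fin N) ℤ) :
    eval (fun i => (z i : ℚ)) (toQ p) = ((eval z p : ℤ) : ℚ) := by
  have h := MvPolynomial.map_eval (Int.castRingHom ℚ) z p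
  exact h.symm

end VIdealAux

/-- the polynomials over the field of germs which vanish on `Z` -/
theorem exists_VI (hY : ∀ j, j + 2 ≤ Y j) (Z : ℕ → Finset (Fin N → ℤ)) :
    ∃ I : Ideal (MvPolynomial (Fin N) (Kf hY)), ∀ Q, Q ∈ I ↔
      ∃ G, Rep Q G ∧ ∀ᶠ j in UU, ∀ z ∈ Z j, eval (fun i => (z i : ℚ)) (G j) = 0 := by
  refine ⟨{
    carrier := {Q | ∃ G, Rep Q G ∧ ∀ᶠ j in UU, ∀ z ∈ Z j, eval (fun i => (z i : ℚ)) (G j) = 0}
    zero_mem' := ⟨fun _ => 0, rep_zero, Filter.Eventually.of_forall fun j z _ => map_zero _⟩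
    add_mem' := ?_
    smul_mem' := ?_ }, fun Q => Iff.rfl⟩
  · rintro Q Q' ⟨G, h1, h2⟩ ⟨G', h1', h2'⟩
    refine ⟨fun j => G j + G' j, rep_add h1 h1', ?_⟩
    filter_upwards [h2, h2'] with j hj hj' z hz
    rw [map_add, hj z hz, hj' z hz, add_zero]
  · rintro c Q ⟨G, h1, h2⟩
    obtain ⟨Gc, hc⟩ := rep_exists c
    refine ⟨fun j => Gc j * G j, ?_, ?_⟩
    · rw [smul_eq_mul]
      exact rep_mul hc h1
    · filter_upwards [h2] with j hj z hz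
      rw [map_mul, hj z hz, mul_zero]

/-- the ideal of `Z` -/
noncomputable def VI (hY : ∀ j, j + 2 ≤ Y j) (Z : ℕ → Finset (Fin N → ℤ)) :
    Ideal (MvPolynomial (Fin N) (Kf hY)) := (exists_VI hY Z).choose

theorem mem_VI (hY : ∀ j, j + 2 ≤ Y j) (Z : ℕ → Finset (Fin N → ℤ))
    (Q : MvPolynomial (Fin N) (Kf hY)) : Q ∈ VI hY Z ↔
      ∃ G, Rep Q G ∧ ∀ᶠ j in UU, ∀ z ∈ Z j, eval (fun i => (z i : ℚ)) (G j) = 0 :=
  (exists_VI hY Z).choose_spec Q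

theorem mem_VI_int (hY : ∀ j, j + 2 ≤ Y j) {Z : ℕ → Finset (Fin N → ℤ)}
    {Q : MvPolynomial (Fin N) (Kf hY)} {G : ℕ → MvPolynomial (Fin N) ℤ}
    (h : Rep Q (fun j => toQ (G j))) : Q ∈ VI hY Z ↔ VanOn Z G := by
  rw [mem_VI]
  constructor
  · rintro ⟨G', h1, h2⟩
    filter_upwards [rep_unique h h1, h2] with j hj hj2 z hz
    have h3 := hj2 z hz
    rw [← hj, VIdealAux.eval_toQ] at h3
    exact_mod_cast h3
  · intro hv
    refine ⟨_, h, ?_⟩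
    filter_upwards [hv] with j hj z hz
    rw [VIdealAux.eval_toQ, hj z hz]
    rfl

theorem VI_mono (hY : ∀ j, j + 2 ≤ Y j) {Z Z' : ℕ → Finset (Fin N → ℤ)}
    (h : ∀ j, Z' j ⊆ Z j) : VI hY Z ≤ VI hY Z' := by
  intro Q hQ
  rw [mem_VI] at hQ ⊢
  obtain ⟨G, h1, h2⟩ := hQ
  refine ⟨G, h1, ?_⟩
  filter_upwards [h2] with j hj z hz
  exact hj z (h j hz)

theorem one_notMem (hY : ∀ j, j + 2 ≤ Y j) {Z : ℕ → Finset (Fin N → ℤ)} (h : Large Y Z) :
    (1 : MvPolynomial (Fin N) (Kf hY)) ∉ VI hY Z := by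
  intro h1
  rw [mem_VI] at h1
  obtain ⟨G, h2, h3⟩ := h1
  have h4 : ∀ᶠ j in UU, False := by
    filter_upwards [rep_unique h2 rep_one, h3, h.nonempty hY] with j hj hj3 hj4
    obtain ⟨z, hz⟩ := hj4
    have h5 := hj3 z hz
    rw [hj, map_one] at h5
    exact one_ne_zero h5
  obtain ⟨_, h5⟩ := h4.exists
  exact h5

theorem exists_max (hY : ∀ j, j + 2 ≤ Y j) {Z0 : ℕ → Finset (Fin N → ℤ)} (h : Large Y Z0) :
    ∃ Z : ℕ → Finset (Fin N → ℤ), (∀ j, Z j ⊆ Z0 j) ∧ Large Y Z ∧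
      ∀ Z' : ℕ → Finset (Fin N → ℤ), (∀ j, Z' j ⊆ Z j) → Large Y Z' → VI hY Z' ≤ VI hY Z := by
  have hne : {I : Ideal (MvPolynomial (Fin N) (Kf hY)) | ∃ Z : ℕ → Finset (Fin N → ℤ),
      (∀ j, Z j ⊆ Z0 j) ∧ Large Y Z ∧ I = VI hY Z}.Nonempty :=
    ⟨VI hY Z0, Z0, fun _ => subset_rfl, h, rfl⟩
  obtain ⟨I, ⟨Z, hZ, hL, rfl⟩, hmax⟩ := set_has_maximal_iff_noetherian.2
    (inferInstance : IsNoetherian (MvPolynomial (Fin N) (Kf hY)) (MvPolynomial (Fin N) (Kf hY)))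
    _ hne
  refine ⟨Z, hZ, hL, ?_⟩
  intro Z' hZ' hL'
  by_contra hc
  exact hmax (VI hY Z') ⟨Z', fun j => (hZ' j).trans (hZ j), hL', rfl⟩
    (lt_of_le_not_ge (VI_mono hY hZ') hc)

end Pool.Agent.Lib.FewX
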