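import Pool.Agent.Lib.FewX.RepB
import Pool.Agent.Lib.FewX.RepC
import Pool.Agent.Lib.FewX.VIdeal
import Pool.Agent.Lib.FewX.ChartAlg

/-!
# FewX.ChartU: every large sequence contains a large sequence with a chart  (1.5 h)

`Z` from `exists_max`, `I = VI hY Z`. `chart_alg` (`one_notMem`; `Kf hY` has characteristic `0` as a subfield of the field `Germ UU ℚ`: `1` generates `ℚ`,
or `algebraMap`-injectivity, or the linear order on `Germ`): `B` and `Pi ∈ I`. `rep_int`: `ci ≠ 0` and `P j i` integral bounded representing `C ci * Pi` (for `i ∈ B` put `P j i = 0`). `Pvars`: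
`rep_vars`. `Pvan`: `mem_VI_int`. `Pder`: if `pderiv i (P j i)` vanishes on the large `Z'`, then (`rep_pderiv`, `mem_VI_int`) `pderiv i (C ci * Pi) = C ci * pderiv i Pi ∈ VI Z' ≤ I`, so
`pderiv i Pi ∈ I`. `F`: `I` is generated by finitely many elements (Noetherian; index them by `Fin r`), replaced by integral multiples `C cl * Fl` (`rep_int`, `C cl` is a unit, they still
generate `I`). `indep`: `rep_lift`: `Q ∈ VI Z' ≤ I`, `Q.vars ⊆ B` (`rep_vars_of`), so `Q = 0`, so (`rep_unique`, `rep_zero`) `toQ (G j) = 0`, so `G j = 0` almost surely: contradiction. `gen`: `rep_lift`: `Q ∈ VI Z' ≤ I`, so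
`Q = ∑ A l * F l`; take representatives of the `A l` (`rep_exists`), `rep_mul`, `rep_sum`, `rep_unique`.
-/

open MvPolynomial Filter

namespace Pool.Agent.Lib.FewX

variable {N : ℕ} {Y : ℕ → ℕ}

private theorem toQ_vars (G : MvPolynomial (Fin N) ℤ) : (toQ G).vars = G.vars := by
  ext i
  rw [mem_vars_iff_mem_support, mem_vars_iff_mem_support]
  have h : (toQ G).support = G.support := support_map_of_injective G (RingHom.injective_int _)
  rw [h]

private theorem toQ_eq_zero {G : MvPolynomial (Fin N) ℤ} (h : toQ G = 0) : G = 0 :=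
  map_injective (Int.castRingHom ℚ) (RingHom.injective_int _) (by rw [map_zero]; exact h)

theorem exists_chart (hY : ∀ j, j + 2 ≤ Y j) {Z0 : ℕ → Finset (Fin N → ℤ)} (h : Large Y Z0) :
    ∃ (Z : ℕ → Finset (Fin N → ℤ)) (B : Finset (Fin N))
      (P : ℕ → Fin N → MvPolynomial (Fin N) ℤ) (r : ℕ)
      (F : ℕ → Fin r → MvPolynomial (Fin N) ℤ), (∀ j, Z j ⊆ Z0 j) ∧ Chart Y Z B P F := by
  classical
  obtain ⟨Z, hZ0, hL, hmax⟩ := exists_max hY h
  have : CharZero (Kf hY) := inferInstance
  obtain ⟨B, hB1, hB2⟩ := chart_alg (VI hY Z) (one_notMem hY hL)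
  choose P' hP'I hP'v hP'd using hB2
  choose cP GP hcP hGPb hGPr using fun (i : Fin N) (hi : i ∉ B) => rep_int (P' i hi)
  obtain ⟨s, hs⟩ : (VI hY Z).FG := IsNoetherian.noetherian _
  obtain ⟨r, F', hF'⟩ : ∃ (r : ℕ) (F' : Fin r → MvPolynomial (Fin N) (Kf hY)),
      Ideal.span (Set.range F') = VI hY Z := by
    refine ⟨s.card, fun l => (s.equivFin.symm l : MvPolynomial (Fin N) (Kf hY)), ?_⟩
    rw [← hs]
    congr 1
    ext x
    constructor
    · rintro ⟨l, rfl⟩
      exact (s.equivFin.symm l).2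
    · intro hx
      exact ⟨s.equivFin ⟨x, hx⟩, by simp⟩
  choose cF GF hcF hGFb hGFr using fun l : Fin r => rep_int (F' l)
  have hspan : Ideal.span (Set.range fun l => MvPolynomial.C (cF l) * F' l) = VI hY Z := by
    apply le_antisymm
    · rw [Ideal.span_le]
      rintro _ ⟨l, rfl⟩
      rw [← hF']
      exact Ideal.mul_mem_left _ _ (Ideal.subset_span ⟨l, rfl⟩)
    · rw [← hF', Ideal.span_le]
      rintro _ ⟨l, rfl⟩
      have h1 : F' l = MvPolynomial.C (cF l)⁻¹ * (MvPolynomial.C (cF l) * F' l) := by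
        rw [← mul_assoc, ← C_mul, inv_mul_cancel₀ (hcF l), C_1, one_mul]
      rw [h1]
      exact Ideal.mul_mem_left _ _ (Ideal.subset_span ⟨l, rfl⟩)
  have hPeq : ∀ i (hi : i ∉ B), (fun j => (fun (j : ℕ) (i : Fin N) =>
      if h : i ∉ B then GP i h j else 0) j i) = GP i hi := by
    intro i hi
    funext j
    exact dif_pos hi
  refine ⟨Z, B, fun j i => if h : i ∉ B then GP i h j else 0, r, fun j l => GF l j, hZ0,
    hL, ?_, ?_, ?_, ?_, ?_, ?_, ?_, ?_⟩
  · intro G hG hG0 Z' hZ' hv hL'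
    obtain ⟨Q, hQ⟩ := rep_lift hY hG
    have h1 : Q ∈ VI hY Z := hmax Z' hZ' hL' ((mem_VI_int hY hQ).2 hv)
    have h2 : Q.vars ⊆ B := rep_vars_of hQ (by
      filter_upwards [hG0] with j hj
      rw [toQ_vars]
      exact hj.2)
    have h3 := hB1 Q h1 h2
    rw [h3] at hQ
    have h4 := rep_unique hQ rep_zero
    have h5 : ∀ᶠ _j : ℕ in UU, False := by
      filter_upwards [h4, hG0] with j h6 h7
      exact h7.1 (toQ_eq_zero h6)
    exact absurd (Filter.eventually_false_iff_eq_bot.1 h5) (NeBot.ne inferInstance)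
  · intro i hi
    rw [hPeq i hi]
    exact hGPb i hi
  · intro i hi
    have h1 := rep_vars (hGPr i hi)
    filter_upwards [h1] with j hj
    rw [dif_pos hi, ← toQ_vars]
    refine hj.trans ?_
    refine (vars_mul _ _).trans ?_
    rw [vars_C, Finset.empty_union]
    exact hP'v i hi
  · intro i hi
    rw [hPeq i hi]
    exact (mem_VI_int hY (hGPr i hi)).1 (Ideal.mul_mem_left _ _ (hP'I i hi))
  · intro i hi Z' hZ' hv hL'
    have hv' : VanOn Z' (fun j => pderiv i (GP i hi j)) := by
      have := congrFun (hPeq i hi)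
      filter_upwards [hv] with j hj
      rw [← this j]
      exact hj
    have h1 : Rep (pderiv i (MvPolynomial.C (cP i hi) * P' i hi))
        (fun j => toQ (pderiv i (GP i hi j))) := by
      have h2 := rep_pderiv i (hGPr i hi)
      refine rep_congr h2 (Filter.Eventually.of_forall fun j => ?_)
      exact pderiv_map
    have h2 := hmax Z' hZ' hL' ((mem_VI_int hY h1).2 hv')
    apply hP'd i hi
    have h3 : pderiv i (P' i hi) = MvPolynomial.C (cP i hi)⁻¹ *
        pderiv i (MvPolynomial.C (cP i hi) * P' i hi) := by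
      rw [pderiv_C_mul, ← mul_assoc, ← C_mul, inv_mul_cancel₀ (hcP i hi), C_1, one_mul]
    rw [h3]
    exact Ideal.mul_mem_left _ _ h2
  · exact fun l => hGFb l
  · intro l
    refine (mem_VI_int hY (hGFr l)).1 ?_
    rw [← hspan]
    exact Ideal.subset_span ⟨l, rfl⟩
  · intro Q hQ Z' hZ' hL' hv
    obtain ⟨q, hq⟩ := rep_lift hY hQ
    have h1 : q ∈ VI hY Z := hmax Z' hZ' hL' ((mem_VI_int hY hq).2 hv)
    rw [← hspan, Ideal.mem_span_range_iff_exists_fun] at h1
    obtain ⟨a, ha⟩ := h1
    choose A hA using fun l => rep_exists (a l)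
    have h2 := rep_sum Finset.univ (fun l => a l * (MvPolynomial.C (cF l) * F' l))
      (fun l j => A l j * toQ (GF l j)) (fun l _ => rep_mul (hA l) (hGFr l))
    rw [ha] at h2
    have h3 := rep_unique hq h2
    filter_upwards [h3] with j hj
    rw [hj]
    unfold spQ
    exact Ideal.sum_mem _ fun l _ => Ideal.mul_mem_left _ _ (Ideal.subset_span ⟨l, rfl⟩)

end Pool.Agent.Lib.FewX
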