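import Mathlib

/-!
# FewX.Cong1: a ring is a subring modulo a power of an ideal  (1 h)

`R` a commutative ring, `M, V` ideals, `S` a subring with `R = S + M` and `M ≤ (S ∩ M) R + M^2 + V`. Then `R = S + M^k + V` for every `k`.
Proof: by induction on `k`: (*) every `f ∈ M^k` is `s + g` with `s ∈ S`, `s ∈ M^k`, `g ∈ M^(k+1) ⊔ V`. `k = 0`: `h1`. Step: `f ∈ M^(k+1)` is a sum of products `m * g`, `m ∈ M`, `g ∈ M^k`;
`g = s + g'` by (*), `m * g' ∈ M^(k+2) ⊔ V`; `m = ∑ r_l t_l + (M^2) + V` with `t_l ∈ S ∩ M`; `r_l = σ_l + μ_l`, `σ_l ∈ S`, `μ_l ∈ M` (`h1`): `m * s = ∑ σ_l t_l s + (M^(k+2) ⊔ V)` and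
`σ_l t_l s ∈ S ∩ M^(k+1)`. The set of the `f` with the property (*) is closed under addition. Then the theorem by induction on `k` again
(`f = s + g`, `g = g1 + v`, `g1 ∈ M^k`, (*) for `g1`).
-/

namespace Pool.Agent.Lib.FewX

namespace Cong1Aux

variable {R : Type*} [CommRing R]

/-- the property (*) -/
def C (M V : Ideal R) (S : Subring R) (k : ℕ) (f : R) : Prop :=
  ∃ s ∈ S, s ∈ M ^ k ∧ f - s ∈ M ^ (k + 1) ⊔ V

theorem C_add {M V : Ideal R} {S : Subring R} {k : ℕ} {f g : R} (hf : C M V S k f)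
    (hg : C M V S k g) : C M V S k (f + g) := by
  obtain ⟨s, hs, hs1, hs2⟩ := hf
  obtain ⟨t, ht, ht1, ht2⟩ := hg
  refine ⟨s + t, S.add_mem hs ht, Ideal.add_mem _ hs1 ht1, ?_⟩
  have : f + g - (s + t) = (f - s) + (g - t) := by ring
  rw [this]
  exact Ideal.add_mem _ hs2 ht2

theorem C_of_mem {M V : Ideal R} {S : Subring R} {k : ℕ} {f : R} (hf : f ∈ M ^ (k + 1) ⊔ V) :
    C M V S k f :=
  ⟨0, S.zero_mem, Ideal.zero_mem _, by rw [sub_zero]; exact hf⟩

theorem C_smul {M V : Ideal R} {S : Subring R} (h1 : ∀ f : R, ∃ s ∈ S, f - s ∈ M) {k : ℕ}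
    {f : R} (r : R) (hf : C M V S k f) : C M V S k (r * f) := by
  obtain ⟨s, hs, hs1, hs2⟩ := hf
  obtain ⟨t, ht, ht1⟩ := h1 r
  refine ⟨t * s, S.mul_mem ht hs, Ideal.mul_mem_left _ _ hs1, ?_⟩
  have : r * f - t * s = (r - t) * s + r * (f - s) := by ring
  rw [this]
  refine Ideal.add_mem _ ?_ (Ideal.mul_mem_left _ _ hs2)
  apply Ideal.mem_sup_left
  rw [pow_succ']
  exact Ideal.mul_mem_mul ht1 hs1

theorem C_mul {M V : Ideal R} {S : Subring R} (h1 : ∀ f : R, ∃ s ∈ S, f - s ∈ M)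
    {k : ℕ} {s : R} (hs : s ∈ S) (hs1 : s ∈ M ^ k) {m : R}
    (hm : m ∈ Ideal.span ((S : Set R) ∩ M) ⊔ M ^ 2 ⊔ V) : C M V S (k + 1) (m * s) := by
  obtain ⟨ab, hab, v, hv, rfl⟩ := Submodule.mem_sup.1 hm
  obtain ⟨a, ha, b, hb, rfl⟩ := Submodule.mem_sup.1 hab
  have e : (a + b + v) * s = a * s + (b * s + v * s) := by ring
  rw [e]
  apply C_add
  · clear e hab hm
    induction ha using Submodule.span_induction with
    | mem x hx =>
      refine ⟨x * s, S.mul_mem hx.1 hs, ?_, ?_⟩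
      · rw [pow_succ']
        exact Ideal.mul_mem_mul hx.2 hs1
      · rw [sub_self]
        exact Ideal.zero_mem _
    | zero =>
      rw [zero_mul]
      exact C_of_mem (Ideal.zero_mem _)
    | add x y _ _ hx hy =>
      rw [add_mul]
      exact C_add hx hy
    | smul r x _ hx =>
      rw [smul_eq_mul, mul_assoc]
      exact C_smul h1 r hx
  · apply C_of_mem
    apply Ideal.add_mem
    · apply Ideal.mem_sup_left
      have : M ^ (k + 1 + 1) = M ^ 2 * M ^ k := by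
        rw [← pow_add]
        congr 1
        omega
      rw [this]
      exact Ideal.mul_mem_mul hb hs1
    · apply Ideal.mem_sup_right
      exact Ideal.mul_mem_right _ _ hv

theorem star {M V : Ideal R} {S : Subring R} (h1 : ∀ f : R, ∃ s ∈ S, f - s ∈ M)
    (h2 : M ≤ Ideal.span ((S : Set R) ∩ M) ⊔ M ^ 2 ⊔ V) (k : ℕ) :
    ∀ f ∈ M ^ k, C M V S k f := by
  induction k with
  | zero =>
    intro f _
    obtain ⟨s, hs, h⟩ := h1 f
    refine ⟨s, hs, by simp, ?_⟩
    apply Ideal.mem_sup_left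
    simpa using h
  | succ k ih =>
    intro f hf
    rw [pow_succ'] at hf
    refine Submodule.mul_induction_on hf ?_ ?_
    · intro m hm g hg
      obtain ⟨s, hs, hs1, hs2⟩ := ih g hg
      have e : m * g = m * s + m * (g - s) := by ring
      rw [e]
      apply C_add (C_mul h1 hs hs1 (h2 hm))
      apply C_of_mem
      obtain ⟨a, ha, v, hv, hav⟩ := Submodule.mem_sup.1 hs2
      rw [← hav, mul_add]
      apply Ideal.add_mem
      · apply Ideal.mem_sup_left
        rw [pow_succ']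
        exact Ideal.mul_mem_mul hm ha
      · apply Ideal.mem_sup_right
        exact Ideal.mul_mem_left _ _ hv
    · intro x y hx hy
      exact C_add hx hy

end Cong1Aux

theorem cong1 {R : Type*} [CommRing R] (M V : Ideal R) (S : Subring R)
    (h1 : ∀ f : R, ∃ s ∈ S, f - s ∈ M)
    (h2 : M ≤ Ideal.span ((S : Set R) ∩ M) ⊔ M ^ 2 ⊔ V) (k : ℕ) (f : R) :
    ∃ s ∈ S, f - s ∈ M ^ k ⊔ V := by
  induction k with
  | zero =>
    refine ⟨0, S.zero_mem, ?_⟩
    rw [pow_zero, Ideal.one_eq_top, top_sup_eq]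
    trivial
  | succ k ih =>
    obtain ⟨s, hs, h⟩ := ih
    obtain ⟨a, ha, v, hv, hav⟩ := Submodule.mem_sup.1 h
    obtain ⟨t, ht, _, ht2⟩ := Cong1Aux.star h1 h2 k a ha
    refine ⟨s + t, S.add_mem hs ht, ?_⟩
    have e : f - (s + t) = (a - t) + v := by
      have : f - (s + t) = (f - s) - t := by ring
      rw [this, ← hav]
      ring
    rw [e]
    exact Ideal.add_mem _ ht2 (Ideal.mem_sup_right hv)

end Pool.Agent.Lib.FewX
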