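import Pool.Agent.Lib.FewX.Defs
import Pool.Agent.Lib.FewX.Cong1

/-!
# FewX.Cong2: on a residue class every polynomial is a polynomial in the variables of `B.erase b` modulo `ℓ^k`  (2 h)

`R = ℤ[X]`, `V` = the ideal of the polynomials vanishing on `C`, `M = (ℓ, X_i - z0_i : i)`, `S` = the polynomials whose variables are in `B.erase b`
(`MvPolynomial.supported ℤ (B.erase b)`, `mem_supported`). `h1` of `cong1`: `X_i - C (z0 i) ∈ M`, so `G - C (eval z0 G) ∈ M` for all `G` (induction), and constants are in `S`.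
`h2`: Taylor: `G - C (eval z0 G) - ∑ i, C (eval z0 (pderiv i G)) * (X i - C (z0 i)) ∈ M^2` (induction on `G`). Write `u i = X i - C (z0 i)`, `T = span (S ∩ M) ⊔ M^2 ⊔ V`; `u s ∈ T` for
`s ∈ B.erase b`, `C ℓ ∈ T` and `V ≤ T`. For `i ∉ B`: `P i ∈ V`, `eval z0 (P i) = 0`, so `C (∂_b P_i (z0)) u b + C (∂_i P_i (z0)) u i ∈ T` (`hP`, the other derivatives are `0` or belong to
`B.erase b`). `F ∈ V`: `C (∂_b F (z0)) u b + ∑ i ∉ B, C (∂_i F (z0)) u i ∈ T`. Multiply by `Jac (z0) = ∏ ∂_i P_i (z0)` and substitute: `C (eval z0 (Dd B P b F)) * u b ∈ T`. Since `ℓ` does not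
divide this integer, `u b ∈ T` (Bezout: `a Δ + c ℓ = 1`, and `C ℓ * u b ∈ M^2`). `ℓ` does not divide `∂_i P_i (z0)` (it divides `Jac (z0)`), so `u i ∈ T` for `i ∉ B`. So `M ≤ T`.
Conclusion: an element of `M^k ⊔ V` has at `z ∈ C` a value divisible by `ℓ^k` (`u i` has the value `z i - z0 i`).
-/

open MvPolynomial

namespace Pool.Agent.Lib.FewX

namespace Cong2Aux

variable {N : ℕ}

/-- the polynomials whose value at `z0` is divisible by `ℓ` -/
noncomputable def MI (ℓ : ℕ) (z0 : Fin N → ℤ) : Ideal (MvPolynomial (Fin N) ℤ) :=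
  Ideal.comap (eval z0) (Ideal.span {(ℓ : ℤ)})

theorem mem_MI {ℓ : ℕ} {z0 : Fin N → ℤ} {G : MvPolynomial (Fin N) ℤ} :
    G ∈ MI ℓ z0 ↔ (ℓ : ℤ) ∣ eval z0 G := by
  unfold MI
  rw [Ideal.mem_comap, Ideal.mem_span_singleton]

/-- the polynomials vanishing on `C` -/
noncomputable def VI (C : Set (Fin N → ℤ)) : Ideal (MvPolynomial (Fin N) ℤ) where
  carrier := {G | ∀ z ∈ C, eval z G = 0}
  add_mem' := by
    intro a b ha hb z hz
    rw [map_add, ha z hz, hb z hz, add_zero]
  zero_mem' := fun z _ => map_zero _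
  smul_mem' := by
    intro c a ha z hz
    rw [smul_eq_mul, map_mul, ha z hz, mul_zero]

theorem mem_VI {C : Set (Fin N → ℤ)} {G : MvPolynomial (Fin N) ℤ} :
    G ∈ VI C ↔ ∀ z ∈ C, eval z G = 0 := Iff.rfl

theorem u_mem (ℓ : ℕ) (z0 : Fin N → ℤ) (i : Fin N) :
    (X i - C (z0 i) : MvPolynomial (Fin N) ℤ) ∈ MI ℓ z0 := by
  rw [mem_MI]
  simp

theorem const_mem (ℓ : ℕ) (z0 : Fin N → ℤ) (G : MvPolynomial (Fin N) ℤ) :
    G - C (eval z0 G) ∈ MI ℓ z0 := by
  rw [mem_MI]
  simp

theorem taylor (ℓ : ℕ) (z0 : Fin N → ℤ) (G : MvPolynomial (Fin N) ℤ) :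
    G - C (eval z0 G) - ∑ i, C (eval z0 (pderiv i G)) * (X i - C (z0 i)) ∈ MI ℓ z0 ^ 2 := by
  induction G using MvPolynomial.induction_on with
  | C a =>
    have : (C a : MvPolynomial (Fin N) ℤ) - C (eval z0 (C a)) -
        ∑ i, C (eval z0 (pderiv i (C a : MvPolynomial (Fin N) ℤ))) * (X i - C (z0 i)) = 0 := by
      simp
    rw [this]
    exact zero_mem _
  | add p q hp hq =>
    have : (p + q) - C (eval z0 (p + q)) -
        ∑ i, C (eval z0 (pderiv i (p + q))) * (X i - C (z0 i)) =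
        (p - C (eval z0 p) - ∑ i, C (eval z0 (pderiv i p)) * (X i - C (z0 i))) +
        (q - C (eval z0 q) - ∑ i, C (eval z0 (pderiv i q)) * (X i - C (z0 i))) := by
      simp only [map_add, add_mul, Finset.sum_add_distrib]
      ring
    rw [this]
    exact add_mem hp hq
  | mul_X p n hp =>
    have e1 : ∑ i, C (eval z0 (pderiv i (p * X n))) * (X i - C (z0 i)) =
        C (z0 n) * ∑ i, C (eval z0 (pderiv i p)) * (X i - C (z0 i)) +
          C (eval z0 p) * (X n - C (z0 n)) := by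
      have h1 : ∀ i, C (eval z0 (pderiv i (p * X n))) * (X i - C (z0 i)) =
          C (z0 n) * (C (eval z0 (pderiv i p)) * (X i - C (z0 i))) +
            (if i = n then C (eval z0 p) * (X n - C (z0 n)) else 0) := by
        intro i
        rw [pderiv_mul, map_add, map_mul, map_mul, eval_X]
        by_cases h : i = n
        · subst h
          rw [if_pos rfl, pderiv_X_self, map_one, map_add, map_mul, map_mul, map_one]
          ring
        · rw [if_neg h, pderiv_X_of_ne (Ne.symm h), map_zero, mul_zero, add_zero, map_mul]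
          ring
      rw [Finset.sum_congr rfl fun i _ => h1 i, Finset.sum_add_distrib, Finset.mul_sum]
      simp
    have e2 : p * X n - C (eval z0 (p * X n)) -
        ∑ i, C (eval z0 (pderiv i (p * X n))) * (X i - C (z0 i)) =
        (p - C (eval z0 p)) * (X n - C (z0 n)) +
        C (z0 n) * (p - C (eval z0 p) - ∑ i, C (eval z0 (pderiv i p)) * (X i - C (z0 i))) := by
      rw [e1, map_mul, eval_X, map_mul]
      ring
    rw [e2]
    refine add_mem ?_ (Ideal.mul_mem_left _ _ hp)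
    rw [pow_two]
    exact Ideal.mul_mem_mul (const_mem ℓ z0 p) (u_mem ℓ z0 n)

theorem eval_congr {ℓ : ℕ} {z0 z : Fin N → ℤ} (h : ∀ i, (ℓ : ℤ) ∣ z i - z0 i)
    (G : MvPolynomial (Fin N) ℤ) : (ℓ : ℤ) ∣ eval z G - eval z0 G := by
  induction G using MvPolynomial.induction_on with
  | C a => simp
  | add p q hp hq =>
    have : eval z (p + q) - eval z0 (p + q) = (eval z p - eval z0 p) + (eval z q - eval z0 q) := by
      simp only [map_add]; ring
    rw [this]
    exact dvd_add hp hq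
  | mul_X p n hp =>
    have : eval z (p * X n) - eval z0 (p * X n) =
        (eval z p - eval z0 p) * z n + eval z0 p * (z n - z0 n) := by
      simp only [map_mul, eval_X]; ring
    rw [this]
    exact dvd_add (Dvd.dvd.mul_right hp _) (Dvd.dvd.mul_left (h n) _)

/-- Bezout -/
theorem bezout {ℓ : ℕ} (hℓ : ℓ.Prime) {z0 : Fin N → ℤ} {T : Ideal (MvPolynomial (Fin N) ℤ)}
    (hT : MI ℓ z0 ^ 2 ≤ T) {D : ℤ} (hD : ¬ (ℓ : ℤ) ∣ D) {u : MvPolynomial (Fin N) ℤ}
    (hu : u ∈ MI ℓ z0) (h : C D * u ∈ T) : u ∈ T := by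
  have hp : Prime (ℓ : ℤ) := Nat.prime_iff_prime_int.1 hℓ
  have hc : IsCoprime (ℓ : ℤ) D := (Irreducible.coprime_iff_not_dvd hp.irreducible).2 hD
  obtain ⟨a, c, hac⟩ := hc
  have h1 : u = C c * (C D * u) + C a * (C (ℓ : ℤ) * u) := by
    have : (C a * C (ℓ : ℤ) + C c * C D : MvPolynomial (Fin N) ℤ) = 1 := by
      rw [← map_mul, ← map_mul, ← map_add, hac, map_one]
    calc u = (C a * C (ℓ : ℤ) + C c * C D) * u := by rw [this, one_mul]
      _ = _ := by ring
  rw [h1]
  refine add_mem (Ideal.mul_mem_left _ _ h) (Ideal.mul_mem_left _ _ (hT ?_))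
  rw [pow_two]
  refine Ideal.mul_mem_mul ?_ hu
  rw [mem_MI]
  simp

end Cong2Aux

open Cong2Aux

theorem cong2 {N : ℕ} {B : Finset (Fin N)} {b : Fin N} (hb : b ∈ B)
    (P : Fin N → MvPolynomial (Fin N) ℤ) (hP : ∀ i, i ∉ B → (P i).vars ⊆ insert i B)
    (F : MvPolynomial (Fin N) ℤ) (C : Set (Fin N → ℤ)) (ℓ : ℕ) (hℓ : ℓ.Prime) (z0 : Fin N → ℤ)
    (hz0 : z0 ∈ C) (hC : ∀ z ∈ C, ∀ i, (ℓ : ℤ) ∣ z i - z0 i)
    (hPC : ∀ z ∈ C, ∀ i, i ∉ B → eval z (P i) = 0) (hFC : ∀ z ∈ C, eval z F = 0)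
    (hJ : ¬ (ℓ : ℤ) ∣ eval z0 (Jac B P)) (hD : ¬ (ℓ : ℤ) ∣ eval z0 (Dd B P b F)) (k : ℕ)
    (f : MvPolynomial (Fin N) ℤ) :
    ∃ q : MvPolynomial (Fin N) ℤ, q.vars ⊆ B.erase b ∧
      ∀ z ∈ C, (ℓ : ℤ) ^ k ∣ eval z f - eval z q := by
  classical
  set M := MI ℓ z0 with hM
  set V := VI C with hV
  set S : Subring (MvPolynomial (Fin N) ℤ) :=
    (MvPolynomial.supported ℤ (↑(B.erase b) : Set (Fin N))).toSubring with hS
  have memS : ∀ g : MvPolynomial (Fin N) ℤ, g ∈ S ↔ g.vars ⊆ B.erase b := by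
    intro g
    rw [hS]
    show g ∈ MvPolynomial.supported ℤ (↑(B.erase b) : Set (Fin N)) ↔ _
    rw [mem_supported]
    norm_cast
  have hCS : ∀ a : ℤ, (MvPolynomial.C a : MvPolynomial (Fin N) ℤ) ∈ S := by
    intro a
    rw [memS, vars_C]
    exact Finset.empty_subset _
  set T : Ideal (MvPolynomial (Fin N) ℤ) := Ideal.span ((S : Set _) ∩ M) ⊔ M ^ 2 ⊔ V with hTd
  have hT1 : ∀ g, g ∈ S → g ∈ M → g ∈ T := fun g h1 h2 =>
    Ideal.mem_sup_left (Ideal.mem_sup_left (Ideal.subset_span ⟨h1, h2⟩))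
  have hT2 : M ^ 2 ≤ T := le_trans le_sup_right le_sup_left
  have hT3 : V ≤ T := le_sup_right
  have hlT : (MvPolynomial.C (ℓ : ℤ) : MvPolynomial (Fin N) ℤ) ∈ T := by
    refine hT1 _ (hCS _) ?_
    rw [hM, mem_MI]
    simp
  -- the variables
  set u : Fin N → MvPolynomial (Fin N) ℤ := fun i => X i - MvPolynomial.C (z0 i) with hu
  have huM : ∀ i, u i ∈ M := fun i => u_mem ℓ z0 i
  have hus : ∀ s ∈ B.erase b, u s ∈ T := by
    intro s hs
    refine hT1 _ (sub_mem ?_ (hCS _)) (huM s)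
    rw [memS, vars_X]
    intro j hj
    rw [Finset.mem_singleton] at hj
    rw [hj]
    exact hs
  -- Taylor for elements of `V`
  have htay : ∀ G ∈ V, ∑ i, MvPolynomial.C (eval z0 (pderiv i G)) * u i ∈ T := by
    intro G hG
    have h1 := hT2 (taylor ℓ z0 G)
    have h2 : eval z0 G = 0 := hG z0 hz0
    rw [h2, map_zero, sub_zero] at h1
    have h3 : ∑ i, MvPolynomial.C (eval z0 (pderiv i G)) * u i =
        G - (G - ∑ i, MvPolynomial.C (eval z0 (pderiv i G)) * (X i - MvPolynomial.C (z0 i))) := by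
      rw [hu]; ring
    rw [h3]
    exact sub_mem (hT3 hG) h1
  have hPi : ∀ i, i ∉ B → MvPolynomial.C (eval z0 (pderiv b (P i))) * u b +
      MvPolynomial.C (eval z0 (pderiv i (P i))) * u i ∈ T := by
    intro i hi
    have hib : b ≠ i := fun h => hi (h ▸ hb)
    have h1 := htay (P i) (fun z hz => hPC z hz i hi)
    have h2 : ∑ j, MvPolynomial.C (eval z0 (pderiv j (P i))) * u j =
        (∑ j ∈ (Finset.univ.erase b).erase i, MvPolynomial.C (eval z0 (pderiv j (P i))) * u j) +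
        (MvPolynomial.C (eval z0 (pderiv b (P i))) * u b +
          MvPolynomial.C (eval z0 (pderiv i (P i))) * u i) := by
      rw [← Finset.sum_erase_add _ _ (Finset.mem_univ b),
        ← Finset.sum_erase_add _ _ (Finset.mem_erase.2 ⟨Ne.symm hib, Finset.mem_univ i⟩)]
      ring
    have h3 : ∑ j ∈ (Finset.univ.erase b).erase i,
        MvPolynomial.C (eval z0 (pderiv j (P i))) * u j ∈ T := by
      refine sum_mem fun j hj => ?_
      rw [Finset.mem_erase, Finset.mem_erase] at hj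
      by_cases hjB : j ∈ B
      · exact Ideal.mul_mem_left _ _ (hus j (Finset.mem_erase.2 ⟨hj.2.1, hjB⟩))
      · have : pderiv j (P i) = 0 := by
          apply pderiv_eq_zero_of_notMem_vars
          intro h
          rcases Finset.mem_insert.1 (hP i hi h) with h | h
          · exact hj.1 h
          · exact hjB h
        rw [this, map_zero, map_zero, zero_mul]
        exact zero_mem _
    rw [h2] at h1
    have h4 := sub_mem h1 h3
    rwa [add_sub_cancel_left] at h4
  have hF : MvPolynomial.C (eval z0 (pderiv b F)) * u b +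
      ∑ i ∈ Bᶜ, MvPolynomial.C (eval z0 (pderiv i F)) * u i ∈ T := by
    have h1 := htay F hFC
    have h2 : ∑ j, MvPolynomial.C (eval z0 (pderiv j F)) * u j =
        (∑ j ∈ B.erase b, MvPolynomial.C (eval z0 (pderiv j F)) * u j) +
        (MvPolynomial.C (eval z0 (pderiv b F)) * u b +
          ∑ i ∈ Bᶜ, MvPolynomial.C (eval z0 (pderiv i F)) * u i) := by
      rw [← Finset.sum_add_sum_compl B, ← Finset.sum_erase_add _ _ hb]
      ring
    have h3 : ∑ j ∈ B.erase b, MvPolynomial.C (eval z0 (pderiv j F)) * u j ∈ T :=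
      sum_mem fun j hj => Ideal.mul_mem_left _ _ (hus j hj)
    rw [h2] at h1
    have h4 := sub_mem h1 h3
    rwa [add_sub_cancel_left] at h4
  -- the factor in front of `u b`
  have hub : u b ∈ T := by
    refine bezout hℓ hT2 hD (huM b) ?_
    have e1 : eval z0 (Dd B P b F) = eval z0 (Jac B P) * eval z0 (pderiv b F) -
        ∑ i ∈ Bᶜ, eval z0 (pderiv b (P i)) * (∏ i' ∈ Bᶜ.erase i, eval z0 (pderiv i' (P i'))) *
          eval z0 (pderiv i F) := by
      unfold Dd
      rw [map_sum, ← Finset.sum_add_sum_compl B, ← Finset.sum_erase_add _ _ hb]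
      have h1 : ∑ j ∈ B.erase b, eval z0 (vf B P b j * pderiv j F) = 0 := by
        refine Finset.sum_eq_zero fun j hj => ?_
        rw [Finset.mem_erase] at hj
        simp [vf, hj.2, hj.1]
      have h2 : eval z0 (vf B P b b * pderiv b F) = eval z0 (Jac B P) * eval z0 (pderiv b F) := by
        simp [vf, hb]
      have h3 : ∑ i ∈ Bᶜ, eval z0 (vf B P b i * pderiv i F) =
          -∑ i ∈ Bᶜ, eval z0 (pderiv b (P i)) * (∏ i' ∈ Bᶜ.erase i, eval z0 (pderiv i' (P i'))) *
          eval z0 (pderiv i F) := by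
        rw [← Finset.sum_neg_distrib]
        refine Finset.sum_congr rfl fun i hi => ?_
        have hi' : i ∉ B := Finset.mem_compl.1 hi
        simp only [vf, hi', if_false, map_mul, map_neg, map_prod]
        ring
      rw [h1, h2, h3]
      ring
    have e2 : MvPolynomial.C (eval z0 (Dd B P b F)) * u b =
        MvPolynomial.C (eval z0 (Jac B P)) * (MvPolynomial.C (eval z0 (pderiv b F)) * u b +
          ∑ i ∈ Bᶜ, MvPolynomial.C (eval z0 (pderiv i F)) * u i) -
        ∑ i ∈ Bᶜ, MvPolynomial.C (eval z0 (pderiv i F)) *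
          MvPolynomial.C (∏ i' ∈ Bᶜ.erase i, eval z0 (pderiv i' (P i'))) *
          (MvPolynomial.C (eval z0 (pderiv b (P i))) * u b +
            MvPolynomial.C (eval z0 (pderiv i (P i))) * u i) := by
      have hJi : ∀ i ∈ Bᶜ, (MvPolynomial.C (eval z0 (Jac B P)) : MvPolynomial (Fin N) ℤ) =
          MvPolynomial.C (eval z0 (pderiv i (P i))) *
            MvPolynomial.C (∏ i' ∈ Bᶜ.erase i, eval z0 (pderiv i' (P i'))) := by
        intro i hi
        rw [← map_mul]
        congr 1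
        unfold Jac
        rw [map_prod, Finset.mul_prod_erase _ (fun i' => eval z0 (pderiv i' (P i'))) hi]
      rw [e1, map_sub, map_mul, map_sum, mul_add, Finset.mul_sum, sub_mul, Finset.sum_mul,
        add_sub_assoc, ← Finset.sum_sub_distrib, sub_eq_add_neg, ← Finset.sum_neg_distrib,
        mul_assoc]
      congr 1
      refine Finset.sum_congr rfl fun i hi => ?_
      rw [hJi i hi, map_mul, map_mul]
      ring
    rw [e2]
    exact sub_mem (Ideal.mul_mem_left _ _ hF) (sum_mem fun i hi =>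
      Ideal.mul_mem_left _ _ (hPi i (Finset.mem_compl.1 hi)))
  have hui : ∀ i, u i ∈ T := by
    intro i
    by_cases hi : i ∈ B
    · by_cases hib : i = b
      · rw [hib]; exact hub
      · exact hus i (Finset.mem_erase.2 ⟨hib, hi⟩)
    · have h1 : ¬ (ℓ : ℤ) ∣ eval z0 (pderiv i (P i)) := by
        intro h
        apply hJ
        unfold Jac
        rw [map_prod]
        exact h.trans (Finset.dvd_prod_of_mem (fun i' => eval z0 (pderiv i' (P i')))
          (Finset.mem_compl.2 hi))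
      refine bezout hℓ hT2 h1 (huM i) ?_
      have h2 := sub_mem (hPi i hi)
        (Ideal.mul_mem_left T (MvPolynomial.C (eval z0 (pderiv b (P i)))) hub)
      rwa [add_sub_cancel_left] at h2
  have h2 : M ≤ T := by
    intro G hG
    have h1 := hT2 (taylor ℓ z0 G)
    have h3 : ∑ i, MvPolynomial.C (eval z0 (pderiv i G)) * u i ∈ T :=
      sum_mem fun i _ => Ideal.mul_mem_left _ _ (hui i)
    have h4 : (MvPolynomial.C (eval z0 G) : MvPolynomial (Fin N) ℤ) ∈ T := by
      obtain ⟨m, hm⟩ := mem_MI.1 hG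
      rw [hm, map_mul]
      exact Ideal.mul_mem_right _ _ hlT
    have h5 : G = (G - MvPolynomial.C (eval z0 G) -
        ∑ i, MvPolynomial.C (eval z0 (pderiv i G)) * (X i - MvPolynomial.C (z0 i))) +
        ∑ i, MvPolynomial.C (eval z0 (pderiv i G)) * u i + MvPolynomial.C (eval z0 G) := by
      rw [hu]; ring
    rw [h5]
    exact add_mem (add_mem h1 h3) h4
  obtain ⟨q, hq, hfq⟩ := cong1 M V S
    (fun g => ⟨MvPolynomial.C (eval z0 g), hCS _, const_mem ℓ z0 g⟩) h2 k f
  refine ⟨q, (memS q).1 hq, fun z hz => ?_⟩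
  rw [← map_sub]
  obtain ⟨g, hg, v, hv, e⟩ := Submodule.mem_sup.1 hfq
  rw [← e, map_add, hv z hz, add_zero]
  have h6 : M ≤ Ideal.comap (eval z) (Ideal.span {(ℓ : ℤ)}) := by
    intro G hG
    rw [Ideal.mem_comap, Ideal.mem_span_singleton]
    have h7 := eval_congr (hC z hz) G
    have h8 := mem_MI.1 hG
    have h9 := dvd_add h7 h8
    rwa [sub_add_cancel] at h9
  have h7 : M ^ k ≤ Ideal.comap (eval z) (Ideal.span {(ℓ : ℤ)} ^ k) :=
    (Ideal.pow_right_mono h6 k).trans (Ideal.le_comap_pow _ k)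
  have h8 := h7 hg
  rw [Ideal.mem_comap, Ideal.span_singleton_pow, Ideal.mem_span_singleton] at h8
  exact h8

end Pool.Agent.Lib.FewX
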