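import Mathlib

/-!
# FewX.DetDiv: divisibility of the determinant  (1.5 h)

`f l r` is the value at the point `z l` of the `r`-th function, modulo `ℓ^D` a polynomial `q r` in the variables of `S`; all points are congruent modulo `ℓ`. Put `t l s = z l s - z0 s` (divisible by `ℓ`). Expand
`q r` around `z0` (`rename`/`bind₁ (X + C z0)`; the variables stay in `S`): `eval (z l) (q r) = ∑ β, c r β * ∏ s ∈ S, t l s ^ β s`. The terms with some `β s ≥ D` are divisible by `ℓ^D`; the others are indexed by at most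
`D ^ S.card` functions `β`. So `f l r = A l r + ℓ^D * W l r` where all the columns `A · r` are combinations of at most `D ^ S.card` vectors `(∏ s, t l s ^ β s)_l`. Expand `det` in the columns
(`Matrix.detRowAlternating` of the transpose, `MultilinearMap.map_add_univ`): a term with more than `D ^ S.card` columns from `A` is `0` (linearly dependent over `ℚ`; `AlternatingMap.map_linearDependent` or
`Matrix.det_eq_zero_of_...`, or expand further in the `β`'s: two equal columns), the others are divisible by `(ℓ^D)^(card ι - D ^ S.card)`.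
-/

open MvPolynomial

namespace Pool.Agent.Lib.FewX

namespace DetDivAux

private theorem det_low {ι β : Type} [Fintype ι] [DecidableEq ι] [Fintype β] [DecidableEq β]
    (x : ℤ) (P : Matrix ι β ℤ) (C : Matrix β ι ℤ) (W : Matrix ι ι ℤ) :
    x ^ (Fintype.card ι - Fintype.card β) ∣ (P * C + x • W).det := by
  have h0 : (P * C + x • W).det = (Matrix.fromBlocks 1 (-C) P (x • W)).det := by
    rw [Matrix.det_fromBlocks_one₁₁, Matrix.mul_neg, sub_neg_eq_add, add_comm]
  rw [h0, Matrix.det_apply]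
  apply Finset.dvd_sum
  intro σ _
  rw [Units.smul_def, smul_eq_mul]
  apply Dvd.dvd.mul_left
  rw [Fintype.prod_sum_type]
  apply Dvd.dvd.mul_left
  have h1 : ∀ b : ι, x ^ (if (σ (Sum.inr b)).isRight = true then 1 else 0) ∣
      Matrix.fromBlocks 1 (-C) P (x • W) (σ (Sum.inr b)) (Sum.inr b) := by
    intro b
    rcases h : σ (Sum.inr b) with a | a
    · simp
    · rw [Matrix.fromBlocks_apply₂₂, Matrix.smul_apply, smul_eq_mul]
      simp
  refine dvd_trans ?_ (Finset.prod_dvd_prod_of_dvd _ _ fun b _ => h1 b)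
  rw [Finset.prod_pow_eq_pow_sum]
  apply pow_dvd_pow
  rw [← Finset.card_filter]
  have h2 := Finset.card_filter_add_card_filter_not (s := (Finset.univ : Finset ι))
    (fun b => (σ (Sum.inr b)).isRight = true)
  have h3 : (Finset.univ.filter (fun b : ι => ¬ (σ (Sum.inr b)).isRight = true)).card ≤
      Fintype.card β := by
    have h4 : ∀ b : ι, ¬ (σ (Sum.inr b)).isRight = true → ∃ a, σ (Sum.inr b) = Sum.inl a := by
      intro b hb
      rcases h : σ (Sum.inr b) with a | a
      · exact ⟨a, rfl⟩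
      · rw [h] at hb
        simp at hb
    have h5 : (Finset.univ.filter (fun b : ι => ¬ (σ (Sum.inr b)).isRight = true)).image
        (fun b => σ (Sum.inr b)) ⊆ (Finset.univ : Finset β).image Sum.inl := by
      intro y hy
      rw [Finset.mem_image] at hy
      obtain ⟨b, hb, rfl⟩ := hy
      rw [Finset.mem_filter] at hb
      obtain ⟨a, ha⟩ := h4 b hb.2
      rw [ha]
      exact Finset.mem_image_of_mem _ (Finset.mem_univ a)
    have h6 := Finset.card_le_card h5
    have hinj : Function.Injective (fun b : ι => σ (Sum.inr b : β ⊕ ι)) :=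
      σ.injective.comp Sum.inr_injective
    rw [Finset.card_image_of_injective _ hinj] at h6
    exact h6.trans (Finset.card_image_le.trans (by rw [Finset.card_univ]))
  rw [Finset.card_univ] at h2
  omega

private theorem one_var {R : Type} [CommRing R] (φ : ℤ →+* R) (ℓ : ℤ) (D : ℕ)
    (hφ : φ (ℓ ^ D) = 0) (a t : ℤ) (ht : ℓ ∣ t) (m : ℕ) :
    φ ((a + t) ^ m) = ∑ k : Fin D, φ (a ^ (m - (k : ℕ)) * (m.choose k : ℤ) * t ^ (k : ℕ)) := by
  have h1 : (a + t) ^ m = ∑ k ∈ Finset.range (max (m + 1) D),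
      a ^ (m - k) * (m.choose k : ℤ) * t ^ k := by
    rw [add_comm a t, add_pow]
    have h2 : ∑ k ∈ Finset.range (m + 1), t ^ k * a ^ (m - k) * (m.choose k : ℤ) =
        ∑ k ∈ Finset.range (m + 1), a ^ (m - k) * (m.choose k : ℤ) * t ^ k := by
      refine Finset.sum_congr rfl fun k _ => ?_
      ring
    rw [h2]
    apply Finset.sum_subset
    · intro k hk
      rw [Finset.mem_range] at hk ⊢
      exact lt_of_lt_of_le hk (le_max_left _ _)
    · intro k _ hk
      rw [Finset.mem_range, not_lt] at hk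
      rw [Nat.choose_eq_zero_of_lt (by omega)]
      simp
  rw [h1, map_sum, Fin.sum_univ_eq_sum_range (fun k => φ (a ^ (m - k) * (m.choose k : ℤ) * t ^ k)) D]
  symm
  apply Finset.sum_subset
  · intro k hk
    rw [Finset.mem_range] at hk ⊢
    exact lt_of_lt_of_le hk (le_max_right _ _)
  · intro k _ hk
    rw [Finset.mem_range, not_lt] at hk
    obtain ⟨u, hu⟩ : ℓ ^ D ∣ t ^ k := dvd_trans (pow_dvd_pow ℓ hk) (pow_dvd_pow_of_dvd ht k)
    rw [hu, map_mul _ _ (ℓ ^ D * u), map_mul _ (ℓ ^ D) u, hφ, zero_mul, mul_zero]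

private theorem approx {N : ℕ} (S : Finset (Fin N)) {R : Type} [CommRing R] (φ : ℤ →+* R) (ℓ : ℤ)
    (D : ℕ) (hφ : φ (ℓ ^ D) = 0) (z0 : Fin N → ℤ) (q : MvPolynomial (Fin N) ℤ) (hq : q.vars ⊆ S) :
    ∃ c : (S → Fin D) → ℤ, ∀ z : Fin N → ℤ, (∀ i, ℓ ∣ z i - z0 i) →
      φ (eval z q) = ∑ β : S → Fin D, φ (c β * ∏ s : S, (z s - z0 s) ^ ((β s : Fin D) : ℕ)) := by
  refine ⟨fun β => ∑ m ∈ q.support, coeff m q * ∏ s : S,
    (z0 s ^ (m s - ((β s : Fin D) : ℕ)) * ((m s).choose (β s : Fin D) : ℤ)), ?_⟩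
  intro z hz
  rw [MvPolynomial.eval_eq', map_sum]
  have h1 : ∀ m ∈ q.support, φ (coeff m q * ∏ i, z i ^ m i) =
      ∑ β : S → Fin D, φ (coeff m q * (∏ s : S, (z0 s ^ (m s - ((β s : Fin D) : ℕ)) *
        ((m s).choose (β s : Fin D) : ℤ))) * ∏ s : S, (z s - z0 s) ^ ((β s : Fin D) : ℕ)) := by
    intro m hm
    have h2 : ∏ i, z i ^ m i = ∏ s : S, z s ^ m s := by
      rw [Finset.prod_coe_sort S (fun i => z i ^ m i)]
      symm
      apply Finset.prod_subset (Finset.subset_univ S)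
      intro i _ hi
      have h3 : m i = 0 := by
        by_contra h
        apply hi
        apply hq
        rw [MvPolynomial.mem_vars_iff_mem_support]
        exact ⟨m, hm, Finsupp.mem_support_iff.2 h⟩
      rw [h3, pow_zero]
    rw [h2, map_mul, map_prod]
    have h4 : ∀ s : S, φ (z s ^ m s) = ∑ k : Fin D, φ (z0 s ^ (m s - (k : ℕ)) *
        ((m s).choose k : ℤ) * (z s - z0 s) ^ (k : ℕ)) := by
      intro s
      rw [← one_var φ ℓ D hφ (z0 s) (z s - z0 s) (hz s) (m s)]
      congr 2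
      ring
    rw [Finset.prod_congr rfl fun s _ => h4 s, Finset.prod_univ_sum, Finset.mul_sum]
    rw [Fintype.piFinset_univ]
    refine Finset.sum_congr rfl fun β _ => ?_
    rw [← map_prod, ← map_mul, Finset.prod_mul_distrib, ← mul_assoc]
  rw [Finset.sum_congr rfl h1, Finset.sum_comm]
  refine Finset.sum_congr rfl fun β _ => ?_
  rw [← map_sum, Finset.sum_mul]

end DetDivAux

open DetDivAux in
theorem det_div {N : ℕ} (S : Finset (Fin N)) (ℓ : ℕ) (z0 : Fin N → ℤ) {ι : Type} [Fintype ι]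
    [DecidableEq ι] (z : ι → Fin N → ℤ) (hz : ∀ l i, (ℓ : ℤ) ∣ z l i - z0 i) (f : ι → ι → ℤ)
    (D : ℕ) (hf : ∀ r, ∃ q : MvPolynomial (Fin N) ℤ, q.vars ⊆ S ∧
      ∀ l, (ℓ : ℤ) ^ D ∣ f l r - eval (z l) q) :
    (ℓ : ℤ) ^ (D * (Fintype.card ι - D ^ S.card)) ∣ (Matrix.of f).det := by
  classical
  set φ := Ideal.Quotient.mk (Ideal.span {(ℓ : ℤ) ^ D}) with hφd
  have hφ : φ ((ℓ : ℤ) ^ D) = 0 := by
    rw [hφd, Ideal.Quotient.eq_zero_iff_mem]
    exact Ideal.mem_span_singleton_self _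
  have hdvd : ∀ a b : ℤ, φ a = φ b → (ℓ : ℤ) ^ D ∣ a - b := by
    intro a b h
    rw [hφd, Ideal.Quotient.mk_eq_mk_iff_sub_mem, Ideal.mem_span_singleton] at h
    exact h
  have hdvd' : ∀ a b : ℤ, (ℓ : ℤ) ^ D ∣ a - b → φ a = φ b := by
    intro a b h
    rw [hφd, Ideal.Quotient.mk_eq_mk_iff_sub_mem, Ideal.mem_span_singleton]
    exact h
  have h1 : ∀ r, ∃ c : (S → Fin D) → ℤ, ∀ l, φ (f l r) =
      ∑ β : S → Fin D, φ (c β * ∏ s : S, (z l s - z0 s) ^ ((β s : Fin D) : ℕ)) := by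
    intro r
    obtain ⟨q, hq, hfq⟩ := hf r
    obtain ⟨c, hc⟩ := approx S φ ℓ D hφ z0 q hq
    refine ⟨c, fun l => ?_⟩
    rw [hdvd' _ _ (hfq l)]
    exact hc (z l) (hz l)
  choose c hc using h1
  set P : Matrix ι (S → Fin D) ℤ :=
    Matrix.of (fun l β => ∏ s : S, (z l s - z0 s) ^ ((β s : Fin D) : ℕ)) with hP
  set C : Matrix (S → Fin D) ι ℤ := Matrix.of (fun β r => c r β) with hC
  have h2 : ∀ l r, (ℓ : ℤ) ^ D ∣ f l r - (P * C) l r := by
    intro l r
    apply hdvd
    rw [hc r l, Matrix.mul_apply, map_sum]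
    refine Finset.sum_congr rfl fun β _ => ?_
    rw [hP, hC, Matrix.of_apply, Matrix.of_apply, mul_comm]
  choose w hw using h2
  have h3 : Matrix.of f = P * C + ((ℓ : ℤ) ^ D) • (Matrix.of w) := by
    ext l r
    have h4 := hw l r
    rw [Matrix.add_apply, Matrix.smul_apply, Matrix.of_apply, Matrix.of_apply, smul_eq_mul, ← h4]
    ring
  rw [h3, pow_mul]
  have h5 := det_low ((ℓ : ℤ) ^ D) P C (Matrix.of w)
  rw [Fintype.card_fun, Fintype.card_fin, Fintype.card_coe] at h5
  exact h5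

end Pool.Agent.Lib.FewX
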