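import Mathlib

/-!
# FewX.Ker: a small integer relation  (1.5 h)

Functions `f r` (`r : ι`, `ι` finite, not empty) on a set `C`, values at most `H` in absolute value, all determinants of size `card ι` vanish. Then there is a nonzero integer relation with coefficients at most
`(card ι)! * H ^ card ι`. Proof: let `k` be the largest size of a nonvanishing minor: injective `u : Fin k → ι`, `z : Fin k → C` with `det (f (u r) (z l)) ≠ 0` (`k = 0` is allowed: the empty
determinant is `1`). `k < card ι`: an injective `u : Fin (card ι) → ι` is a bijection and the determinant vanishes by `hdet` (reindex). So there is `r0` not in the range of `u`. For every `z0 ∈ C` the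
`(k+1) × (k+1)` determinant with rows `z0, z 0, .., z (k-1)` and columns `r0, u 0, .., u (k-1)` vanishes (maximality of `k`). Expand along the row of `z0` (`Matrix.det_succ_row_zero`): `∑ ± minor * f (column) z0 = 0`, the
minors do not depend on `z0`, the minor belonging to `r0` is `≠ 0`; put `g = ± minor` on these columns, `0` elsewhere. A minor of size `k` is at most `k! H^k ≤ (card ι)! H^(card ι)` (`Matrix.det_le` or the
permutation expansion).
-/

namespace Pool.Agent.Lib.FewX

theorem ker_small {α ι : Type} [Fintype ι] [DecidableEq ι] [Nonempty ι] (C : Set α)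
    (f : ι → α → ℤ) (H : ℤ) (hH : 1 ≤ H) (hf : ∀ z ∈ C, ∀ r, |f r z| ≤ H)
    (hdet : ∀ z : ι → α, (∀ l, z l ∈ C) → (Matrix.of fun l r => f r (z l)).det = 0) :
    ∃ g : ι → ℤ, g ≠ 0 ∧
      (∀ r, |g r| ≤ ((Fintype.card ι).factorial : ℤ) * H ^ Fintype.card ι) ∧
      ∀ z ∈ C, ∑ r, g r * f r z = 0 := by
  classical
  obtain ⟨n, hn⟩ : ∃ n, n = Fintype.card ι := ⟨_, rfl⟩
  obtain ⟨P, hP⟩ : ∃ P : ℕ → Prop, P = fun k => ∃ (u : Fin k → ι) (z : Fin k → α),
      Function.Injective u ∧ (∀ l, z l ∈ C) ∧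
        (Matrix.of fun l r : Fin k => f (u r) (z l)).det ≠ 0 := ⟨_, rfl⟩
  have hP0 : P 0 := by
    rw [hP]
    refine ⟨Fin.elim0, Fin.elim0, fun a => a.elim0, fun l => l.elim0, ?_⟩
    rw [Matrix.det_fin_zero]
    exact one_ne_zero
  have hPn : ¬ P n := by
    rw [hP]
    rintro ⟨u, z, hu, hz, hd⟩
    apply hd
    have hbij : Function.Bijective u := by
      rw [Fintype.bijective_iff_injective_and_card]
      exact ⟨hu, by rw [Fintype.card_fin, hn]⟩
    let e : Fin n ≃ ι := Equiv.ofBijective u hbij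
    have h1 := hdet (z ∘ e.symm) fun l => hz _
    rw [← Matrix.det_submatrix_equiv_self e] at h1
    rw [← h1]
    congr 1
    ext l r
    rw [Matrix.submatrix_apply, Matrix.of_apply, Matrix.of_apply, Function.comp_apply,
      Equiv.symm_apply_apply]
    rfl
  have hex : ∃ m, ¬ P m := ⟨n, hPn⟩
  obtain ⟨m, hm⟩ : ∃ m, m = Nat.find hex := ⟨_, rfl⟩
  have hm1 : ¬ P m := hm ▸ Nat.find_spec hex
  have hm2 : ∀ k < m, P k := fun k hk => by
    by_contra h
    exact Nat.find_min hex (hm ▸ hk) h
  have hmn : m ≤ n := hm ▸ Nat.find_min' hex hPn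
  rcases Nat.eq_zero_or_pos m with hm0 | hmpos
  · rw [hm0] at hm1
    exact absurd hP0 hm1
  obtain ⟨k, rfl⟩ : ∃ k, m = k + 1 := ⟨m - 1, by omega⟩
  have hk := hm2 k (Nat.lt_succ_self k)
  rw [hP] at hk hm1
  obtain ⟨u, z, hu, hz, hd⟩ := hk
  -- a new column
  obtain ⟨r0, hr0⟩ : ∃ r0, r0 ∉ Set.range u := by
    by_contra hcon
    push Not at hcon
    have h1 := Fintype.card_le_of_surjective u hcon
    rw [Fintype.card_fin, ← hn] at h1
    omega
  obtain ⟨u', hu'⟩ : ∃ u' : Fin (k + 1) → ι, u' = Fin.cons r0 u := ⟨_, rfl⟩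
  have hu'inj : Function.Injective u' := by
    rw [hu', Fin.cons_injective_iff]
    exact ⟨hr0, hu⟩
  obtain ⟨c, hc⟩ : ∃ c : Fin (k + 1) → ℤ, c = fun (j : Fin (k + 1)) => (-1) ^ (j : ℕ) *
      (Matrix.of fun l r : Fin k => f (u' (j.succAbove r)) (z l)).det := ⟨_, rfl⟩
  have hsum : ∀ z0 ∈ C, ∑ j, c j * f (u' j) z0 = 0 := by
    intro z0 hz0
    have h1 : (Matrix.of fun l r : Fin (k + 1) =>
        f (u' r) ((Fin.cons z0 z : Fin (k + 1) → α) l)).det = 0 := by
      by_contra hne
      refine hm1 ⟨u', Fin.cons z0 z, hu'inj, fun l => ?_, hne⟩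
      refine Fin.cases ?_ (fun l => ?_) l
      · rw [Fin.cons_zero]
        exact hz0
      · rw [Fin.cons_succ]
        exact hz l
    rw [Matrix.det_succ_row_zero] at h1
    rw [← h1]
    refine Finset.sum_congr rfl fun j _ => ?_
    have h2 : (Matrix.of fun l r : Fin (k + 1) =>
        f (u' r) ((Fin.cons z0 z : Fin (k + 1) → α) l)).submatrix Fin.succ (Fin.succAbove j) =
        Matrix.of fun l r : Fin k => f (u' (j.succAbove r)) (z l) := by
      ext l r
      rw [Matrix.submatrix_apply, Matrix.of_apply, Matrix.of_apply, Fin.cons_succ]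
    rw [h2, hc, Matrix.of_apply, Fin.cons_zero]
    ring
  have hc0 : c 0 ≠ 0 := by
    rw [hc]
    have h2 : (Matrix.of fun l r : Fin k => f (u' ((0 : Fin (k + 1)).succAbove r)) (z l)) =
        Matrix.of fun l r : Fin k => f (u r) (z l) := by
      ext l r
      rw [Matrix.of_apply, Matrix.of_apply, Fin.zero_succAbove, hu', Fin.cons_succ]
    show (-1) ^ ((0 : Fin (k + 1)) : ℕ) * (Matrix.of fun l r : Fin k =>
      f (u' ((0 : Fin (k + 1)).succAbove r)) (z l)).det ≠ 0
    rw [h2, Fin.val_zero, pow_zero, one_mul]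
    exact hd
  have hbound : ∀ j, |c j| ≤ ((Fintype.card ι).factorial : ℤ) * H ^ Fintype.card ι := by
    intro j
    have h1 := Matrix.det_le (abv := (AbsoluteValue.abs : AbsoluteValue ℤ ℤ)) (x := H)
      (A := Matrix.of fun l r : Fin k => f (u' (j.succAbove r)) (z l))
      (fun l r => hf (z l) (hz l) _)
    rw [Fintype.card_fin, nsmul_eq_mul] at h1
    have h2 : |c j| = |(Matrix.of fun l r : Fin k => f (u' (j.succAbove r)) (z l)).det| := by
      rw [hc]
      show |(-1) ^ (j : ℕ) *
        (Matrix.of fun l r : Fin k => f (u' (j.succAbove r)) (z l)).det| = _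
      rw [abs_mul, abs_pow, abs_neg, abs_one, one_pow, one_mul]
    rw [h2]
    refine le_trans h1 ?_
    rw [← hn]
    have h3 : ((k.factorial : ℕ) : ℤ) ≤ (n.factorial : ℤ) := by
      exact_mod_cast Nat.factorial_le (by omega)
    have h4 : H ^ k ≤ H ^ n := pow_le_pow_right₀ hH (by omega)
    exact mul_le_mul h3 h4 (by positivity) (by positivity)
  obtain ⟨g, hg⟩ : ∃ g : ι → ℤ, g = fun r => ∑ j, if u' j = r then c j else 0 := ⟨_, rfl⟩
  have hgu : ∀ j, g (u' j) = c j := by
    intro j
    rw [hg]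
    show (∑ j', if u' j' = u' j then c j' else 0) = c j
    rw [Finset.sum_eq_single j]
    · rw [if_pos rfl]
    · intro j' _ hne
      rw [if_neg fun h => hne (hu'inj h)]
    · intro h
      exact absurd (Finset.mem_univ j) h
  refine ⟨g, ?_, ?_, ?_⟩
  · intro h0
    apply hc0
    rw [← hgu 0, h0]
    rfl
  · intro r
    by_cases hr : ∃ j, u' j = r
    · obtain ⟨j, rfl⟩ := hr
      rw [hgu]
      exact hbound j
    · have h1 : g r = 0 := by
        rw [hg]
        exact Finset.sum_eq_zero fun j _ => if_neg fun h => hr ⟨j, h⟩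
      rw [h1, abs_zero]
      positivity
  · intro z0 hz0
    rw [← hsum z0 hz0]
    have h1 : ∀ r, g r * f r z0 = ∑ j, if u' j = r then c j * f (u' j) z0 else 0 := by
      intro r
      rw [hg]
      show (∑ j, if u' j = r then c j else 0) * f r z0 = _
      rw [Finset.sum_mul]
      refine Finset.sum_congr rfl fun j _ => ?_
      split_ifs with h
      · rw [h]
      · rw [zero_mul]
    rw [Finset.sum_congr rfl fun r _ => h1 r, Finset.sum_comm]
    refine Finset.sum_congr rfl fun j _ => ?_
    rw [Finset.sum_ite_eq Finset.univ (u' j), if_pos (Finset.mem_univ _)]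

end Pool.Agent.Lib.FewX
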