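import Pool.Agent.Lib.FewX.Cong2
import Pool.Agent.Lib.FewX.DetDiv
import Pool.Agent.Lib.FewX.Ker

/-!
# FewX.DM: the determinant method on a residue class  (1.5 h)

`m = B.card ≥ 1`, `d = 2 κ^(m-1)`, `h = d^m`. `ι` = the functions `B → Fin d` (a subtype: `{b // b ∈ B} → Fin d`, `card ι = d^m = h ≥ 1`), `f r z = ∏ b ∈ B, z b ^ r b` = the value of the monomial `X_B^r`, of absolute value at most
`Y^(m (d-1))`. For `z : ι → C`: `cong2` with `k = D = κ d` and `det_div` with `S = B.erase b`, `S.card = m - 1`, `D^(m-1) = κ^(m-1) d^(m-1)`, `2 D^(m-1) = d^m = h`: so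
`ℓ^(D (h - h/2)) ∣ det`, `D (h/2) = κ d (h/2)` (`d` is even, so `h` is even, `h/2 = κ^(m-1) d^(m-1)`); `ℓ^(κ d h / 2) ≥ Y^((m+1) d h)` by `hℓκ`, and `|det| ≤ h! * Y^(m (d-1) h) < Y^((m+1) d h)` because
`h! ≤ Y`, `2 ≤ Y`, `1 ≤ d h`: so `det = 0`. `ker_small` with `H = Y^(m (d-1))`: `g`, and `G = ∑ r, monomial (extension of r by 0) (g r)`: nonzero, variables in `B`, total degree at most `m (d-1)`,
coefficients at most `h! Y^(m (d-1) h) ≤ Y^(m d h + 1)`.
-/

open MvPolynomial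

namespace Pool.Agent.Lib.FewX

namespace DMAux

variable {N : ℕ} (B : Finset (Fin N)) (d : ℕ)

/-- the exponent vector -/
noncomputable def ext (r : {x // x ∈ B} → Fin d) : Fin N →₀ ℕ :=
  Finsupp.equivFunOnFinite.symm (fun i => if h : i ∈ B then (r ⟨i, h⟩ : ℕ) else 0)

theorem ext_apply (r : {x // x ∈ B} → Fin d) (i : Fin N) :
    ext B d r i = if h : i ∈ B then (r ⟨i, h⟩ : ℕ) else 0 := rfl

theorem ext_inj : Function.Injective (ext B d) := by
  intro r s h
  funext x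
  have h1 := DFunLike.congr_fun h x.1
  rw [ext_apply, ext_apply, dif_pos x.2, dif_pos x.2] at h1
  exact Fin.ext h1

/-- the monomial -/
noncomputable def mono (r : {x // x ∈ B} → Fin d) : MvPolynomial (Fin N) ℤ :=
  monomial (ext B d r) 1

/-- its value -/
def val (r : {x // x ∈ B} → Fin d) (z : Fin N → ℤ) : ℤ :=
  ∏ x : {x // x ∈ B}, z x.1 ^ (r x : ℕ)

theorem eval_mono (r : {x // x ∈ B} → Fin d) (z : Fin N → ℤ) :
    eval z (mono B d r) = val B d r z := by
  unfold mono val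
  rw [eval_monomial, one_mul, Finsupp.prod_fintype _ _ (fun i => pow_zero _)]
  have h1 : ∀ i, z i ^ (ext B d r i) = if h : i ∈ B then z i ^ ((r ⟨i, h⟩ : Fin d) : ℕ) else 1 := by
    intro i
    rw [ext_apply]
    split_ifs
    · rfl
    · exact pow_zero _
  simp only [h1]
  rw [← Finset.prod_subset (Finset.subset_univ B) (fun i _ hi => dif_neg hi)]
  rw [← Finset.prod_attach B]
  refine Finset.prod_congr rfl fun x _ => ?_
  rw [dif_pos x.2]

theorem abs_val_le (hd : 1 ≤ d) (r : {x // x ∈ B} → Fin d) (z : Fin N → ℤ) (Y : ℕ) (hY : 1 ≤ Y)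
    (hz : ∀ i, |z i| ≤ Y) : |val B d r z| ≤ (Y : ℤ) ^ (B.card * (d - 1)) := by
  unfold val
  rw [Finset.abs_prod]
  have h1 : ∀ x : {x // x ∈ B}, |z x.1 ^ (r x : ℕ)| ≤ (Y : ℤ) ^ (d - 1) := by
    intro x
    rw [abs_pow]
    calc |z x.1| ^ (r x : ℕ) ≤ (Y : ℤ) ^ (r x : ℕ) := pow_le_pow_left₀ (abs_nonneg _) (hz _) _
      _ ≤ (Y : ℤ) ^ (d - 1) := pow_le_pow_right₀ (by exact_mod_cast hY) (by have := (r x).2; omega)
  calc ∏ x : {x // x ∈ B}, |z x.1 ^ (r x : ℕ)| ≤ ∏ _x : {x // x ∈ B}, (Y : ℤ) ^ (d - 1) :=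
        Finset.prod_le_prod (fun _ _ => abs_nonneg _) (fun x _ => h1 x)
    _ = (Y : ℤ) ^ (B.card * (d - 1)) := by
        rw [Finset.prod_const, Finset.card_univ, Fintype.card_coe, ← pow_mul, mul_comm]

end DMAux

open DMAux

theorem dm {N : ℕ} {B : Finset (Fin N)} {b : Fin N} (hb : b ∈ B)
    (P : Fin N → MvPolynomial (Fin N) ℤ) (hP : ∀ i, i ∉ B → (P i).vars ⊆ insert i B)
    (F : MvPolynomial (Fin N) ℤ) (C : Set (Fin N → ℤ)) (ℓ : ℕ) (hℓ : ℓ.Prime) (z0 : Fin N → ℤ)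
    (hz0 : z0 ∈ C) (hC : ∀ z ∈ C, ∀ i, (ℓ : ℤ) ∣ z i - z0 i)
    (hPC : ∀ z ∈ C, ∀ i, i ∉ B → eval z (P i) = 0) (hFC : ∀ z ∈ C, eval z F = 0)
    (hJ : ¬ (ℓ : ℤ) ∣ eval z0 (Jac B P)) (hD : ¬ (ℓ : ℤ) ∣ eval z0 (Dd B P b F))
    (κ : ℕ) (hκ : 1 ≤ κ) (Y : ℕ) (hY2 : 2 ≤ Y)
    (hY : ((2 * κ ^ (B.card - 1)) ^ B.card).factorial ≤ Y) (hbox : ∀ z ∈ C, ∀ i, |z i| ≤ Y)
    (hℓκ : Y ^ (2 * (B.card + 1)) ≤ ℓ ^ κ) :
    ∃ G : MvPolynomial (Fin N) ℤ, G ≠ 0 ∧ G.vars ⊆ B ∧
      G.totalDegree ≤ B.card * (2 * κ ^ (B.card - 1)) ∧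
      (∀ m, |coeff m G| ≤ (Y : ℤ) ^
        (B.card * (2 * κ ^ (B.card - 1)) * (2 * κ ^ (B.card - 1)) ^ B.card + 1)) ∧
      ∀ z ∈ C, eval z G = 0 := by
  classical
  obtain ⟨m, hm⟩ : ∃ m, m = B.card := ⟨_, rfl⟩
  obtain ⟨d, hd⟩ : ∃ d, d = 2 * κ ^ (m - 1) := ⟨_, rfl⟩
  rw [← hm, ← hd] at hY
  rw [← hm, ← hd]
  rw [← hm] at hℓκ
  have hm1 : 1 ≤ m := by rw [hm]; exact Finset.card_pos.2 ⟨b, hb⟩
  have hκp : 1 ≤ κ ^ (m - 1) := Nat.one_le_pow _ _ hκ
  have hd2 : 2 ≤ d := by omega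
  have hYp : 0 < Y := by omega
  set ι : Type := {x // x ∈ B} → Fin d with hι
  have hcard : Fintype.card ι = d ^ m := by
    show Fintype.card ({x // x ∈ B} → Fin d) = d ^ m
    rw [Fintype.card_fun, Fintype.card_fin, Fintype.card_coe, hm]
  have hne : Nonempty ι := ⟨fun _ => ⟨0, by omega⟩⟩
  have hh1 : 1 ≤ d ^ m := Nat.one_le_pow _ _ (by omega)
  have hhalf : d ^ m = 2 * (κ * d) ^ (m - 1) := by
    obtain ⟨s, hs⟩ : ∃ s, m = s + 1 := ⟨m - 1, by omega⟩
    have e1 : d ^ m = d * d ^ (m - 1) := by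
      rw [hs, Nat.add_sub_cancel, pow_succ, mul_comm]
    rw [e1, mul_pow]
    nth_rw 1 [hd]
    ring
  have hdet : ∀ z : ι → Fin N → ℤ, (∀ l, z l ∈ C) →
      (Matrix.of fun l r => val B d r (z l)).det = 0 := by
    intro z hz
    have h1 := det_div (B.erase b) ℓ z0 z (fun l i => hC _ (hz l) i)
      (fun l r => val B d r (z l)) (κ * d) (by
        intro r
        obtain ⟨q, hq1, hq2⟩ := cong2 hb P hP F C ℓ hℓ z0 hz0 hC hPC hFC hJ hD (κ * d) (mono B d r)
        refine ⟨q, hq1, fun l => ?_⟩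
        have := hq2 (z l) (hz l)
        rwa [eval_mono] at this)
    rw [Finset.card_erase_of_mem hb, ← hm, hcard] at h1
    have hexp : κ * d * (d ^ m - (κ * d) ^ (m - 1)) = κ * (d * (κ * d) ^ (m - 1)) := by
      rw [hhalf]
      have : 2 * (κ * d) ^ (m - 1) - (κ * d) ^ (m - 1) = (κ * d) ^ (m - 1) := by omega
      rw [this]
      ring
    rw [hexp] at h1
    refine Int.eq_zero_of_abs_lt_dvd h1 ?_
    have h2 := Matrix.det_le (A := (Matrix.of fun l r => val B d r (z l) : Matrix ι ι ℤ))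
      (abv := AbsoluteValue.abs) (x := (Y : ℤ) ^ (m * (d - 1))) (fun i j => by
        rw [Matrix.of_apply, AbsoluteValue.abs_apply, hm]
        exact abs_val_le B d (by omega) j (z i) Y (by omega) (hbox _ (hz i)))
    rw [AbsoluteValue.abs_apply, hcard, nsmul_eq_mul] at h2
    refine lt_of_le_of_lt h2 ?_
    have h3 : ((d ^ m).factorial : ℤ) * ((Y : ℤ) ^ (m * (d - 1))) ^ (d ^ m) ≤
        (Y : ℤ) ^ (m * (d - 1) * d ^ m + 1) := by
      rw [← pow_mul, pow_succ, mul_comm ((Y : ℤ) ^ _)]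
      exact mul_le_mul_of_nonneg_right (by exact_mod_cast hY) (by positivity)
    refine lt_of_le_of_lt h3 ?_
    have h4 : m * (d - 1) * d ^ m + 1 < (m + 1) * (d * d ^ m) := by
      have e1 : m * (d - 1) * d ^ m ≤ m * (d * d ^ m) := by
        rw [mul_assoc]
        exact Nat.mul_le_mul_left _ (Nat.mul_le_mul_right _ (by omega))
      have e2 : 2 ≤ d * d ^ m := by nlinarith
      have e3 : (m + 1) * (d * d ^ m) = m * (d * d ^ m) + d * d ^ m := by ring
      omega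
    have h5 : (Y : ℤ) ^ ((m + 1) * (d * d ^ m)) ≤ (ℓ : ℤ) ^ (κ * (d * (κ * d) ^ (m - 1))) := by
      rw [pow_mul (ℓ : ℤ) κ]
      have e1 : (m + 1) * (d * d ^ m) = 2 * (m + 1) * (d * (κ * d) ^ (m - 1)) := by
        rw [hhalf]; ring
      rw [e1, pow_mul]
      exact pow_le_pow_left₀ (by positivity) (by exact_mod_cast hℓκ) _
    refine lt_of_lt_of_le ?_ h5
    exact pow_lt_pow_right₀ (by exact_mod_cast hY2) h4
  obtain ⟨g, hg0, hg1, hg2⟩ := ker_small C (fun r z => val B d r z) ((Y : ℤ) ^ (m * (d - 1)))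
    (one_le_pow₀ (by exact_mod_cast hYp))
    (fun z hz r => by rw [hm]; exact abs_val_le B d (by omega) r z Y (by omega) (hbox z hz)) hdet
  rw [hcard] at hg1
  have hcoef : ∀ m' : Fin N →₀ ℕ, coeff m' (∑ r, MvPolynomial.C (g r) * mono B d r) =
      ∑ r, if ext B d r = m' then g r else 0 := by
    intro m'
    rw [coeff_sum]
    refine Finset.sum_congr rfl fun r _ => ?_
    rw [coeff_C_mul, mono, coeff_monomial]
    split_ifs <;> simp
  refine ⟨∑ r, MvPolynomial.C (g r) * mono B d r, ?_, ?_, ?_, ?_, ?_⟩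
  · intro h
    apply hg0
    funext r
    have h1 := hcoef (ext B d r)
    rw [h, coeff_zero, Finset.sum_eq_single r] at h1
    · rw [if_pos rfl] at h1
      exact h1.symm
    · intro s _ hs
      exact if_neg fun h => hs (ext_inj B d h)
    · intro h
      exact absurd (Finset.mem_univ _) h
  · intro i hi
    rw [mem_vars_iff_mem_support] at hi
    obtain ⟨m', hm', hi'⟩ := hi
    rw [mem_support_iff, hcoef] at hm'
    obtain ⟨r, _, hr⟩ := Finset.exists_ne_zero_of_sum_ne_zero hm'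
    have h1 : ext B d r = m' := by
      by_contra h
      exact hr (if_neg h)
    rw [← h1, Finsupp.mem_support_iff, ext_apply] at hi'
    by_contra h
    exact hi' (dif_neg h)
  · refine Finset.sup_le fun m' hm' => ?_
    rw [mem_support_iff, hcoef] at hm'
    obtain ⟨r, _, hr⟩ := Finset.exists_ne_zero_of_sum_ne_zero hm'
    have h1 : ext B d r = m' := by
      by_contra h
      exact hr (if_neg h)
    rw [← h1, Finsupp.sum_fintype _ _ (fun _ => rfl)]
    calc ∑ i, ext B d r i ≤ ∑ i, (if i ∈ B then d else 0) := by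
          refine Finset.sum_le_sum fun i _ => ?_
          rw [ext_apply]
          split_ifs with h
          · exact (r ⟨i, h⟩).2.le
          · exact le_rfl
      _ = m * d := by
          rw [Finset.sum_ite_mem, Finset.univ_inter, Finset.sum_const, smul_eq_mul, hm]
  · intro m'
    rw [hcoef]
    have hb1 : ∀ r, |g r| ≤ (Y : ℤ) ^ (m * d * d ^ m + 1) := by
      intro r
      refine (hg1 r).trans ?_
      rw [← pow_mul, pow_succ, mul_comm ((Y : ℤ) ^ _)]
      refine mul_le_mul (by exact_mod_cast hY) ?_ (by positivity) (by positivity)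
      refine pow_le_pow_right₀ (by exact_mod_cast hYp) ?_
      exact Nat.mul_le_mul_right _ (Nat.mul_le_mul_left _ (by omega))
    by_cases hex : ∃ r, ext B d r = m'
    · obtain ⟨r, hr⟩ := hex
      rw [Finset.sum_eq_single r, if_pos hr]
      · exact hb1 r
      · intro s _ hs
        exact if_neg fun h => hs (ext_inj B d (h.trans hr.symm))
      · intro h
        exact absurd (Finset.mem_univ _) h
    · rw [Finset.sum_eq_zero]
      · rw [abs_zero]
        positivity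
      · intro s _
        exact if_neg fun h => hex ⟨s, h⟩
  · intro z hz
    rw [map_sum]
    simp only [map_mul, eval_C, eval_mono]
    exact hg2 z hz

end Pool.Agent.Lib.FewX
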