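import Mathlib

/-!
# FewX.PrimeChoice: a prime not dividing many given integers  (1.2 h)

For `L` large there are at least `2 L` primes in `(L, L^3]`: `Nat.primeCounting (L^3) ≥ 3 L` from `Chebyshev.psi_ge` (`ψ n ≥ n log 2 - log (n+1)`) and `Chebyshev.psi_le_primeCounting_mul_log`
(`ψ n ≤ π n * log n`); at most `L` primes are `≤ L`. A nonzero `Δ` with `log |Δ| ≤ L` has at most `L` prime factors `> L` (`≥ 3`): their product divides `Δ`. Count the pairs (prime in `(L, L^3]`, `z ∈ Z`) with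
`ℓ ∣ Δ z`: at most `L * Z.card`; so for one of the `≥ 2 L` primes at most `Z.card / 2` elements.
-/

namespace Pool.Agent.Lib.FewX

namespace PrimeChoiceAux

open Finset

theorem count_primes {L : ℕ} (hL : 20 ≤ L) :
    2 * L ≤ ((Nat.primesLE (L ^ 3)).filter (fun ℓ => L < ℓ)).card := by
  have h1 : (3 * L : ℝ) ≤ Nat.primeCounting (L ^ 3) := by
    by_contra hlt
    rw [not_le] at hlt
    have hLr : (20 : ℝ) ≤ L := by exact_mod_cast hL
    have h2 := Chebyshev.psi_le_primeCounting_mul_log (L ^ 3)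
    have h3 := Chebyshev.psi_ge (L ^ 3)
    have h4 : Real.log ((L ^ 3 : ℕ) : ℝ) ≤ 3 * L := by
      rw [Nat.cast_pow, Real.log_pow]
      have := Real.log_le_sub_one_of_pos (show (0 : ℝ) < L by linarith)
      push_cast
      linarith
    have h5 : Real.log (((L ^ 3 : ℕ) : ℝ) + 1) ≤ 3 * L := by
      have h6 : ((L ^ 3 : ℕ) : ℝ) + 1 ≤ ((L : ℝ) + 1) ^ 3 := by
        push_cast
        nlinarith
      have h7 : Real.log (((L ^ 3 : ℕ) : ℝ) + 1) ≤ Real.log (((L : ℝ) + 1) ^ 3) :=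
        Real.log_le_log (by positivity) h6
      rw [Real.log_pow] at h7
      have := Real.log_le_sub_one_of_pos (show (0 : ℝ) < (L : ℝ) + 1 by linarith)
      have h77 : ((3 : ℕ) : ℝ) = 3 := by norm_num
      rw [h77] at h7
      linarith
    have h8 : 0 ≤ Real.log ((L ^ 3 : ℕ) : ℝ) := Real.log_natCast_nonneg _
    have h9 : (Nat.primeCounting (L ^ 3) : ℝ) * Real.log ((L ^ 3 : ℕ) : ℝ) ≤ 3 * L * (3 * L) := by
      apply mul_le_mul hlt.le h4 h8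
      positivity
    have h10 := Real.log_two_gt_d9
    have h11 : ((L ^ 3 : ℕ) : ℝ) = (L : ℝ) ^ 3 := by push_cast; ring
    rw [h11] at h2 h3 h5 h9
    have h12 : (L : ℝ) ^ 3 * 0.69 ≤ (L : ℝ) ^ 3 * Real.log 2 := by
      apply mul_le_mul_of_nonneg_left _ (by positivity)
      linarith
    have h13 : 20 * (L : ℝ) ^ 2 ≤ (L : ℝ) ^ 3 := by nlinarith [sq_nonneg (L : ℝ)]
    nlinarith
  have h2 : 3 * L ≤ Nat.primeCounting (L ^ 3) := by exact_mod_cast h1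
  rw [← Nat.primesLE_card_eq_primeCounting] at h2
  have h3 := Finset.card_filter_add_card_filter_not (s := Nat.primesLE (L ^ 3)) (fun ℓ => L < ℓ)
  have h4 : ((Nat.primesLE (L ^ 3)).filter (fun ℓ => ¬ L < ℓ)).card ≤ L := by
    calc _ ≤ (Finset.Icc 1 L).card := by
          apply Finset.card_le_card
          intro ℓ hℓ
          rw [Finset.mem_filter, Nat.mem_primesLE] at hℓ
          rw [Finset.mem_Icc]
          exact ⟨hℓ.1.2.one_lt.le, by omega⟩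
      _ = L := by simp
  omega

theorem few_divisors {L : ℕ} (hL : 20 ≤ L) {a : ℤ} (h0 : a ≠ 0)
    (ha : ((|a| : ℤ) : ℝ) ≤ Real.exp L) :
    (((Nat.primesLE (L ^ 3)).filter (fun ℓ => L < ℓ)).filter (fun ℓ : ℕ => (ℓ : ℤ) ∣ a)).card ≤ L := by
  obtain ⟨D, hD⟩ : ∃ D, D = ((Nat.primesLE (L ^ 3)).filter (fun ℓ => L < ℓ)).filter
    (fun ℓ : ℕ => (ℓ : ℤ) ∣ a) := ⟨_, rfl⟩
  rw [← hD]
  have hmem : ∀ ℓ ∈ D, ℓ.Prime ∧ L < ℓ ∧ (ℓ : ℤ) ∣ a := by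
    intro ℓ hℓ
    rw [hD, Finset.mem_filter, Finset.mem_filter, Nat.mem_primesLE] at hℓ
    exact ⟨hℓ.1.1.2, hℓ.1.2, hℓ.2⟩
  have h1 : ∏ ℓ ∈ D, ℓ ∣ a.natAbs := by
    apply Finset.prod_primes_dvd
    · intro ℓ hℓ
      exact (hmem ℓ hℓ).1.prime
    · intro ℓ hℓ
      exact Int.natCast_dvd.1 (hmem ℓ hℓ).2.2
  have h2 : ∏ ℓ ∈ D, ℓ ≤ a.natAbs := Nat.le_of_dvd (Int.natAbs_pos.2 h0) h1
  have h3 : 3 ^ D.card ≤ ∏ ℓ ∈ D, ℓ := by
    rw [← Finset.prod_const]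
    apply Finset.prod_le_prod'
    intro ℓ hℓ
    have := (hmem ℓ hℓ).2.1
    omega
  have h4 : ((3 : ℝ)) ^ D.card ≤ Real.exp L := by
    have h5 : ((3 ^ D.card : ℕ) : ℝ) ≤ (a.natAbs : ℝ) := by exact_mod_cast h3.trans h2
    have h6 : (a.natAbs : ℝ) = ((|a| : ℤ) : ℝ) := by
      rw [Int.abs_eq_natAbs]
      simp
    rw [h6] at h5
    push_cast at h5 ⊢
    exact h5.trans (by exact_mod_cast ha)
  have h7 : Real.exp (L : ℝ) ≤ (3 : ℝ) ^ L := by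
    rw [← Real.exp_one_pow]
    apply pow_le_pow_left₀ (Real.exp_pos 1).le
    have := Real.exp_one_lt_d9
    linarith
  exact (pow_le_pow_iff_right₀ (by norm_num : (1 : ℝ) < 3)).1 (h4.trans h7)

end PrimeChoiceAux

open PrimeChoiceAux in
theorem prime_choice : ∃ L0 : ℕ, ∀ L : ℕ, L0 ≤ L → ∀ (α : Type) (Z : Finset α) (Δ : α → ℤ),
    (∀ z ∈ Z, Δ z ≠ 0 ∧ ((|Δ z| : ℤ) : ℝ) ≤ Real.exp L) →
    ∃ ℓ : ℕ, ℓ.Prime ∧ L < ℓ ∧ ℓ ≤ L ^ 3 ∧
      Z.card ≤ 2 * (Z.filter fun z => ¬ (ℓ : ℤ) ∣ Δ z).card := by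
  refine ⟨20, fun L hL α Z Δ hΔ => ?_⟩
  obtain ⟨S, hS⟩ : ∃ S, S = (Nat.primesLE (L ^ 3)).filter (fun ℓ => L < ℓ) := ⟨_, rfl⟩
  have hc := count_primes hL
  rw [← hS] at hc
  have hd : ∀ z ∈ Z, (S.filter (fun ℓ : ℕ => (ℓ : ℤ) ∣ Δ z)).card ≤ L := by
    intro z hz
    rw [hS]
    exact few_divisors hL (hΔ z hz).1 (hΔ z hz).2
  have hsum : ∑ ℓ ∈ S, (Z.filter fun z => (ℓ : ℤ) ∣ Δ z).card =
      ∑ z ∈ Z, (S.filter (fun ℓ : ℕ => (ℓ : ℤ) ∣ Δ z)).card := by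
    simp only [Finset.card_filter]
    exact Finset.sum_comm
  have hle : ∑ ℓ ∈ S, (Z.filter fun z => (ℓ : ℤ) ∣ Δ z).card ≤ Z.card * L := by
    rw [hsum]
    exact Finset.sum_le_card_nsmul Z _ L hd
  have hex : ∃ ℓ ∈ S, 2 * (Z.filter fun z => (ℓ : ℤ) ∣ Δ z).card ≤ Z.card := by
    by_contra hno
    push Not at hno
    have h1 : S.card * (Z.card + 1) ≤ ∑ ℓ ∈ S, 2 * (Z.filter fun z => (ℓ : ℤ) ∣ Δ z).card :=
      Finset.card_nsmul_le_sum S _ (Z.card + 1) (fun ℓ hℓ => hno ℓ hℓ)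
    rw [← Finset.mul_sum] at h1
    have h2 : 2 * L * (Z.card + 1) ≤ S.card * (Z.card + 1) := Nat.mul_le_mul_right _ hc
    nlinarith
  obtain ⟨ℓ, hℓ, hℓ2⟩ := hex
  rw [hS, Finset.mem_filter, Nat.mem_primesLE] at hℓ
  refine ⟨ℓ, hℓ.1.2, hℓ.2, hℓ.1.1, ?_⟩
  have h3 := Finset.card_filter_add_card_filter_not (s := Z) (fun z => (ℓ : ℤ) ∣ Δ z)
  omega

/-- A residue class modulo `ℓ` with many points. -/
theorem exists_class {N : ℕ} (Z : Finset (Fin N → ℤ)) (ℓ : ℕ) (hℓ : 0 < ℓ) :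
    ∃ C ⊆ Z, (∀ z ∈ C, ∀ z' ∈ C, ∀ i, (ℓ : ℤ) ∣ z i - z' i) ∧ Z.card ≤ ℓ ^ N * C.card := by
  classical
  have : NeZero ℓ := ⟨hℓ.ne'⟩
  obtain ⟨c, _, hc⟩ := Finset.exists_max_image (Finset.univ : Finset (Fin N → ZMod ℓ))
    (fun c => (Z.filter (fun z => (fun i => (z i : ZMod ℓ)) = c)).card) ⟨0, Finset.mem_univ _⟩
  refine ⟨Z.filter (fun z => (fun i => (z i : ZMod ℓ)) = c), Finset.filter_subset _ _, ?_, ?_⟩
  · intro z hz z' hz' i
    rw [Finset.mem_filter] at hz hz'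
    have h1 : ((z' i : ℤ) : ZMod ℓ) = ((z i : ℤ) : ZMod ℓ) := by
      have h2 := congrFun (hz'.2.trans hz.2.symm) i
      exact h2
    exact (ZMod.intCast_eq_intCast_iff_dvd_sub _ _ _).1 h1
  · have h1 := Finset.card_eq_sum_card_fiberwise (s := Z) (t := Finset.univ)
      (f := fun z => (fun i => (z i : ZMod ℓ))) (fun z _ => Finset.mem_coe.2 (Finset.mem_univ _))
    rw [h1]
    calc _ ≤ ∑ _c : Fin N → ZMod ℓ, (Z.filter (fun z => (fun i => (z i : ZMod ℓ)) = c)).card :=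
          Finset.sum_le_sum (fun d _ => hc d (Finset.mem_univ _))
      _ = _ := by
          rw [Finset.sum_const, Finset.card_univ, Fintype.card_fun, ZMod.card, Fintype.card_fin,
            smul_eq_mul]

end Pool.Agent.Lib.FewX
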