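import Pool.Agent.Lib.FewX.BdAlg
import Pool.Agent.Lib.FewX.DM
import Pool.Agent.Lib.FewX.PrimeChoice

/-!
# FewX.DMU: the determinant method on a chart  (2 h)

`class_choice`: `Z'` large, `Δ j z ≠ 0` on `Z' j`, `|Δ j z| ≤ exp (Y^ε)` for every `ε`. Take `η ≤ 1` with `Y^η ≤ card`, `c = η / (8 (N + 1))`, `L j = ⌈Y^c⌉₊` (`→ ∞`, `Y^(c/2) ≤ L`), so `|Δ| ≤ exp L` (use `ε = c/2`) for almost all `j`; `prime_choice`, then `exists_class` for the half with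
`¬ ℓ ∣ Δ`: `card (Z' j) ≤ 2 ℓ^N card (C j)`, `ℓ ≤ L^3 ≤ (2 Y^c)^3`, so `card (Z' j) ≤ Y^(η/2) card (C j)` and `C` is large (`large_div`). `ℓ > L ≥ Y^c`, so `Y^n ≤ ℓ^κ` for `κ ≥ n / c`. For the exceptional `j` take anything (`C j = ∅`, `ℓ j = 2`).
`class_few` (same choice of `ℓ`): if each class modulo `ℓ` of points of `Z' j` with `¬ ℓ ∣ Δ` has at most one element, `Z'` is not large: `card (Z' j) ≤ 2 ℓ^N`.
`dmu`: suppose `Z'` large. Remove the zeros of `pderiv i (P j i)`, `i ∉ B` (not large by `Pder`; finitely many `i`; `Large.filter_not`): `Z''` large with `eval z (Jac B (P j)) ≠ 0`. `Δ j z = eval z (Jac ..) * eval z (Dd .. (E j))`, bounded by `bdE_Jac`, `bdE_eval` and `hs` (`Y^k ≤ exp (Y^ε / 2)`).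
`class_choice` with `n = 2 (B.card + 1)`: `dm` for `C j` gives `G j ≠ 0` (`0`, or anything, for the exceptional `j`) with `Bd Y k' G`, `k'` depending on `κ` and `B.card` only, variables in `B`, vanishing on `C j`: contradiction to `ch.indep`.
-/

open MvPolynomial Filter

namespace Pool.Agent.Lib.FewX

variable {N : ℕ} {Y : ℕ → ℕ}

theorem class_choice (hY : ∀ j, j + 2 ≤ Y j) {Z' : ℕ → Finset (Fin N → ℤ)} (h : Large Y Z')
    (Δ : ℕ → (Fin N → ℤ) → ℤ) (h0 : ∀ᶠ j in UU, ∀ z ∈ Z' j, Δ j z ≠ 0)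
    (hs : ∀ ε : ℝ, 0 < ε → ∀ᶠ j in UU, ∀ z ∈ Z' j,
      ((|Δ j z| : ℤ) : ℝ) ≤ Real.exp ((Y j : ℝ) ^ ε)) (n : ℕ) :
    ∃ (κ : ℕ) (ℓ : ℕ → ℕ) (C : ℕ → Finset (Fin N → ℤ)), 1 ≤ κ ∧ (∀ j, C j ⊆ Z' j) ∧ Large Y C ∧
      ∀ᶠ j in UU, (ℓ j).Prime ∧ Y j ^ n ≤ ℓ j ^ κ ∧
        (∀ z ∈ C j, ∀ z' ∈ C j, ∀ i, (ℓ j : ℤ) ∣ z i - z' i) ∧ ∀ z ∈ C j, ¬ (ℓ j : ℤ) ∣ Δ j z := by
  classical
  obtain ⟨η, hη, hcard⟩ := h
  obtain ⟨c, hc⟩ : ∃ c : ℝ, c = η / (8 * (N + 1)) := ⟨_, rfl⟩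
  have hN0 : (0 : ℝ) < 8 * ((N : ℝ) + 1) := by positivity
  have hc0 : 0 < c := by rw [hc]; positivity
  have hcN : 3 * (N : ℝ) * c ≤ 3 * η / 8 := by
    have h1 : c * (8 * ((N : ℝ) + 1)) = η := by rw [hc]; field_simp
    nlinarith
  obtain ⟨L0, hL0⟩ := prime_choice
  obtain ⟨L, hLdef⟩ : ∃ L : ℕ → ℕ, ∀ j, L j = ⌈(Y j : ℝ) ^ c⌉₊ := ⟨_, fun _ => rfl⟩
  have hY1 : ∀ j, (1 : ℝ) ≤ Y j := fun j => by
    have := hY j
    exact_mod_cast (by omega : 1 ≤ Y j)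
  have hLge : ∀ j, (Y j : ℝ) ^ c ≤ L j := fun j => by rw [hLdef]; exact Nat.le_ceil _
  have hLle : ∀ j, (L j : ℝ) ≤ 2 * (Y j : ℝ) ^ c := fun j => by
    rw [hLdef]
    have h1 := (Nat.ceil_lt_add_one (Real.rpow_nonneg (by linarith [hY1 j]) c :
      (0 : ℝ) ≤ (Y j : ℝ) ^ c)).le
    have h2 : (1 : ℝ) ≤ (Y j : ℝ) ^ c := Real.one_le_rpow (hY1 j) hc0.le
    linarith
  have hpt : ∀ j, ∃ p : ℕ × Finset (Fin N → ℤ), p.2 ⊆ Z' j ∧
      ((L0 ≤ L j ∧ ∀ z ∈ Z' j, Δ j z ≠ 0 ∧ ((|Δ j z| : ℤ) : ℝ) ≤ Real.exp (L j)) →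
        (p.1.Prime ∧ L j < p.1 ∧ p.1 ≤ (L j) ^ 3 ∧
          (∀ z ∈ p.2, ∀ z' ∈ p.2, ∀ i, (p.1 : ℤ) ∣ z i - z' i) ∧
          (∀ z ∈ p.2, ¬ (p.1 : ℤ) ∣ Δ j z) ∧ (Z' j).card ≤ 2 * (p.1 ^ N * p.2.card))) := by
    intro j
    by_cases hg : L0 ≤ L j ∧ ∀ z ∈ Z' j, Δ j z ≠ 0 ∧ ((|Δ j z| : ℤ) : ℝ) ≤ Real.exp (L j)
    · obtain ⟨ℓ, h1, h2, h3, h4⟩ := hL0 (L j) hg.1 (Fin N → ℤ) (Z' j) (Δ j) hg.2
      obtain ⟨C, hCZ, h5, h6⟩ := exists_class ((Z' j).filter fun z => ¬ (ℓ : ℤ) ∣ Δ j z) ℓ h1.pos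
      refine ⟨(ℓ, C), hCZ.trans (Finset.filter_subset _ _), fun _ => ⟨h1, h2, h3, h5, ?_, ?_⟩⟩
      · intro z hz
        exact (Finset.mem_filter.1 (hCZ hz)).2
      · exact h4.trans (Nat.mul_le_mul_left 2 h6)
    · exact ⟨(2, ∅), Finset.empty_subset _, fun h => absurd h hg⟩
  choose p hp1 hp2 using hpt
  have hgood : ∀ᶠ j in UU, L0 ≤ L j ∧
      ∀ z ∈ Z' j, Δ j z ≠ 0 ∧ ((|Δ j z| : ℤ) : ℝ) ≤ Real.exp (L j) := by
    filter_upwards [ev_rpow hY hc0 (L0 : ℝ), h0, hs c hc0] with j h1 h2 h3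
    refine ⟨?_, fun z hz => ⟨h2 z hz, (h3 z hz).trans (Real.exp_le_exp.2 (hLge j))⟩⟩
    have h4 := h1.trans (hLge j)
    exact_mod_cast h4
  refine ⟨⌈(n : ℝ) / c⌉₊ + 1, fun j => (p j).1, fun j => (p j).2, by omega, hp1, ?_, ?_⟩
  · refine large_div hY (η := η) (η' := η / 2) (by linarith) hcard ?_
    filter_upwards [hgood, ev_rpow hY (show 0 < η / 8 by positivity) (2 * 8 ^ N : ℝ)] with j hg hj
    obtain ⟨h1, h2, h3, h4, h5, h6⟩ := hp2 j hg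
    have hYj := hY1 j
    have hY0 : (0 : ℝ) < Y j := by linarith
    have h7 : ((Z' j).card : ℝ) ≤ 2 * (((p j).1 : ℝ) ^ N * (p j).2.card) := by exact_mod_cast h6
    have h8 : ((p j).1 : ℝ) ≤ 8 * ((Y j : ℝ) ^ c) ^ 3 := by
      have h9 : ((p j).1 : ℝ) ≤ (L j : ℝ) ^ 3 := by exact_mod_cast h3
      refine h9.trans ?_
      calc (L j : ℝ) ^ 3 ≤ (2 * (Y j : ℝ) ^ c) ^ 3 := by
            gcongr
            exact hLle j
        _ = 8 * ((Y j : ℝ) ^ c) ^ 3 := by ring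
    have h10 : ((p j).1 : ℝ) ^ N ≤ 8 ^ N * (Y j : ℝ) ^ (3 * (N : ℝ) * c) := by
      calc ((p j).1 : ℝ) ^ N ≤ (8 * ((Y j : ℝ) ^ c) ^ 3) ^ N := by gcongr
        _ = 8 ^ N * (Y j : ℝ) ^ (3 * (N : ℝ) * c) := by
          rw [mul_pow, ← Real.rpow_natCast ((Y j : ℝ) ^ c) 3, ← Real.rpow_mul hY0.le,
            ← Real.rpow_natCast ((Y j : ℝ) ^ (c * ((3 : ℕ) : ℝ))) N, ← Real.rpow_mul hY0.le]
          congr 2
          push_cast
          ring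
    have h11 : (Y j : ℝ) ^ (3 * (N : ℝ) * c) ≤ (Y j : ℝ) ^ (3 * η / 8) :=
      Real.rpow_le_rpow_of_exponent_le hYj hcN
    have h12 : (Y j : ℝ) ^ (η / 8) * (Y j : ℝ) ^ (3 * η / 8) = (Y j : ℝ) ^ (η / 2) := by
      rw [← Real.rpow_add hY0]
      congr 1
      ring
    have h13 : (0 : ℝ) ≤ (p j).2.card := by positivity
    calc ((Z' j).card : ℝ) ≤ 2 * (((p j).1 : ℝ) ^ N * (p j).2.card) := h7
      _ ≤ 2 * ((8 ^ N * (Y j : ℝ) ^ (3 * (N : ℝ) * c)) * (p j).2.card) := by gcongr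
      _ = (2 * 8 ^ N) * (Y j : ℝ) ^ (3 * (N : ℝ) * c) * (p j).2.card := by ring
      _ ≤ (Y j : ℝ) ^ (η / 8) * (Y j : ℝ) ^ (3 * η / 8) * (p j).2.card := by gcongr
      _ = (Y j : ℝ) ^ (η / 2) * (p j).2.card := by rw [h12]
  · filter_upwards [hgood] with j hg
    obtain ⟨h1, h2, h3, h4, h5, h6⟩ := hp2 j hg
    refine ⟨h1, ?_, h4, h5⟩
    have hYj := hY1 j
    have hY0 : (0 : ℝ) < Y j := by linarith
    have h7 : (Y j : ℝ) ^ c ≤ ((p j).1 : ℝ) := (hLge j).trans (by exact_mod_cast h2.le)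
    have h8 : (n : ℝ) ≤ c * ((⌈(n : ℝ) / c⌉₊ + 1 : ℕ) : ℝ) := by
      have h9 : (n : ℝ) / c ≤ ⌈(n : ℝ) / c⌉₊ := Nat.le_ceil _
      push_cast
      rw [div_le_iff₀ hc0] at h9
      nlinarith
    have h10 : ((Y j : ℝ)) ^ n ≤ ((p j).1 : ℝ) ^ (⌈(n : ℝ) / c⌉₊ + 1) := by
      calc ((Y j : ℝ)) ^ n = (Y j : ℝ) ^ (n : ℝ) := (Real.rpow_natCast _ _).symm
        _ ≤ (Y j : ℝ) ^ (c * ((⌈(n : ℝ) / c⌉₊ + 1 : ℕ) : ℝ)) :=
          Real.rpow_le_rpow_of_exponent_le hYj h8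
        _ = ((Y j : ℝ) ^ c) ^ (⌈(n : ℝ) / c⌉₊ + 1) := by
          rw [Real.rpow_mul hY0.le, Real.rpow_natCast]
        _ ≤ _ := by gcongr
    exact_mod_cast h10

theorem DMUAux.pow_le_exp (hY : ∀ j, j + 2 ≤ Y j) (k : ℕ) {δ : ℝ} (hδ : 0 < δ) :
    ∀ᶠ j in UU, (Y j : ℝ) ^ k ≤ Real.exp ((Y j : ℝ) ^ δ) := by
  filter_upwards [ev_rpow hY (show 0 < δ / 2 by positivity) ((k : ℝ) / (δ / 2))] with j hj
  have hY1 : (1 : ℝ) ≤ Y j := by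
    have := hY j
    exact_mod_cast (by omega : 1 ≤ Y j)
  have hY0 : (0 : ℝ) < Y j := by linarith
  rw [← Real.rpow_natCast, Real.rpow_def_of_pos hY0]
  apply Real.exp_le_exp.2
  have h1 : Real.log (Y j) ≤ (Y j : ℝ) ^ (δ / 2) / (δ / 2) :=
    Real.log_le_rpow_div hY0.le (by positivity)
  have h2 : (Y j : ℝ) ^ δ = (Y j : ℝ) ^ (δ / 2) * (Y j : ℝ) ^ (δ / 2) := by
    rw [← Real.rpow_add hY0]
    congr 1
    ring
  have h3 : (0 : ℝ) ≤ (Y j : ℝ) ^ (δ / 2) := Real.rpow_nonneg hY0.le _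
  calc Real.log (Y j) * k ≤ ((Y j : ℝ) ^ (δ / 2) / (δ / 2)) * k := by gcongr
    _ = ((k : ℝ) / (δ / 2)) * (Y j : ℝ) ^ (δ / 2) := by ring
    _ ≤ (Y j : ℝ) ^ (δ / 2) * (Y j : ℝ) ^ (δ / 2) := by gcongr
    _ = _ := h2.symm

theorem dmu (hY : ∀ j, j + 2 ≤ Y j) {Z : ℕ → Finset (Fin N → ℤ)} {B : Finset (Fin N)}
    {P : ℕ → Fin N → MvPolynomial (Fin N) ℤ} {r : ℕ} {F : ℕ → Fin r → MvPolynomial (Fin N) ℤ}
    (ch : Chart Y Z B P F) (hbox : ∀ j, ∀ z ∈ Z j, ∀ i, |z i| ≤ Y j) {b : Fin N} (hb : b ∈ B)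
    (E : ℕ → MvPolynomial (Fin N) ℤ) (Z' : ℕ → Finset (Fin N → ℤ)) (hZ' : ∀ j, Z' j ⊆ Z j)
    (hE : VanOn Z' E)
    (hs : ∀ ε : ℝ, 0 < ε → ∀ᶠ j in UU, ∀ z ∈ Z' j,
      ((|eval z (Dd B (P j) b (E j))| : ℤ) : ℝ) ≤ Real.exp ((Y j : ℝ) ^ ε))
    (hne : ∀ᶠ j in UU, ∀ z ∈ Z' j, eval z (Dd B (P j) b (E j)) ≠ 0) : ¬ Large Y Z' := by
  classical
  intro hL
  have hYr : ∀ j, (1 : ℝ) ≤ Y j := fun j => by
    have := hY j
    exact_mod_cast (by omega : 1 ≤ Y j)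
  -- remove the zeros of the derivatives
  have hfil : ∀ s : Finset (Fin N), s ⊆ Bᶜ →
      Large Y (fun j => (Z' j).filter (fun z => ∀ i ∈ s, eval z (pderiv i (P j i)) ≠ 0)) := by
    intro s
    induction s using Finset.induction_on with
    | empty =>
      intro _
      refine hL.mono (Eventually.of_forall fun j => ?_)
      simp
    | insert i s his ih =>
      intro hs'
      have hiB : i ∉ B := Finset.mem_compl.1 (hs' (Finset.mem_insert_self i s))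
      have h1 := ih (fun x hx => hs' (Finset.mem_insert_of_mem hx))
      have h2 : ¬ Large Y (fun j => ((Z' j).filter
          (fun z => ∀ i ∈ s, eval z (pderiv i (P j i)) ≠ 0)).filter
            (fun z => eval z (pderiv i (P j i)) = 0)) := by
        refine ch.Pder i hiB _ (fun j => ?_) (Eventually.of_forall fun j z hz => ?_)
        · exact ((Finset.filter_subset _ _).trans (Finset.filter_subset _ _)).trans (hZ' j)
        · exact (Finset.mem_filter.1 hz).2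
      have h3 := Large.filter_not hY h1 (p := fun j z => eval z (pderiv i (P j i)) = 0)
        (by convert h2)
      refine h3.mono (Eventually.of_forall fun j => Finset.card_le_card fun z hz => ?_)
      simp only [Finset.mem_filter, Finset.mem_insert, forall_eq_or_imp] at hz ⊢
      exact ⟨hz.1.1, hz.2, hz.1.2⟩
  have hL2 := hfil Bᶜ (Finset.Subset.refl _)
  obtain ⟨Z2, hZ2⟩ : ∃ Z2 : ℕ → Finset (Fin N → ℤ), Z2 = fun j => (Z' j).filter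
    (fun z => ∀ i ∈ Bᶜ, eval z (pderiv i (P j i)) ≠ 0) := ⟨_, rfl⟩
  rw [← hZ2] at hL2
  have hZ2' : ∀ j, Z2 j ⊆ Z' j := fun j => by rw [hZ2]; exact Finset.filter_subset _ _
  have hJne : ∀ j, ∀ z ∈ Z2 j, eval z (Jac B (P j)) ≠ 0 := by
    intro j z hz
    rw [hZ2] at hz
    unfold Jac
    rw [map_prod]
    exact Finset.prod_ne_zero_iff.2 fun i hi => (Finset.mem_filter.1 hz).2 i hi
  obtain ⟨kJ, hkJ⟩ := bdE_eval hY (bdE_Jac hY ch.Pbd)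
  obtain ⟨κ, ℓ, C, hκ, hCZ, hCL, hC⟩ := class_choice hY hL2
    (fun j z => eval z (Jac B (P j)) * eval z (Dd B (P j) b (E j)))
    (by
      filter_upwards [hne] with j hj z hz
      exact mul_ne_zero (hJne j z hz) (hj z (hZ2' j hz)))
    (by
      intro ε hε
      filter_upwards [hkJ, hs (ε / 2) (by positivity),
        DMUAux.pow_le_exp hY kJ (show 0 < ε / 2 by positivity),
        ev_rpow hY (show 0 < ε / 2 by positivity) 2] with j h1 h2 h3 h4 z hz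
      have hzZ : z ∈ Z j := hZ' j (hZ2' j hz)
      have h5 : ((|eval z (Jac B (P j))| : ℤ) : ℝ) ≤ (Y j : ℝ) ^ kJ := by
        exact_mod_cast h1 z (hbox j z hzZ)
      have h6 := h2 z (hZ2' j hz)
      have hY0 : (0 : ℝ) < Y j := by linarith [hYr j]
      have h7 : (Y j : ℝ) ^ ε = (Y j : ℝ) ^ (ε / 2) * (Y j : ℝ) ^ (ε / 2) := by
        rw [← Real.rpow_add hY0]
        congr 1
        ring
      rw [abs_mul]
      push_cast at h5 h6 ⊢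
      calc |((eval z (Jac B (P j)) : ℤ) : ℝ)| * |((eval z (Dd B (P j) b (E j)) : ℤ) : ℝ)|
          ≤ Real.exp ((Y j : ℝ) ^ (ε / 2)) * Real.exp ((Y j : ℝ) ^ (ε / 2)) :=
            mul_le_mul (h5.trans h3) h6 (abs_nonneg _) (Real.exp_pos _).le
        _ = Real.exp ((Y j : ℝ) ^ (ε / 2) + (Y j : ℝ) ^ (ε / 2)) := (Real.exp_add _ _).symm
        _ ≤ Real.exp ((Y j : ℝ) ^ ε) := by
            apply Real.exp_le_exp.2
            rw [h7]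
            nlinarith)
    (2 * (B.card + 1))
  set a : ℕ := B.card * (2 * κ ^ (B.card - 1)) with ha
  set e : ℕ := B.card * (2 * κ ^ (B.card - 1)) * (2 * κ ^ (B.card - 1)) ^ B.card + 1 with he
  have hCZ' : ∀ j, C j ⊆ Z j := fun j => (hCZ j).trans ((hZ2' j).trans (hZ' j))
  have hev : ∀ᶠ j in UU, ∃ G : MvPolynomial (Fin N) ℤ, G ≠ 0 ∧ G.vars ⊆ B ∧ G.totalDegree ≤ a ∧
      (∀ m, |coeff m G| ≤ (Y j : ℤ) ^ e) ∧ ∀ z ∈ C j, eval z G = 0 := by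
    have hvars : ∀ᶠ j in UU, ∀ i : Fin N, i ∉ B → (P j i).vars ⊆ insert i B := by
      rw [eventually_all]
      intro i
      by_cases hi : i ∈ B
      · exact Eventually.of_forall fun j h => absurd hi h
      · filter_upwards [ch.Pvars i hi] with j hj _
        exact hj
    have hvan : ∀ᶠ j in UU, ∀ i : Fin N, i ∉ B → ∀ z ∈ Z j, eval z (P j i) = 0 := by
      rw [eventually_all]
      intro i
      by_cases hi : i ∈ B
      · exact Eventually.of_forall fun j h => absurd hi h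
      · filter_upwards [ch.Pvan i hi] with j hj _
        exact hj
    filter_upwards [hC, hvars, hvan, hE, Large.nonempty hY hCL,
      ev_ge (((2 * κ ^ (B.card - 1)) ^ B.card).factorial)] with j h1 h2 h3 h4 h5 h6
    obtain ⟨hℓ, hℓY, hdiv, hnd⟩ := h1
    obtain ⟨z0, hz0⟩ := h5
    have hYj := hY j
    have hnd0 := hnd z0 hz0
    obtain ⟨G, hG⟩ := dm hb (P j) h2 (E j) (↑(C j) : Set (Fin N → ℤ)) (ℓ j) hℓ z0
      (by exact_mod_cast hz0)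
      (fun z hz i => hdiv z (by exact_mod_cast hz) z0 hz0 i)
      (fun z hz i hi => h3 i hi z (hCZ' j (by exact_mod_cast hz)))
      (fun z hz => h4 z (hZ2' j (hCZ j (by exact_mod_cast hz))))
      (fun h => hnd0 (Dvd.dvd.mul_right h _)) (fun h => hnd0 (Dvd.dvd.mul_left h _))
      κ hκ (Y j) (by omega) (by omega)
      (fun z hz i => hbox j z (hCZ' j (by exact_mod_cast hz)) i) hℓY
    exact ⟨G, hG.1, hG.2.1, hG.2.2.1, hG.2.2.2.1, fun z hz => hG.2.2.2.2 z (by exact_mod_cast hz)⟩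
  have hG : ∀ j, ∃ G : MvPolynomial (Fin N) ℤ, (∃ G : MvPolynomial (Fin N) ℤ, G ≠ 0 ∧
      G.vars ⊆ B ∧ G.totalDegree ≤ a ∧ (∀ m, |coeff m G| ≤ (Y j : ℤ) ^ e) ∧
      ∀ z ∈ C j, eval z G = 0) → (G ≠ 0 ∧ G.vars ⊆ B ∧ G.totalDegree ≤ a ∧
      (∀ m, |coeff m G| ≤ (Y j : ℤ) ^ e) ∧ ∀ z ∈ C j, eval z G = 0) := by
    intro j
    by_cases h : ∃ G : MvPolynomial (Fin N) ℤ, G ≠ 0 ∧
      G.vars ⊆ B ∧ G.totalDegree ≤ a ∧ (∀ m, |coeff m G| ≤ (Y j : ℤ) ^ e) ∧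
      ∀ z ∈ C j, eval z G = 0
    · obtain ⟨G, hG⟩ := h
      exact ⟨G, fun _ => hG⟩
    · exact ⟨0, fun h' => absurd h' h⟩
  choose G hG using hG
  refine ch.indep G ⟨a + e, ?_⟩ ?_ C hCZ' ?_ hCL
  · filter_upwards [hev] with j hj
    obtain ⟨h1, h2, h3, h4, h5⟩ := hG j hj
    refine ⟨by omega, fun m => (h4 m).trans ?_⟩
    have h6 : (1 : ℤ) ≤ Y j := by
      have := hY j
      omega
    exact pow_le_pow_right₀ h6 (by omega)
  · filter_upwards [hev] with j hj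
    obtain ⟨h1, h2, h3, h4, h5⟩ := hG j hj
    exact ⟨h1, h2⟩
  · filter_upwards [hev] with j hj
    obtain ⟨h1, h2, h3, h4, h5⟩ := hG j hj
    exact h5

end Pool.Agent.Lib.FewX
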