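import Mathlib

/-!
# FewX.Defs: the vector fields of a chart

`B` a set of variables, `P i` (for `i ∉ B`) a polynomial in the variables of `B` and `X i`.
`Jac B P = ∏_{i ∉ B} ∂_i (P i)`; for `b ∈ B` the vector field `vf B P b` has the coordinates
`Jac` (at `b`), `0` (at the other elements of `B`), `- ∂_b (P i) * ∏_{i' ∉ B, i' ≠ i} ∂_{i'} (P i')` (at `i ∉ B`).
`Dd B P b` is the derivation along it, `Qd B P b e g` the product of all the variables times the derivation of
`log (X^e / X^g)`.
-/

open MvPolynomial

namespace Pool.Agent.Lib.FewX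

variable {N : ℕ} {R S : Type*} [CommRing R] [CommRing S]

/-- the Jacobian -/
noncomputable def Jac (B : Finset (Fin N)) (P : Fin N → MvPolynomial (Fin N) R) :
    MvPolynomial (Fin N) R :=
  ∏ i ∈ Bᶜ, pderiv i (P i)

/-- the `i`-th coordinate of the vector field in direction `b` -/
noncomputable def vf (B : Finset (Fin N)) (P : Fin N → MvPolynomial (Fin N) R) (b i : Fin N) :
    MvPolynomial (Fin N) R :=
  if i ∈ B then (if i = b then Jac B P else 0)
  else - pderiv b (P i) * ∏ i' ∈ Bᶜ.erase i, pderiv i' (P i')

/-- the derivation along the vector field -/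
noncomputable def Dd (B : Finset (Fin N)) (P : Fin N → MvPolynomial (Fin N) R) (b : Fin N)
    (F : MvPolynomial (Fin N) R) : MvPolynomial (Fin N) R :=
  ∑ i, vf B P b i * pderiv i F

/-- the product of all variables times the derivation of `log (X^e)` -/
noncomputable def Ld (B : Finset (Fin N)) (P : Fin N → MvPolynomial (Fin N) R) (b : Fin N)
    (e : Fin N → ℕ) : MvPolynomial (Fin N) R :=
  ∑ i, (e i : MvPolynomial (Fin N) R) * vf B P b i * ∏ i' ∈ Finset.univ.erase i, X i'

/-- the monomial `X^e` -/
noncomputable def Xp (R : Type*) [CommRing R] (e : Fin N → ℕ) : MvPolynomial (Fin N) R :=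
  ∏ i, X i ^ e i

variable {B : Finset (Fin N)} {P : Fin N → MvPolynomial (Fin N) R} {b : Fin N}

theorem Dd_add (F G : MvPolynomial (Fin N) R) : Dd B P b (F + G) = Dd B P b F + Dd B P b G := by
  simp only [Dd, map_add, mul_add, Finset.sum_add_distrib]

theorem Dd_zero : Dd B P b (0 : MvPolynomial (Fin N) R) = 0 := by
  simp [Dd]

theorem Dd_mul (F G : MvPolynomial (Fin N) R) :
    Dd B P b (F * G) = F * Dd B P b G + G * Dd B P b F := by
  simp only [Dd, Derivation.leibniz, smul_eq_mul, Finset.mul_sum]
  rw [← Finset.sum_add_distrib]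
  refine Finset.sum_congr rfl fun i _ => ?_
  ring

theorem Dd_C (c : R) : Dd B P b (C c) = 0 := by
  simp [Dd]

theorem Dd_one : Dd B P b (1 : MvPolynomial (Fin N) R) = 0 := by
  simp [Dd]

theorem Dd_sub (F G : MvPolynomial (Fin N) R) : Dd B P b (F - G) = Dd B P b F - Dd B P b G := by
  simp only [Dd, map_sub, mul_sub, Finset.sum_sub_distrib]

theorem Dd_neg (F : MvPolynomial (Fin N) R) : Dd B P b (-F) = -Dd B P b F := by
  simp only [Dd, map_neg, mul_neg, Finset.sum_neg_distrib]

theorem Dd_C_mul (c : R) (F : MvPolynomial (Fin N) R) :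
    Dd B P b (C c * F) = C c * Dd B P b F := by
  rw [Dd_mul, Dd_C, mul_zero, add_zero]

theorem Dd_sum {ι : Type*} (s : Finset ι) (F : ι → MvPolynomial (Fin N) R) :
    Dd B P b (∑ i ∈ s, F i) = ∑ i ∈ s, Dd B P b (F i) := by
  classical
  induction s using Finset.induction_on with
  | empty => simp [Dd_zero]
  | insert i s hi ih => rw [Finset.sum_insert hi, Finset.sum_insert hi, Dd_add, ih]

theorem Dd_X (i : Fin N) : Dd B P b (X i : MvPolynomial (Fin N) R) = vf B P b i := by
  unfold Dd
  rw [Finset.sum_eq_single i]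
  · simp
  · intro j _ hj
    rw [pderiv_X_of_ne (Ne.symm hj)]
    simp
  · intro h
    exact absurd (Finset.mem_univ i) h

/-- `(∏ X) D_b (X^e) = X^e * Ld e` -/
theorem prodX_mul_Dd_Xp (e : Fin N → ℕ) :
    (∏ i, X i) * Dd B P b (Xp R e) = Xp R e * Ld B P b e := by
  have key : ∀ s : Finset (Fin N), (∏ i ∈ s, (X i : MvPolynomial (Fin N) R)) *
      Dd B P b (∏ i ∈ s, X i ^ e i) = (∏ i ∈ s, X i ^ e i) *
        ∑ i ∈ s, (e i : MvPolynomial (Fin N) R) * vf B P b i * ∏ i' ∈ s.erase i, X i' := by
    classical
    intro s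
    induction s using Finset.induction_on with
    | empty => simp [Dd_one]
    | insert k s hk ih =>
      rw [Finset.prod_insert hk, Finset.prod_insert hk, Dd_mul, Finset.sum_insert hk,
        Finset.erase_insert hk]
      have hpow : X k * Dd B P b ((X k : MvPolynomial (Fin N) R) ^ e k) =
          X k ^ e k * ((e k : MvPolynomial (Fin N) R) * vf B P b k) := by
        generalize e k = n
        induction n with
        | zero => simp [Dd_one]
        | succ n ihn =>
          rw [pow_succ, Dd_mul, Dd_X, mul_add]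
          have h1 : X k * (X k * Dd B P b ((X k : MvPolynomial (Fin N) R) ^ n)) =
              X k * (X k ^ n * ((n : MvPolynomial (Fin N) R) * vf B P b k)) := by
            rw [ihn]
          rw [h1]
          push_cast
          ring
      have hsum : ∑ i ∈ s, (e i : MvPolynomial (Fin N) R) * vf B P b i *
          ∏ i' ∈ (insert k s).erase i, X i' =
          X k * ∑ i ∈ s, (e i : MvPolynomial (Fin N) R) * vf B P b i *
            ∏ i' ∈ s.erase i, X i' := by
        rw [Finset.mul_sum]
        refine Finset.sum_congr rfl fun i hi => ?_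
        have hki : k ≠ i := fun h => hk (h ▸ hi)
        rw [Finset.erase_insert_of_ne hki, Finset.prod_insert (fun h => hk (Finset.mem_of_mem_erase h))]
        ring
      rw [hsum]
      linear_combination (X k * X k ^ e k) * ih + (∏ i ∈ s, X i) * (∏ i ∈ s, X i ^ e i) * hpow
  exact key Finset.univ

/-- the `P i` are constant along the vector field -/
theorem Dd_P (hb : b ∈ B) {i : Fin N} (hi : i ∉ B) (hv : (P i).vars ⊆ insert i B) :
    Dd B P b (P i) = 0 := by
  classical
  have hib : i ≠ b := fun h => hi (h ▸ hb)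
  unfold Dd
  have h0 : ∀ j, j ≠ i → j ≠ b → vf B P b j * pderiv j (P i) = 0 := by
    intro j h1 h2
    by_cases hj : j ∈ B
    · simp [vf, hj, h2]
    · have : pderiv j (P i) = 0 := by
        apply pderiv_eq_zero_of_notMem_vars
        intro h
        rcases Finset.mem_insert.1 (hv h) with h | h
        · exact h1 h
        · exact hj h
      rw [this, mul_zero]
  rw [← Finset.sum_subset (Finset.subset_univ {i, b}) (fun j _ hj => by
    simp only [Finset.mem_insert, Finset.mem_singleton, not_or] at hj
    exact h0 j hj.1 hj.2), Finset.sum_pair hib]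
  have h1 : Jac B P = pderiv i (P i) * ∏ i' ∈ Bᶜ.erase i, pderiv i' (P i') :=
    (Finset.mul_prod_erase _ _ (Finset.mem_compl.2 hi)).symm
  simp only [vf, hi, if_false, hb, if_true, h1]
  ring

theorem map_Jac (f : R →+* S) (B : Finset (Fin N)) (P : Fin N → MvPolynomial (Fin N) R) :
    map f (Jac B P) = Jac B (fun i => map f (P i)) := by
  simp only [Jac, map_prod, pderiv_map]

theorem map_vf (f : R →+* S) (B : Finset (Fin N)) (P : Fin N → MvPolynomial (Fin N) R)
    (b i : Fin N) : map f (vf B P b i) = vf B (fun i => map f (P i)) b i := by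
  unfold vf
  split_ifs
  · exact map_Jac f B P
  · exact map_zero _
  · rw [map_mul, map_neg, map_prod]
    simp only [pderiv_map]

theorem map_Dd (f : R →+* S) (B : Finset (Fin N)) (P : Fin N → MvPolynomial (Fin N) R)
    (b : Fin N) (F : MvPolynomial (Fin N) R) :
    map f (Dd B P b F) = Dd B (fun i => map f (P i)) b (map f F) := by
  unfold Dd
  rw [map_sum]
  refine Finset.sum_congr rfl fun i _ => ?_
  rw [map_mul, map_vf, pderiv_map]

theorem map_Ld (f : R →+* S) (B : Finset (Fin N)) (P : Fin N → MvPolynomial (Fin N) R)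
    (b : Fin N) (e : Fin N → ℕ) :
    map f (Ld B P b e) = Ld B (fun i => map f (P i)) b e := by
  unfold Ld
  rw [map_sum]
  refine Finset.sum_congr rfl fun i _ => ?_
  rw [map_mul, map_mul, map_vf, map_prod, map_natCast]
  simp only [map_X]

end Pool.Agent.Lib.FewX
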