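import Mathlib

/-!
# FewX.EvPS: the value of a power series over `ℤ_[p]` at `p`  (1 h)

`ev f = ∑' n, coeff n f * p^n`: summable in the complete ring `ℤ_[p]` (norms `≤ p^(-n)`), multiplicative by the Cauchy product
(`tsum_mul_tsum_eq_tsum_sum_antidiagonal_of_summable_norm`, `PowerSeries.coeff_mul`). `ev f - constantCoeff f = ∑' n, coeff (n+1) f * p^(n+1)` is divisible by `p`
(`f - C (constantCoeff f)` is a multiple of `X`).
-/

namespace Pool.Agent.Lib.FewX

private theorem summable_norm_ev (p : ℕ) [Fact p.Prime] (f : PowerSeries ℤ_[p]) :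
    Summable (fun n => ‖PowerSeries.coeff n f * (p : ℤ_[p]) ^ n‖) := by
  have h1 : ‖(p : ℤ_[p])‖ < 1 := (by rw [PadicInt.norm_p]; exact inv_lt_one_of_one_lt₀ (by exact_mod_cast (Fact.out : p.Prime).one_lt))
  refine Summable.of_nonneg_of_le (fun n => norm_nonneg _) (fun n => ?_)
    (summable_geometric_of_lt_one (norm_nonneg _) h1)
  rw [norm_mul, norm_pow]
  have h2 : ‖PowerSeries.coeff n f‖ ≤ 1 := PadicInt.norm_le_one _
  have h3 : (0 : ℝ) ≤ ‖(p : ℤ_[p])‖ ^ n := pow_nonneg (norm_nonneg _) n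
  nlinarith

private theorem summable_ev (p : ℕ) [Fact p.Prime] (f : PowerSeries ℤ_[p]) :
    Summable (fun n => PowerSeries.coeff n f * (p : ℤ_[p]) ^ n) :=
  (summable_norm_ev p f).of_norm

theorem exists_ev (p : ℕ) [Fact p.Prime] : ∃ ev : PowerSeries ℤ_[p] →+* ℤ_[p],
    ev PowerSeries.X = (p : ℤ_[p]) ∧ (∀ a : ℤ_[p], ev (PowerSeries.C a) = a) ∧
      ∀ f : PowerSeries ℤ_[p], (p : ℤ_[p]) ∣ ev f - PowerSeries.constantCoeff f := by
  have hC : ∀ a : ℤ_[p], (∑' n, PowerSeries.coeff n (PowerSeries.C a) * (p : ℤ_[p]) ^ n) = a := by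
    intro a
    rw [tsum_eq_single 0]
    · simp
    · intro n hn
      rw [PowerSeries.coeff_C, if_neg hn, zero_mul]
  let ev : PowerSeries ℤ_[p] →+* ℤ_[p] :=
    { toFun := fun f => ∑' n, PowerSeries.coeff n f * (p : ℤ_[p]) ^ n
      map_one' := by
        have h1 := hC 1
        rwa [map_one] at h1
      map_zero' := by simp
      map_add' := fun f g => by
        rw [← (summable_ev p f).tsum_add (summable_ev p g)]
        refine tsum_congr fun n => ?_
        rw [map_add, add_mul]
      map_mul' := fun f g => by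
        rw [tsum_mul_tsum_eq_tsum_sum_antidiagonal_of_summable_norm (summable_norm_ev p f)
          (summable_norm_ev p g)]
        refine tsum_congr fun n => ?_
        rw [PowerSeries.coeff_mul, Finset.sum_mul]
        refine Finset.sum_congr rfl fun k hk => ?_
        rw [← Finset.HasAntidiagonal.mem_antidiagonal.1 hk, pow_add]
        ring }
  have hX : ev PowerSeries.X = (p : ℤ_[p]) := by
    change (∑' n, PowerSeries.coeff n PowerSeries.X * (p : ℤ_[p]) ^ n) = (p : ℤ_[p])
    rw [tsum_eq_single 1]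
    · simp
    · intro n hn
      rw [PowerSeries.coeff_X, if_neg hn, zero_mul]
  have hCev : ∀ a : ℤ_[p], ev (PowerSeries.C a) = a := hC
  refine ⟨ev, hX, hCev, fun f => ?_⟩
  have h0 : PowerSeries.X ∣ (f - PowerSeries.C (PowerSeries.constantCoeff f)) := by
    rw [PowerSeries.X_dvd_iff]
    simp
  obtain ⟨g, hg⟩ := h0
  refine ⟨ev g, ?_⟩
  rw [← hX, ← map_mul, ← hg, map_sub, hCev]

end Pool.Agent.Lib.FewX
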