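import Pool.Agent.Lib.FewX.Seq

/-!
# FewX.Height: the tangent argument  (.8 h)

`a = α ∏ z^e`, `b' = β ∏ z^f`, `c = γ ∏ z^g = a + b'` (`hE`, `eval_EE`). `prodX_mul_Dd_Xp` evaluated at `z`: `(∏ z) * (value of D (X^e)) = (∏ z^e) * qa`, `qa = eval z (Ld B P b e)` etc. So `hD` times `∏ z` gives
`a qa + b' qb - c qc = 0`, `a (qa - qc) + b' (qb - qc) = 0`. `a, b'` coprime: `a ∣ qb - qc`, `b' ∣ qa - qc`, both of absolute value `≤ 2 H`. `c > 4 H`, so `a > 2 H` or `b' > 2 H`: if `a > 2H` then `qb - qc = 0`, so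
`a (qa - qc) = 0`. Same for `b'`.
-/

open MvPolynomial

namespace Pool.Agent.Lib.FewX

private theorem ev_Dd_Xp {N : ℕ} (B : Finset (Fin N)) (P : Fin N → MvPolynomial (Fin N) ℤ)
    (b : Fin N) (e : Fin N → ℕ) (z : Fin N → ℤ) :
    (∏ i, z i) * eval z (Dd B P b (Xp ℤ e)) = (∏ i, z i ^ e i) * eval z (Ld B P b e) := by
  have h := congrArg (eval z) (prodX_mul_Dd_Xp (B := B) (P := P) (b := b) e)
  simpa only [map_mul, map_prod, eval_X, eval_Xp] using h

theorem height_eq {N : ℕ} (B : Finset (Fin N)) (P : Fin N → MvPolynomial (Fin N) ℤ) (b : Fin N)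
    (α β γ : ℤ) (e f g : Fin N → ℕ) (z : Fin N → ℤ)
    (hE : eval z (EE α β γ e f g) = 0) (hD : eval z (Dd B P b (EE α β γ e f g)) = 0)
    (ha : 0 < α * ∏ i, z i ^ e i) (hb : 0 < β * ∏ i, z i ^ f i)
    (hcop : IsCoprime (α * ∏ i, z i ^ e i) (β * ∏ i, z i ^ f i)) (H : ℤ)
    (h1 : |eval z (Ld B P b e)| ≤ H) (h2 : |eval z (Ld B P b f)| ≤ H)
    (h3 : |eval z (Ld B P b g)| ≤ H) (hc : 4 * H < γ * ∏ i, z i ^ g i) :
    eval z (Ld B P b e) = eval z (Ld B P b g) ∧ eval z (Ld B P b f) = eval z (Ld B P b g) := by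
  have k1 := ev_Dd_Xp B P b e z
  have k2 := ev_Dd_Xp B P b f z
  have k3 := ev_Dd_Xp B P b g z
  rw [eval_EE] at hE
  unfold EE at hD
  rw [Dd_sub, Dd_add, Dd_C_mul, Dd_C_mul, Dd_C_mul, map_sub, map_add, map_mul, map_mul, map_mul,
    eval_C, eval_C, eval_C] at hD
  generalize eval z (Ld B P b e) = qa at *
  generalize eval z (Ld B P b f) = qb at *
  generalize eval z (Ld B P b g) = qc at *
  generalize eval z (Dd B P b (Xp ℤ e)) = da at *
  generalize eval z (Dd B P b (Xp ℤ f)) = db at *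
  generalize eval z (Dd B P b (Xp ℤ g)) = dc at *
  generalize (∏ i, z i ^ e i) = u at *
  generalize (∏ i, z i ^ f i) = v at *
  generalize (∏ i, z i ^ g i) = w at *
  generalize (∏ i, z i) = p at *
  have e0 : γ * w = α * u + β * v := by linarith
  have e1 : (α * u) * (qa - qc) + (β * v) * (qb - qc) = 0 := by
    have : p * (α * da + β * db - γ * dc) = 0 := by rw [hD, mul_zero]
    have e2 : α * (u * qa) + β * (v * qb) - γ * (w * qc) = 0 := by
      rw [← k1, ← k2, ← k3]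
      linear_combination this
    linear_combination e2 + qc * e0
  have b1 := abs_le.1 h1
  have b2 := abs_le.1 h2
  have b3 := abs_le.1 h3
  have d1 : (α * u) ∣ qb - qc := by
    apply hcop.dvd_of_dvd_mul_left
    exact ⟨-(qa - qc), by linear_combination e1⟩
  have d2 : (β * v) ∣ qa - qc := by
    apply hcop.symm.dvd_of_dvd_mul_left
    exact ⟨-(qb - qc), by linear_combination e1⟩
  rcases lt_or_ge (2 * H) (α * u) with h | h
  · have h4 : qb - qc = 0 := Int.eq_zero_of_abs_lt_dvd d1 (by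
      rw [abs_lt]; constructor <;> linarith)
    rw [h4, mul_zero, add_zero] at e1
    have h5 : qa - qc = 0 := (mul_eq_zero.1 e1).resolve_left ha.ne'
    constructor <;> linarith
  · have h' : 2 * H < β * v := by linarith
    have h4 : qa - qc = 0 := Int.eq_zero_of_abs_lt_dvd d2 (by
      rw [abs_lt]; constructor <;> linarith)
    rw [h4, mul_zero, zero_add] at e1
    have h5 : qb - qc = 0 := (mul_eq_zero.1 e1).resolve_left hb.ne'
    constructor <;> linarith

end Pool.Agent.Lib.FewX
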