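import Mathlib

/-!
# FewX.HenselPS: Hensel's lemma for power series  (1.5 h)

Newton's iteration in the `X`-adic topology: `y_0 = C y0`, and given `y_n` with `X^(n+1) ∣ p(y_n)`, `constantCoeff y_n = y0`, put `y_{n+1} = y_n - p(y_n) * v` where `v` is the inverse of the unit `p'(y_n)` (its constant
coefficient is that of `p'(C y0)`, a unit; `PowerSeries.isUnit_iff_constantCoeff`): `X^(n+2) ∣ p(y_{n+1})` (`Polynomial.evalSubFactor`/Taylor: `p(y+h) = p(y) + p'(y) h + h^2 *`). The coefficients of `y_n` of index `≤ n` stabilise; `y` = the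
series with these coefficients; `p(y) ≡ p(y_n) mod X^(n+1)` for all `n`, so `p(y) = 0`. (Or: `PowerSeries R` is adically complete for `span {X}` and `IsAdicComplete.henselianRing`, if the instance is available.)
-/

namespace Pool.Agent.Lib.FewX

namespace HenselPSAux

open PowerSeries

variable {R : Type*} [CommRing R]

/-- Newton's iteration -/
noncomputable def cs (p : Polynomial (PowerSeries R)) (y0 : R) : ℕ → PowerSeries R
  | 0 => PowerSeries.C y0
  | n + 1 => cs p y0 n - p.eval (cs p y0 n) * Ring.inverse (p.derivative.eval (cs p y0 n))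

theorem eval_dvd (p : Polynomial (PowerSeries R)) {a b : PowerSeries R} {n : ℕ}
    (h : (X : PowerSeries R) ^ n ∣ a - b) : (X : PowerSeries R) ^ n ∣ p.eval a - p.eval b := by
  obtain ⟨z, hz⟩ := p.evalSubFactor a b
  rw [hz]
  exact Dvd.dvd.mul_left h z

theorem unit_of {p : Polynomial (PowerSeries R)} {y0 : R}
    (h1 : IsUnit (constantCoeff (p.derivative.eval (PowerSeries.C y0)))) {a : PowerSeries R}
    (ha : (X : PowerSeries R) ^ 1 ∣ a - PowerSeries.C y0) : IsUnit (p.derivative.eval a) := by
  have h2 := eval_dvd p.derivative ha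
  rw [pow_one, X_dvd_iff, map_sub, sub_eq_zero] at h2
  rw [isUnit_iff_constantCoeff, h2]
  exact h1

theorem step {p : Polynomial (PowerSeries R)} {a : PowerSeries R} {n : ℕ}
    (hu : IsUnit (p.derivative.eval a)) (h : (X : PowerSeries R) ^ (n + 1) ∣ p.eval a) :
    (X : PowerSeries R) ^ (n + 2) ∣
      p.eval (a - p.eval a * Ring.inverse (p.derivative.eval a)) := by
  obtain ⟨k, hk⟩ := p.binomExpansion a (-(p.eval a * Ring.inverse (p.derivative.eval a)))
  rw [sub_eq_add_neg, hk]
  have h3 : p.derivative.eval a * Ring.inverse (p.derivative.eval a) = 1 :=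
    Ring.mul_inverse_cancel _ hu
  have h4 : p.eval a + p.derivative.eval a *
      -(p.eval a * Ring.inverse (p.derivative.eval a)) +
      k * (-(p.eval a * Ring.inverse (p.derivative.eval a))) ^ 2 =
      k * (Ring.inverse (p.derivative.eval a)) ^ 2 * (p.eval a) ^ 2 := by
    linear_combination (-(p.eval a)) * h3
  rw [h4]
  apply Dvd.dvd.mul_left
  have h5 : (X : PowerSeries R) ^ ((n + 1) * 2) ∣ (p.eval a) ^ 2 := by
    rw [pow_mul]
    exact pow_dvd_pow_of_dvd h 2
  exact (pow_dvd_pow _ (by omega)).trans h5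

theorem facts {p : Polynomial (PowerSeries R)} {y0 : R}
    (h0 : constantCoeff (p.eval (PowerSeries.C y0)) = 0)
    (h1 : IsUnit (constantCoeff (p.derivative.eval (PowerSeries.C y0)))) (n : ℕ) :
    (X : PowerSeries R) ^ 1 ∣ cs p y0 n - PowerSeries.C y0 ∧
      (X : PowerSeries R) ^ (n + 1) ∣ p.eval (cs p y0 n) := by
  induction n with
  | zero =>
    refine ⟨?_, ?_⟩
    · show (X : PowerSeries R) ^ 1 ∣ PowerSeries.C y0 - PowerSeries.C y0
      rw [sub_self]
      exact dvd_zero _
    · show (X : PowerSeries R) ^ (0 + 1) ∣ p.eval (PowerSeries.C y0)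
      rw [zero_add, pow_one, X_dvd_iff]
      exact h0
  | succ n ih =>
    obtain ⟨i1, i2⟩ := ih
    refine ⟨?_, ?_⟩
    · show (X : PowerSeries R) ^ 1 ∣ cs p y0 n - p.eval (cs p y0 n) *
        Ring.inverse (p.derivative.eval (cs p y0 n)) - PowerSeries.C y0
      have h2 : cs p y0 n - p.eval (cs p y0 n) *
          Ring.inverse (p.derivative.eval (cs p y0 n)) - PowerSeries.C y0 =
          (cs p y0 n - PowerSeries.C y0) - p.eval (cs p y0 n) *
          Ring.inverse (p.derivative.eval (cs p y0 n)) := by ring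
      rw [h2]
      exact dvd_sub i1 (Dvd.dvd.mul_right ((pow_dvd_pow _ (by omega)).trans i2) _)
    · exact step (unit_of h1 i1) i2

theorem diff {p : Polynomial (PowerSeries R)} {y0 : R}
    (h0 : constantCoeff (p.eval (PowerSeries.C y0)) = 0)
    (h1 : IsUnit (constantCoeff (p.derivative.eval (PowerSeries.C y0)))) (n : ℕ) :
    (X : PowerSeries R) ^ (n + 1) ∣ cs p y0 (n + 1) - cs p y0 n := by
  show (X : PowerSeries R) ^ (n + 1) ∣ cs p y0 n - p.eval (cs p y0 n) *
        Ring.inverse (p.derivative.eval (cs p y0 n)) - cs p y0 n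
  have h2 : cs p y0 n - p.eval (cs p y0 n) *
      Ring.inverse (p.derivative.eval (cs p y0 n)) - cs p y0 n =
      -(p.eval (cs p y0 n) * Ring.inverse (p.derivative.eval (cs p y0 n))) := by ring
  rw [h2, dvd_neg]
  exact Dvd.dvd.mul_right (facts h0 h1 n).2 _

theorem stable {p : Polynomial (PowerSeries R)} {y0 : R}
    (h0 : constantCoeff (p.eval (PowerSeries.C y0)) = 0)
    (h1 : IsUnit (constantCoeff (p.derivative.eval (PowerSeries.C y0)))) {m n : ℕ} (h : m ≤ n) :
    coeff m (cs p y0 n) = coeff m (cs p y0 m) := by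
  induction n, h using Nat.le_induction with
  | base => rfl
  | succ n hmn ih =>
    have h2 := (X_pow_dvd_iff.1 (diff h0 h1 n)) m (by omega)
    rw [map_sub, sub_eq_zero] at h2
    rw [h2, ih]

end HenselPSAux

open HenselPSAux in
theorem hensel_ps {R : Type*} [CommRing R] (p : Polynomial (PowerSeries R)) (y0 : R)
    (h0 : PowerSeries.constantCoeff (p.eval (PowerSeries.C y0)) = 0)
    (h1 : IsUnit (PowerSeries.constantCoeff (p.derivative.eval (PowerSeries.C y0)))) :
    ∃ y : PowerSeries R, p.eval y = 0 ∧ PowerSeries.constantCoeff y = y0 := by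
  refine ⟨PowerSeries.mk fun n => PowerSeries.coeff n (cs p y0 n), ?_, ?_⟩
  · have hy : ∀ n, (PowerSeries.X : PowerSeries R) ^ (n + 1) ∣
        (PowerSeries.mk fun n => PowerSeries.coeff n (cs p y0 n)) - cs p y0 n := by
      intro n
      rw [PowerSeries.X_pow_dvd_iff]
      intro m hm
      rw [map_sub, PowerSeries.coeff_mk, stable h0 h1 (by omega : m ≤ n), sub_self]
    ext n
    have h2 := dvd_add (eval_dvd p (hy n)) (facts h0 h1 n).2
    rw [sub_add_cancel] at h2
    rw [PowerSeries.X_pow_dvd_iff.1 h2 n (by omega), map_zero]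
  · rw [← PowerSeries.coeff_zero_eq_constantCoeff_apply, PowerSeries.coeff_mk]
    show PowerSeries.coeff 0 (PowerSeries.C y0) = y0
    rw [PowerSeries.coeff_zero_eq_constantCoeff_apply, PowerSeries.constantCoeff_C]

end Pool.Agent.Lib.FewX
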