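import Pool.Agent.Lib.FewX.LargeAlg

/-!
# FewX.KField: the field of germs of sequences of rationals of polynomially bounded height  (1.2 h)

`PB Y f`: `f j = p / q` with integers `|p|, |q| ≤ Y j ^ k`, for almost all `j`. Sums, products, inverses, negatives of such
sequences are such sequences (`2 Y^(2k) ≤ Y^(2k+1)`), so their germs form a subfield of `Germ UU ℚ` (a field: instance
`Filter.Germ.instField`, for the ultrafilter `hyperfilter ℕ`; if the instance is not found for `UU`, use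
`(hyperfilter ℕ : Filter ℕ)` explicitly, `UU` is an `abbrev`).
-/

open MvPolynomial Filter

namespace Pool.Agent.Lib.FewX

variable {Y : ℕ → ℕ}

/-- polynomially bounded height -/
def PB (Y : ℕ → ℕ) (f : ℕ → ℚ) : Prop :=
  ∃ k : ℕ, ∀ᶠ j in UU, ∃ p q : ℤ, q ≠ 0 ∧ |p| ≤ (Y j : ℤ) ^ k ∧ |q| ≤ (Y j : ℤ) ^ k ∧
    f j = (p : ℚ) / q

namespace KFieldAux

theorem pb_int (p : ℤ) (hp : |p| ≤ 1) : PB Y (fun _ => (p : ℚ)) := by
  refine ⟨0, Filter.Eventually.of_forall fun j => ⟨p, 1, one_ne_zero, by simpa using hp, by simp, ?_⟩⟩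
  simp

theorem pb_neg {f : ℕ → ℚ} (h : PB Y f) : PB Y (-f) := by
  obtain ⟨k, h⟩ := h
  refine ⟨k, ?_⟩
  filter_upwards [h] with j hj
  obtain ⟨p, q, hq, h1, h2, h3⟩ := hj
  refine ⟨-p, q, hq, by rwa [abs_neg], h2, ?_⟩
  rw [Pi.neg_apply, h3]
  push_cast
  ring

theorem pb_inv (hY : ∀ j, j + 2 ≤ Y j) {f : ℕ → ℚ} (h : PB Y f) : PB Y (f⁻¹) := by
  obtain ⟨k, h⟩ := h
  refine ⟨k, ?_⟩
  filter_upwards [h] with j hj
  obtain ⟨p, q, hq, h1, h2, h3⟩ := hj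
  by_cases hp : p = 0
  · refine ⟨0, 1, one_ne_zero, by rw [abs_zero]; positivity, ?_, ?_⟩
    · rw [abs_one]
      exact one_le_pow₀ (by have := hY j; exact_mod_cast (by omega : 1 ≤ Y j))
    · rw [Pi.inv_apply, h3, hp]
      simp
  · refine ⟨q, p, hp, h2, h1, ?_⟩
    rw [Pi.inv_apply, h3, inv_div]

theorem one_le_Y (hY : ∀ j, j + 2 ≤ Y j) (j : ℕ) : (2 : ℤ) ≤ (Y j : ℤ) := by
  have := hY j
  exact_mod_cast (by omega : 2 ≤ Y j)

theorem pb_mul {f g : ℕ → ℚ} (hf : PB Y f) (hg : PB Y g) :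
    PB Y (f * g) := by
  obtain ⟨k, hf⟩ := hf
  obtain ⟨l, hg⟩ := hg
  refine ⟨k + l, ?_⟩
  filter_upwards [hf, hg] with j hj hj'
  obtain ⟨p, q, hq, h1, h2, h3⟩ := hj
  obtain ⟨p', q', hq', h1', h2', h3'⟩ := hj'
  refine ⟨p * p', q * q', mul_ne_zero hq hq', ?_, ?_, ?_⟩
  · rw [abs_mul, pow_add]
    exact mul_le_mul h1 h1' (abs_nonneg _) (by positivity)
  · rw [abs_mul, pow_add]
    exact mul_le_mul h2 h2' (abs_nonneg _) (by positivity)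
  · rw [Pi.mul_apply, h3, h3', div_mul_div_comm]
    push_cast
    rfl

theorem pb_add (hY : ∀ j, j + 2 ≤ Y j) {f g : ℕ → ℚ} (hf : PB Y f) (hg : PB Y g) :
    PB Y (f + g) := by
  obtain ⟨k, hf⟩ := hf
  obtain ⟨l, hg⟩ := hg
  refine ⟨k + l + 1, ?_⟩
  filter_upwards [hf, hg] with j hj hj'
  obtain ⟨p, q, hq, h1, h2, h3⟩ := hj
  obtain ⟨p', q', hq', h1', h2', h3'⟩ := hj'
  have hYj := one_le_Y hY j
  have hp0 : (0 : ℤ) ≤ (Y j : ℤ) ^ k := by positivity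
  have hp1 : (0 : ℤ) ≤ (Y j : ℤ) ^ l := by positivity
  have e1 : |p * q'| ≤ (Y j : ℤ) ^ (k + l) := by
    rw [abs_mul, pow_add]
    exact mul_le_mul h1 h2' (abs_nonneg _) hp0
  have e2 : |p' * q| ≤ (Y j : ℤ) ^ (k + l) := by
    rw [abs_mul, pow_add, mul_comm]
    exact mul_le_mul h2 h1' (abs_nonneg _) hp0
  have e3 : |q * q'| ≤ (Y j : ℤ) ^ (k + l) := by
    rw [abs_mul, pow_add]
    exact mul_le_mul h2 h2' (abs_nonneg _) hp0
  have e4 : (0 : ℤ) ≤ (Y j : ℤ) ^ (k + l) := by positivity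
  have e5 : 2 * (Y j : ℤ) ^ (k + l) ≤ (Y j : ℤ) ^ (k + l + 1) := by
    rw [pow_succ]
    nlinarith
  refine ⟨p * q' + p' * q, q * q', mul_ne_zero hq hq', ?_, ?_, ?_⟩
  · have := abs_add_le (p * q') (p' * q)
    linarith
  · linarith
  · have hq1 : (q : ℚ) ≠ 0 := by exact_mod_cast hq
    have hq2 : (q' : ℚ) ≠ 0 := by exact_mod_cast hq'
    rw [Pi.add_apply, h3, h3']
    push_cast
    field_simp

end KFieldAux

open KFieldAux in
/-- The subfield of the germs of `PB` sequences. -/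
theorem exists_Kf (hY : ∀ j, j + 2 ≤ Y j) : ∃ K : Subfield (Germ UU ℚ),
    ∀ x : Germ UU ℚ, x ∈ K ↔ ∃ f : ℕ → ℚ, x = (f : Germ UU ℚ) ∧ PB Y f := by
  refine ⟨{
    carrier := {x | ∃ f : ℕ → ℚ, x = (f : Germ UU ℚ) ∧ PB Y f}
    mul_mem' := ?_
    one_mem' := ?_
    add_mem' := ?_
    zero_mem' := ?_
    neg_mem' := ?_
    inv_mem' := ?_ }, fun x => Iff.rfl⟩
  · rintro _ _ ⟨f, rfl, hf⟩ ⟨g, rfl, hg⟩
    exact ⟨f * g, rfl, pb_mul hf hg⟩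
  · refine ⟨fun _ => ((1 : ℤ) : ℚ), ?_, pb_int 1 (by simp)⟩
    simp only [Int.cast_one]
    rfl
  · rintro _ _ ⟨f, rfl, hf⟩ ⟨g, rfl, hg⟩
    exact ⟨f + g, rfl, pb_add hY hf hg⟩
  · refine ⟨fun _ => ((0 : ℤ) : ℚ), ?_, pb_int 0 (by simp)⟩
    simp only [Int.cast_zero]
    rfl
  · rintro _ ⟨f, rfl, hf⟩
    exact ⟨-f, rfl, pb_neg hf⟩
  · rintro _ ⟨f, rfl, hf⟩
    exact ⟨f⁻¹, rfl, pb_inv hY hf⟩

/-- the field of germs -/
noncomputable def Kf (hY : ∀ j, j + 2 ≤ Y j) : Subfield (Germ UU ℚ) := (exists_Kf hY).choose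

theorem mem_Kf (hY : ∀ j, j + 2 ≤ Y j) (x : Germ UU ℚ) :
    x ∈ Kf hY ↔ ∃ f : ℕ → ℚ, x = (f : Germ UU ℚ) ∧ PB Y f :=
  (exists_Kf hY).choose_spec x

end Pool.Agent.Lib.FewX
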