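import Pool.Agent.Lib.FewX.Seq

/-!
# FewX.LargeAlg: large sequences of sets  (1 h)

`UU` is `(hyperfilter ℕ : Filter ℕ)`; use `Filter.hyperfilter_le_cofinite`, `Nat.hyperfilter_le_atTop`
(or `Filter.Ultrafilter`-API: `Ultrafilter.eventually_or`, `Ultrafilter.eventually_not`).
`ev_ge`: `{j | n ≤ j}` is cofinite. `ev_rpow`: `C ≤ (j + 2)^η` for `j` large. `Large.or`: `(Z j).card ≤ 2 max (..)`, so for each `j` one of
`Y^η ≤ 2 card (A j)`, `Y^η ≤ 2 card (B j)`; the ultrafilter decides; `Y^(η/2) ≤ Y^η / 2` almost surely.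
`large_div`: `card (Z' j) ≥ Y^(η - η') `.
-/

open MvPolynomial Filter

namespace Pool.Agent.Lib.FewX

variable {Y : ℕ → ℕ}

theorem ev_ge (n : ℕ) : ∀ᶠ j in UU, n ≤ j :=
  Nat.hyperfilter_le_atTop (eventually_ge_atTop n)

theorem ev_rpow (hY : ∀ j, j + 2 ≤ Y j) {η : ℝ} (hη : 0 < η) (c : ℝ) :
    ∀ᶠ j in UU, c ≤ (Y j : ℝ) ^ η := by
  have h1 : ∀ᶠ j : ℕ in atTop, c ≤ ((j : ℕ) : ℝ) ^ η :=
    ((tendsto_rpow_atTop hη).comp tendsto_natCast_atTop_atTop).eventually_ge_atTop c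
  have h2 : ∀ᶠ j : ℕ in UU, c ≤ ((j : ℕ) : ℝ) ^ η := Nat.hyperfilter_le_atTop h1
  filter_upwards [h2] with j hj
  refine hj.trans (Real.rpow_le_rpow (Nat.cast_nonneg j) ?_ hη.le)
  have := hY j
  exact_mod_cast (by omega : j ≤ Y j)

theorem Large.mono {α β : Type} {Z : ℕ → Finset α} {Z' : ℕ → Finset β} (h : Large Y Z)
    (h1 : ∀ᶠ j in UU, (Z j).card ≤ (Z' j).card) : Large Y Z' := by
  obtain ⟨η, hη, h⟩ := h
  refine ⟨η, hη, ?_⟩
  filter_upwards [h, h1] with j hj h1j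
  exact hj.trans (by exact_mod_cast h1j)

namespace LargeAlgAux

theorem half (hY : ∀ j, j + 2 ≤ Y j) {β : Type} {A : ℕ → Finset β} {η : ℝ} (hη : 0 < η)
    (h : ∀ᶠ j in UU, (Y j : ℝ) ^ η ≤ 2 * (A j).card) : Large Y A := by
  refine ⟨η / 2, by linarith, ?_⟩
  filter_upwards [h, ev_rpow hY (half_pos hη) 2] with j hj h2
  have hpos : (0 : ℝ) < Y j := by
    have := hY j
    exact_mod_cast (by omega : 0 < Y j)
  have h3 : (Y j : ℝ) ^ η = (Y j : ℝ) ^ (η / 2) * (Y j : ℝ) ^ (η / 2) := by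
    rw [← Real.rpow_add hpos]
    congr 1
    ring
  rw [h3] at hj
  nlinarith [Real.rpow_pos_of_pos hpos (η / 2)]

end LargeAlgAux

open LargeAlgAux

theorem Large.or {α β γ : Type} {Z : ℕ → Finset α} {A : ℕ → Finset β} {B : ℕ → Finset γ}
    (hY : ∀ j, j + 2 ≤ Y j) (h : Large Y Z)
    (h1 : ∀ᶠ j in UU, (Z j).card ≤ (A j).card + (B j).card) : Large Y A ∨ Large Y B := by
  obtain ⟨η, hη, h⟩ := h
  have h2 : ∀ᶠ j in UU, ((Y j : ℝ) ^ η ≤ 2 * (A j).card) ∨ ((Y j : ℝ) ^ η ≤ 2 * (B j).card) := by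
    filter_upwards [h, h1] with j hj h1j
    have h3 : ((Z j).card : ℝ) ≤ (A j).card + (B j).card := by exact_mod_cast h1j
    rcases le_total ((A j).card : ℝ) ((B j).card : ℝ) with h4 | h4
    · right
      linarith
    · left
      linarith
  rcases Ultrafilter.eventually_or.1 h2 with h3 | h3
  · exact Or.inl (half hY hη h3)
  · exact Or.inr (half hY hη h3)

theorem large_div {α β : Type} {Z : ℕ → Finset α} {Z' : ℕ → Finset β} (hY : ∀ j, j + 2 ≤ Y j)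
    {η η' : ℝ} (h : η' < η) (h1 : ∀ᶠ j in UU, (Y j : ℝ) ^ η ≤ (Z j).card)
    (h2 : ∀ᶠ j in UU, ((Z j).card : ℝ) ≤ (Y j : ℝ) ^ η' * (Z' j).card) : Large Y Z' := by
  refine ⟨η - η', by linarith, ?_⟩
  filter_upwards [h1, h2] with j h1j h2j
  have hpos : (0 : ℝ) < Y j := by
    have := hY j
    exact_mod_cast (by omega : 0 < Y j)
  have h3 : (Y j : ℝ) ^ η = (Y j : ℝ) ^ η' * (Y j : ℝ) ^ (η - η') := by
    rw [← Real.rpow_add hpos]
    congr 1
    ring
  rw [h3] at h1j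
  exact le_of_mul_le_mul_left (h1j.trans h2j) (Real.rpow_pos_of_pos hpos η')

theorem Large.nonempty {α : Type} {Z : ℕ → Finset α} (hY : ∀ j, j + 2 ≤ Y j) (h : Large Y Z) :
    ∀ᶠ j in UU, (Z j).Nonempty := by
  obtain ⟨η, hη, h⟩ := h
  filter_upwards [h, ev_rpow hY hη 1] with j hj h1
  rw [← Finset.card_pos]
  have h2 : (1 : ℝ) ≤ (Z j).card := h1.trans hj
  exact_mod_cast h2

open Classical in
/-- removing a set which is not large -/
theorem Large.filter_not {α : Type} {Z : ℕ → Finset α} (hY : ∀ j, j + 2 ≤ Y j) (h : Large Y Z)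
    {p : ℕ → α → Prop} (h1 : ¬ Large Y (fun j => (Z j).filter (p j))) :
    Large Y (fun j => (Z j).filter (fun z => ¬ p j z)) := by
  refine (Large.or hY h (A := fun j => (Z j).filter (p j))
    (B := fun j => (Z j).filter (fun z => ¬ p j z)) (Filter.Eventually.of_forall fun j => ?_)).resolve_left h1
  exact (Finset.card_filter_add_card_filter_not (s := Z j) (p j)).ge

end Pool.Agent.Lib.FewX
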