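import Pool.Agent.Lib.FewX.Defs

/-!
# FewX.OdePS: a stable ideal vanishes along a formal path  (1.5 h)

`k` a field of characteristic `0`, `φ : Fin N → k⟦T⟧` with `φ_b' = τ_b` constant for `b ∈ B` and `P_i(φ) = 0` for `i ∉ B`.
`chain`: `(Q(φ))' = ∑ i, (∂_i Q)(φ) φ_i'` (induction on `Q`; `PowerSeries.derivative` is a derivation). Differentiating `P_i(φ) = 0` (`hP`: only the variables of `insert i B`): `(∂_i P_i)(φ) φ_i' = - ∑ b ∈ B, τ_b (∂_b P_i)(φ)`, so
`Jac(φ) φ_i' = ∑ b ∈ B, τ_b (vf b i)(φ)` for all `i` (for `i ∈ B` both sides are `Jac(φ) τ_i`): `ode_eq`.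
`ode_zero`: by induction on `n`: `T^n ∣ (F l)(φ)` for all `l`. Step: then `T^n ∣ Q(φ)` for all `Q` in the ideal, so `T^n ∣ Jac(φ) ((F l)(φ))'` (`ode_eq`, `hst`), `Jac(φ)` has constant coefficient `≠ 0`, so is a unit, so `T^n` divides the derivative of
`(F l)(φ)`, whose constant coefficient is `0`: characteristic `0`, so `T^(n+1) ∣ (F l)(φ)`. So `(F l)(φ) = 0`, and so for the whole ideal.
-/

open MvPolynomial

namespace Pool.Agent.Lib.FewX

variable {N : ℕ} {k : Type*} [Field k] [CharZero k] {B : Finset (Fin N)}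
  {P : Fin N → MvPolynomial (Fin N) k}

private theorem chainPS (φ : Fin N → PowerSeries k) (Q : MvPolynomial (Fin N) k) :
    PowerSeries.derivative k (aeval φ Q) =
      ∑ i, aeval φ (pderiv i Q) * PowerSeries.derivative k (φ i) := by
  induction Q using MvPolynomial.induction_on with
  | C a =>
    have h : (aeval φ (C a : MvPolynomial (Fin N) k)) = algebraMap k (PowerSeries k) a := by
      rw [← algebraMap_eq, AlgHom.commutes]
    rw [h, Derivation.map_algebraMap]
    simp
  | add p q hp hq =>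
    simp only [map_add, hp, hq, add_mul, Finset.sum_add_distrib]
  | mul_X p i hp =>
    have h1 : ∀ j, aeval φ (pderiv j (p * X i)) * PowerSeries.derivative k (φ j) =
        φ i * (aeval φ (pderiv j p) * PowerSeries.derivative k (φ j)) +
        (if j = i then aeval φ p * PowerSeries.derivative k (φ j) else 0) := by
      intro j
      rw [Derivation.leibniz, map_add, smul_eq_mul, smul_eq_mul, map_mul, map_mul, aeval_X]
      by_cases hj : j = i
      · subst hj
        rw [pderiv_X_self, map_one, if_pos rfl]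
        ring
      · rw [pderiv_X_of_ne (Ne.symm hj), map_zero, if_neg hj]
        ring
    rw [Finset.sum_congr rfl fun j _ => h1 j, Finset.sum_add_distrib, ← Finset.mul_sum, ← hp,
      Finset.sum_ite_eq' Finset.univ i, if_pos (Finset.mem_univ i), map_mul, aeval_X,
      Derivation.leibniz, smul_eq_mul, smul_eq_mul]
    ring

private theorem keyPS (hP : ∀ i, i ∉ B → (P i).vars ⊆ insert i B) (φ : Fin N → PowerSeries k)
    (τ : Fin N → k) (hτ : ∀ b ∈ B, PowerSeries.derivative k (φ b) = PowerSeries.C (τ b))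
    (hφ : ∀ i, i ∉ B → aeval φ (P i) = 0) (i : Fin N) :
    aeval φ (Jac B P) * PowerSeries.derivative k (φ i) =
      ∑ b ∈ B, PowerSeries.C (τ b) * aeval φ (vf B P b i) := by
  classical
  by_cases hi : i ∈ B
  · rw [Finset.sum_eq_single i]
    · simp only [vf, if_pos hi, if_true]
      rw [hτ i hi, mul_comm]
    · intro b _ hb
      simp only [vf, if_pos hi, if_neg (Ne.symm hb), map_zero, mul_zero]
    · intro h
      exact absurd hi h
  · have h1 : Jac B P = pderiv i (P i) * ∏ i' ∈ Bᶜ.erase i, pderiv i' (P i') :=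
      (Finset.mul_prod_erase _ _ (Finset.mem_compl.2 hi)).symm
    have h2 : ∑ j, aeval φ (pderiv j (P i)) * PowerSeries.derivative k (φ j) =
        aeval φ (pderiv i (P i)) * PowerSeries.derivative k (φ i) +
          ∑ b ∈ B, aeval φ (pderiv b (P i)) * PowerSeries.C (τ b) := by
      rw [← Finset.sum_subset (Finset.subset_univ (insert i B)), Finset.sum_insert hi]
      · congr 1
        exact Finset.sum_congr rfl fun b hb => by rw [hτ b hb]
      · intro j _ hj
        have h3 : pderiv j (P i) = 0 :=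
          pderiv_eq_zero_of_notMem_vars fun h => hj (hP i hi h)
        rw [h3, map_zero, zero_mul]
    have h3 := chainPS φ (P i)
    rw [hφ i hi, map_zero, h2] at h3
    have h4 : ∑ b ∈ B, PowerSeries.C (τ b) * aeval φ (vf B P b i) =
        -(aeval φ (∏ i' ∈ Bᶜ.erase i, pderiv i' (P i')) *
          ∑ b ∈ B, aeval φ (pderiv b (P i)) * PowerSeries.C (τ b)) := by
      rw [Finset.mul_sum, ← Finset.sum_neg_distrib]
      refine Finset.sum_congr rfl fun b _ => ?_
      simp only [vf, if_neg hi, map_mul, map_neg]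
      ring
    rw [h4, h1, map_mul]
    linear_combination (-(aeval φ (∏ i' ∈ Bᶜ.erase i, pderiv i' (P i')))) * h3

theorem ode_eq (hP : ∀ i, i ∉ B → (P i).vars ⊆ insert i B) (φ : Fin N → PowerSeries k)
    (τ : Fin N → k) (hτ : ∀ b ∈ B, PowerSeries.derivative k (φ b) = PowerSeries.C (τ b))
    (hφ : ∀ i, i ∉ B → aeval φ (P i) = 0) (Q : MvPolynomial (Fin N) k) :
    aeval φ (Jac B P) * PowerSeries.derivative k (aeval φ Q) =
      ∑ b ∈ B, PowerSeries.C (τ b) * aeval φ (Dd B P b Q) := by
  rw [chainPS, Finset.mul_sum]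
  have h1 : ∀ b ∈ B, PowerSeries.C (τ b) * aeval φ (Dd B P b Q) =
      ∑ i, PowerSeries.C (τ b) * aeval φ (vf B P b i) * aeval φ (pderiv i Q) := by
    intro b _
    simp only [Dd, map_sum, map_mul, Finset.mul_sum, mul_assoc]
  rw [Finset.sum_congr rfl h1, Finset.sum_comm]
  refine Finset.sum_congr rfl fun i _ => ?_
  rw [← Finset.sum_mul, ← keyPS hP φ τ hτ hφ i]
  ring

theorem ode_zero (hP : ∀ i, i ∉ B → (P i).vars ⊆ insert i B) (φ : Fin N → PowerSeries k)
    (τ : Fin N → k) (hτ : ∀ b ∈ B, PowerSeries.derivative k (φ b) = PowerSeries.C (τ b))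
    (hφ : ∀ i, i ∉ B → aeval φ (P i) = 0)
    (hJ : PowerSeries.constantCoeff (aeval φ (Jac B P)) ≠ 0) {r : ℕ}
    (F : Fin r → MvPolynomial (Fin N) k)
    (hst : ∀ b ∈ B, ∀ l, Dd B P b (F l) ∈ Ideal.span (Set.range F))
    (h0 : ∀ l, PowerSeries.constantCoeff (aeval φ (F l)) = 0) :
    ∀ Q ∈ Ideal.span (Set.range F), aeval φ Q = 0 := by
  have hideal : ∀ J : Ideal (PowerSeries k), (∀ l, aeval φ (F l) ∈ J) →
      ∀ Q ∈ Ideal.span (Set.range F), aeval φ Q ∈ J := by
    intro J hJ' Q hQ
    have h1 : Ideal.span (Set.range F) ≤ J.comap (aeval φ).toRingHom := by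
      rw [Ideal.span_le]
      rintro _ ⟨l, rfl⟩
      exact hJ' l
    exact h1 hQ
  have hunit : IsUnit (aeval φ (Jac B P)) := by
    rw [PowerSeries.isUnit_iff_constantCoeff]
    exact hJ.isUnit
  have key : ∀ n : ℕ, ∀ l, PowerSeries.X ^ n ∣ aeval φ (F l) := by
    intro n
    induction n with
    | zero => intro l; simp
    | succ n ih =>
      intro l
      have h1 : ∀ b ∈ B, (PowerSeries.X : PowerSeries k) ^ n ∣ aeval φ (Dd B P b (F l)) := by
        intro b hb
        have := hideal (Ideal.span {(PowerSeries.X : PowerSeries k) ^ n})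
          (fun l => Ideal.mem_span_singleton.2 (ih l)) _ (hst b hb l)
        exact Ideal.mem_span_singleton.1 this
      have h2 : (PowerSeries.X : PowerSeries k) ^ n ∣
          aeval φ (Jac B P) * PowerSeries.derivative k (aeval φ (F l)) := by
        rw [ode_eq hP φ τ hτ hφ (F l)]
        exact Finset.dvd_sum fun b hb => (h1 b hb).mul_left _
      have h3 : (PowerSeries.X : PowerSeries k) ^ n ∣
          PowerSeries.derivative k (aeval φ (F l)) := (hunit.dvd_mul_left).1 h2
      rw [PowerSeries.X_pow_dvd_iff] at h3 ⊢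
      intro m hm
      rcases m with _ | m
      · rw [PowerSeries.coeff_zero_eq_constantCoeff_apply]
        exact h0 l
      · have h4 := h3 m (by omega)
        rw [PowerSeries.coeff_derivative] at h4
        have h5 : ((m : k) + 1) ≠ 0 := by exact_mod_cast Nat.succ_ne_zero m
        exact (mul_eq_zero.1 h4).resolve_right h5
  have hz : ∀ l, aeval φ (F l) = 0 := by
    intro l
    ext m
    rw [map_zero]
    exact PowerSeries.X_pow_dvd_iff.1 (key (m + 1) l) m (Nat.lt_succ_self m)
  intro Q hQ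
  have := hideal ⊥ (fun l => by rw [hz l]; exact Ideal.zero_mem _) Q hQ
  exact (Ideal.mem_bot).1 this

end Pool.Agent.Lib.FewX
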