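import Pool.Agent.Lib.FewX.Seq
import Pool.Agent.Lib.FewX.EvPS
import Pool.Agent.Lib.FewX.HenselPS
import Pool.Agent.Lib.FewX.OdePS

/-!
# FewX.Path: two points of the same class have the same quotient  (2.5 h)

Base ring `R = ℤ_[ℓ]` (`Fact ℓ.Prime`), `k = ℚ_[ℓ]`. `z1 i - z0 i = ℓ * τ i` for `b ∈ B`. `φ_b = C (z0 b) + C (τ b) * X` for `b ∈ B`. For `i ∉ B`: `hensel_ps` for the polynomial in one variable obtained from `P i` by substituting `φ_b` for `X_b`
(`b ∈ B`; the other variables do not occur by `hP`, put `0`): its value at `C (z0 i)` has constant coefficient `eval z0 (P i) = 0` (`constantCoeff` is a ring hom), the derivative has constant coefficient `eval z0 (pderiv i (P i))`, an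
integer not divisible by `ℓ` (it divides `Jac (z0)`), a unit of `ℤ_[ℓ]`. So `φ : Fin N → R⟦T⟧` with `P_i(φ) = 0`, `constantCoeff (φ i) = z0 i` for all `i`.
Map to `k⟦T⟧` (injective) and apply `ode_zero` to the images of `P`, `F` (`hst`, `map_Dd`): the elements of the ideal vanish at `φ`, in particular `Ld e - Ld g` for every `b ∈ B` (`hQ`). Put `a = Xp e (φ)`, `c = Xp g (φ)`. By `ode_eq` for
`Q = Xp e` and `prodX_mul_Dd_Xp`: `Jac(φ) (∏ φ) a' = a ∑ τ_b (Ld b e)(φ)`, same for `c` and `g`, so `Jac(φ) (∏ φ) (a' c - a c') = 0`, so `a' c = a c'` (domain; `∏ φ` and `Jac(φ)` have nonzero constant coefficients `∏ z0`, `Jac(z0)`). Then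
`W = a * C c0 - C a0 * c` (`a0, c0` the constant coefficients, `c0 = ∏ z0^g ≠ 0`) has `W' c = W c'` and constant coefficient `0`: by induction `X^n ∣ W`, so `W = 0` (characteristic `0`, `c` is a unit). Back in `R⟦T⟧` (injective) and apply `ev`
(`exists_ev`): `(∏ ev(φ i)^(e i)) c0 = a0 ∏ ev(φ i)^(g i)`. Finally `ev (φ b) = z0 b + τ b ℓ = z1 b` for `b ∈ B`, and for `i ∉ B`: `y = ev (φ i)` and `z1 i` are both zeros of `P_i(z1_B, ·)`, both congruent to `z0 i` modulo `ℓ`, and the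
derivative at `z1 i` is a unit: `P(y) - P(z) = (y - z) (P'(z) + (y - z) *)`, so `y = z1 i`. Cast back to `ℤ`.
-/

open MvPolynomial

namespace Pool.Agent.Lib.FewX

namespace PathAux

section uni

variable {N : ℕ} {A : Type*} [CommRing A]

/-- evaluation of integral polynomials -/
noncomputable def ez (w : Fin N → A) : MvPolynomial (Fin N) ℤ →+* A :=
  eval₂Hom (Int.castRingHom A) w

theorem ez_X (w : Fin N → A) (i : Fin N) : ez w (X i) = w i := by simp [ez]

theorem ez_C (w : Fin N → A) (n : ℤ) : ez w (C n) = (n : A) := by simp [ez]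

/-- a ring homomorphism and evaluation of integral polynomials -/
theorem hom_ez {A' : Type*} [CommRing A'] (f : A →+* A') (w : Fin N → A)
    (Q : MvPolynomial (Fin N) ℤ) : f (ez w Q) = ez (fun j => f (w j)) Q := by
  have h : f.comp (ez w) = ez (fun j => f (w j)) := by
    apply MvPolynomial.ringHom_ext
    · intro n
      simp
    · intro i
      simp [ez_X]
  rw [← h]
  rfl

theorem ez_cast (z : Fin N → ℤ) (Q : MvPolynomial (Fin N) ℤ) :
    ez (fun j => (z j : A)) Q = ((eval z Q : ℤ) : A) := by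
  have h : (Int.castRingHom A).comp (eval z) = ez (fun j => (z j : A)) := by
    apply MvPolynomial.ringHom_ext
    · intro n
      simp
    · intro i
      simp [ez_X]
  rw [← h]
  rfl

theorem ez_congr {w w' : Fin N → A} {Q : MvPolynomial (Fin N) ℤ}
    (h : ∀ i ∈ Q.vars, w i = w' i) : ez w Q = ez w' Q :=
  eval₂Hom_congr' rfl (fun i hi _ => h i hi) rfl

/-- substitution of `w j` for `X j`, `j ≠ i` -/
noncomputable def pol (w : Fin N → A) (i : Fin N) (Q : MvPolynomial (Fin N) ℤ) : Polynomial A :=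
  ez (fun j => if j = i then Polynomial.X else Polynomial.C (w j)) Q

theorem pol_eval (w : Fin N → A) (i : Fin N) (Q : MvPolynomial (Fin N) ℤ) (y : A) :
    (pol w i Q).eval y = ez (Function.update w i y) Q := by
  unfold pol
  have h := hom_ez (Polynomial.evalRingHom y)
    (fun j => if j = i then Polynomial.X else Polynomial.C (w j)) Q
  rw [Polynomial.coe_evalRingHom] at h
  rw [h]
  congr 2
  funext j
  by_cases hj : j = i
  · subst hj; simp
  · simp [hj]

theorem pol_derivative (w : Fin N → A) (i : Fin N) (Q : MvPolynomial (Fin N) ℤ) :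
    (pol w i Q).derivative = pol w i (pderiv i Q) := by
  unfold pol
  induction Q using MvPolynomial.induction_on with
  | C a => simp
  | add p q hp hq => simp [hp, hq]
  | mul_X p n hp =>
    rw [map_mul, Polynomial.derivative_mul, hp, Derivation.leibniz, map_add, smul_eq_mul,
      smul_eq_mul, map_mul, map_mul, ez_X]
    by_cases hn : n = i
    · subst hn
      simp only [if_true, Polynomial.derivative_X, pderiv_X_self, map_one]
      ring
    · rw [pderiv_X_of_ne hn]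
      simp only [hn, if_false, Polynomial.derivative_C, map_zero]
      ring

end uni

/-- uniqueness in Hensel's lemma -/
theorem hensel_unique {p : ℕ} [Fact p.Prime] (q : Polynomial ℤ_[p]) {y z : ℤ_[p]}
    (hy : q.eval y = 0) (hz : q.eval z = 0) (hd : IsUnit (q.derivative.eval z))
    (hyz : (p : ℤ_[p]) ∣ y - z) : y = z := by
  obtain ⟨k, hk⟩ := q.binomExpansion z (y - z)
  rw [add_sub_cancel, hy, hz] at hk
  have h1 : (y - z) * (q.derivative.eval z + k * (y - z)) = 0 := by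
    linear_combination -hk
  rcases mul_eq_zero.mp h1 with h | h
  · exact sub_eq_zero.mp h
  · exfalso
    have h2 : (p : ℤ_[p]) ∣ q.derivative.eval z := by
      have h3 : q.derivative.eval z = - (k * (y - z)) := by linear_combination h
      rw [h3]
      exact (hyz.mul_left k).neg_right
    rw [← PadicInt.norm_lt_one_iff_dvd] at h2
    exact absurd hd (PadicInt.not_isUnit_iff.mpr h2)

theorem isUnit_cast {p : ℕ} [Fact p.Prime] {n : ℤ} (h : ¬ (p : ℤ) ∣ n) :
    IsUnit (n : ℤ_[p]) := by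
  by_contra h1
  rw [PadicInt.not_isUnit_iff, PadicInt.norm_int_lt_one_iff_dvd] at h1
  exact h h1

/-- two power series with the same logarithmic derivative -/
theorem quot_const {k : Type*} [Field k] [CharZero k] (a c : PowerSeries k)
    (hc : PowerSeries.constantCoeff c ≠ 0)
    (h : PowerSeries.derivative k a * c = a * PowerSeries.derivative k c) :
    a * PowerSeries.C (PowerSeries.constantCoeff c) =
      PowerSeries.C (PowerSeries.constantCoeff a) * c := by
  have hu : c * c⁻¹ = 1 := PowerSeries.mul_inv_cancel c hc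
  have h1 : PowerSeries.derivative k (a * c⁻¹) = 0 := by
    rw [Derivation.leibniz, PowerSeries.derivative_inv', smul_eq_mul, smul_eq_mul]
    linear_combination (c⁻¹) ^ 2 * h - PowerSeries.derivative k a * c⁻¹ * hu
  have h2 : a * c⁻¹ = PowerSeries.C (PowerSeries.constantCoeff (a * c⁻¹)) := by
    apply PowerSeries.derivative.ext
    · rw [h1, PowerSeries.derivative_C]
    · rw [PowerSeries.constantCoeff_C]
  have h3 : a = PowerSeries.C (PowerSeries.constantCoeff (a * c⁻¹)) * c := by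
    rw [← h2]
    linear_combination (-a) * hu
  have h4 : PowerSeries.constantCoeff a =
      PowerSeries.constantCoeff (a * c⁻¹) * PowerSeries.constantCoeff c := by
    conv_lhs => rw [h3]
    rw [map_mul, PowerSeries.constantCoeff_C]
  rw [h4, map_mul]
  conv_lhs => rw [h3]
  ring

/-- the formal path -/
theorem exists_path {N : ℕ} {B : Finset (Fin N)} {P : Fin N → MvPolynomial (Fin N) ℤ}
    (hP : ∀ i, i ∉ B → (P i).vars ⊆ insert i B) (z0 : Fin N → ℤ) {ℓ : ℕ} [Fact ℓ.Prime]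
    (h0 : ∀ i, i ∉ B → eval z0 (P i) = 0)
    (hJ : ∀ i, i ∉ B → ¬ (ℓ : ℤ) ∣ eval z0 (pderiv i (P i))) (τ : Fin N → ℤ) :
    ∃ φ : Fin N → PowerSeries ℤ_[ℓ],
      (∀ b ∈ B, φ b = PowerSeries.C (z0 b : ℤ_[ℓ]) + PowerSeries.C (τ b : ℤ_[ℓ]) *
        PowerSeries.X) ∧
      (∀ i, i ∉ B → ez φ (P i) = 0) ∧
      ∀ i, PowerSeries.constantCoeff (φ i) = (z0 i : ℤ_[ℓ]) := by
  classical
  obtain ⟨w, hw⟩ : ∃ w : Fin N → PowerSeries ℤ_[ℓ], ∀ j, w j =
    PowerSeries.C (z0 j : ℤ_[ℓ]) + PowerSeries.C (τ j : ℤ_[ℓ]) * PowerSeries.X :=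
    ⟨_, fun _ => rfl⟩
  have hw0 : ∀ j, PowerSeries.constantCoeff (w j) = (z0 j : ℤ_[ℓ]) := by
    intro j
    simp [hw]
  have hup : ∀ i, (fun j => PowerSeries.constantCoeff
      (Function.update w i (PowerSeries.C (z0 i : ℤ_[ℓ])) j)) = fun j => (z0 j : ℤ_[ℓ]) := by
    intro i
    funext j
    by_cases hj : j = i
    · subst hj; simp
    · rw [Function.update_of_ne hj, hw0]
  have hex : ∀ i, ∃ y : PowerSeries ℤ_[ℓ], i ∉ B →
      (ez (Function.update w i y) (P i) = 0 ∧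
        PowerSeries.constantCoeff y = (z0 i : ℤ_[ℓ])) := by
    intro i
    by_cases hi : i ∈ B
    · exact ⟨0, fun h => absurd hi h⟩
    · obtain ⟨y, hy1, hy2⟩ := hensel_ps (pol w i (P i)) (z0 i : ℤ_[ℓ])
        (by rw [pol_eval, hom_ez, hup, ez_cast, h0 i hi, Int.cast_zero])
        (by
          rw [pol_derivative, pol_eval, hom_ez, hup, ez_cast]
          exact isUnit_cast (hJ i hi))
      exact ⟨y, fun _ => ⟨by rw [← pol_eval]; exact hy1, hy2⟩⟩
  choose y hy using hex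
  refine ⟨fun i => if i ∈ B then w i else y i, ?_, ?_, ?_⟩
  · intro b hb
    simp only [hb, if_true, hw]
  · intro i hi
    rw [← (hy i hi).1]
    refine ez_congr fun j hj => ?_
    rcases Finset.mem_insert.1 (hP i hi hj) with h | h
    · subst h
      simp [hi]
    · have hji : j ≠ i := fun h2 => hi (h2 ▸ h)
      simp only [h, if_true]
      rw [Function.update_of_ne hji]
  · intro i
    by_cases hi : i ∈ B
    · simp only [hi, if_true, hw0]
    · simp only [hi, if_false]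
      exact (hy i hi).2

/-- evaluation over a field -/
theorem aeval_toK {N : ℕ} {k : Type*} [Field k] (Φ : Fin N → PowerSeries k)
    (Q : MvPolynomial (Fin N) ℤ) :
    aeval Φ (MvPolynomial.map (Int.castRingHom k) Q) = ez Φ Q := by
  have h : ((aeval Φ : MvPolynomial (Fin N) k →ₐ[k] PowerSeries k) :
      MvPolynomial (Fin N) k →+* PowerSeries k).comp
      (MvPolynomial.map (Int.castRingHom k)) = ez Φ := by
    apply MvPolynomial.ringHom_ext
    · intro n
      simp
    · intro i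
      simp [ez_X]
  rw [← h]
  rfl

end PathAux

open PathAux

theorem path_eq {N : ℕ} {B : Finset (Fin N)} {P : Fin N → MvPolynomial (Fin N) ℤ}
    (hP : ∀ i, i ∉ B → (P i).vars ⊆ insert i B) {r : ℕ} (F : Fin r → MvPolynomial (Fin N) ℤ)
    (z0 z1 : Fin N → ℤ) (ℓ : ℕ) (hℓ : ℓ.Prime) (hcong : ∀ i, (ℓ : ℤ) ∣ z1 i - z0 i)
    (h0 : ∀ i, i ∉ B → eval z0 (P i) = 0) (h1 : ∀ i, i ∉ B → eval z1 (P i) = 0)
    (hJ : ¬ (ℓ : ℤ) ∣ eval z0 (Jac B P)) (hF : ∀ l, eval z0 (F l) = 0)
    (hst : ∀ b ∈ B, ∀ l, toQ (Dd B P b (F l)) ∈ spQ F) (e g : Fin N → ℕ)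
    (hQ : ∀ b ∈ B, toQ (Ld B P b e - Ld B P b g) ∈ spQ F) (hz0 : ∀ i, z0 i ≠ 0) :
    (∏ i, z1 i ^ e i) * ∏ i, z0 i ^ g i = (∏ i, z0 i ^ e i) * ∏ i, z1 i ^ g i := by
  classical
  have : Fact ℓ.Prime := ⟨hℓ⟩
  choose τ hτ using hcong
  have hJ1 : ∀ i, i ∉ B → ¬ (ℓ : ℤ) ∣ eval z0 (pderiv i (P i)) := by
    intro i hi h
    apply hJ
    unfold Jac
    rw [map_prod]
    exact h.trans (Finset.dvd_prod_of_mem (fun i => eval z0 (pderiv i (P i)))
      (Finset.mem_compl.2 hi))
  obtain ⟨φ, hφB, hφP, hφ0⟩ := exists_path hP z0 h0 hJ1 τ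
  -- the path over the field
  obtain ⟨ι, hι⟩ : ∃ ι : ℤ_[ℓ] →+* ℚ_[ℓ], Function.Injective ι :=
    ⟨algebraMap ℤ_[ℓ] ℚ_[ℓ], FaithfulSMul.algebraMap_injective ℤ_[ℓ] ℚ_[ℓ]⟩
  obtain ⟨Φ, hΦ⟩ : ∃ Φ : Fin N → PowerSeries ℚ_[ℓ], ∀ i, Φ i = PowerSeries.map ι (φ i) :=
    ⟨_, fun _ => rfl⟩
  have hΦ' : Φ = fun i => PowerSeries.map ι (φ i) := funext hΦ
  obtain ⟨toK, htoK⟩ : ∃ f : MvPolynomial (Fin N) ℤ →+* MvPolynomial (Fin N) ℚ_[ℓ],
      f = MvPolynomial.map (Int.castRingHom ℚ_[ℓ]) := ⟨_, rfl⟩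
  have hK : ∀ Q : MvPolynomial (Fin N) ℤ, aeval Φ (toK Q) = PowerSeries.map ι (ez φ Q) := by
    intro Q
    rw [hom_ez, htoK, aeval_toK, hΦ']
  have hΦ0 : ∀ j, PowerSeries.constantCoeff (Φ j) = ((z0 j : ℤ) : ℚ_[ℓ]) := by
    intro j
    rw [hΦ, ← PowerSeries.coeff_zero_eq_constantCoeff_apply, PowerSeries.coeff_map,
      PowerSeries.coeff_zero_eq_constantCoeff_apply, hφ0, map_intCast]
  have hK0 : ∀ Q : MvPolynomial (Fin N) ℤ,
      PowerSeries.constantCoeff (aeval Φ (toK Q)) = ((eval z0 Q : ℤ) : ℚ_[ℓ]) := by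
    intro Q
    rw [htoK, aeval_toK, hom_ez]
    simp only [hΦ0]
    rw [ez_cast]
  -- the hypotheses of `ode_zero`
  have hP' : ∀ i, i ∉ B → ((fun i => toK (P i)) i).vars ⊆ insert i B := by
    intro i hi
    rw [htoK]
    exact (MvPolynomial.vars_map _ _).trans (hP i hi)
  have hτ' : ∀ b ∈ B, PowerSeries.derivative ℚ_[ℓ] (Φ b) =
      PowerSeries.C ((τ b : ℤ) : ℚ_[ℓ]) := by
    intro b hb
    rw [hΦ, hφB b hb, map_add, map_mul, PowerSeries.map_C, PowerSeries.map_C,
      PowerSeries.map_X, map_add, Derivation.leibniz, PowerSeries.derivative_C,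
      PowerSeries.derivative_C, PowerSeries.derivative_X, map_intCast ι]
    simp
  have hφ' : ∀ i, i ∉ B → aeval Φ ((fun i => toK (P i)) i) = 0 := by
    intro i hi
    rw [hK, hφP i hi, map_zero]
  have hJac : toK (Jac B P) = Jac B (fun i => toK (P i)) := by
    rw [htoK]
    exact map_Jac _ B P
  have hJ' : PowerSeries.constantCoeff (aeval Φ (Jac B (fun i => toK (P i)))) ≠ 0 := by
    rw [← hJac, hK0]
    intro h
    apply hJ
    have h2 : eval z0 (Jac B P) = 0 := by exact_mod_cast h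
    rw [h2]
    exact dvd_zero _
  have hDd : ∀ b Q, toK (Dd B P b Q) = Dd B (fun i => toK (P i)) b (toK Q) := by
    intro b Q
    rw [htoK]
    exact map_Dd _ B P b Q
  have hLd : ∀ b e, toK (Ld B P b e) = Ld B (fun i => toK (P i)) b e := by
    intro b e
    rw [htoK]
    exact map_Ld _ B P b e
  have hspan : ∀ Q : MvPolynomial (Fin N) ℤ, toQ Q ∈ spQ F →
      toK Q ∈ Ideal.span (Set.range fun l => toK (F l)) := by
    intro Q hQ
    have h2 := Ideal.mem_map_of_mem (MvPolynomial.map (algebraMap ℚ ℚ_[ℓ])) hQ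
    unfold spQ at h2
    rw [Ideal.map_span, ← Set.range_comp] at h2
    have h3 : ∀ Q : MvPolynomial (Fin N) ℤ,
        MvPolynomial.map (algebraMap ℚ ℚ_[ℓ]) (toQ Q) = toK Q := by
      intro Q
      rw [MvPolynomial.map_map, htoK]
      congr 1
    rw [h3] at h2
    have h4 : (⇑(MvPolynomial.map (algebraMap ℚ ℚ_[ℓ])) ∘ fun l => toQ (F l)) =
        fun l => toK (F l) := by
      funext l
      exact h3 (F l)
    rw [h4] at h2
    exact h2
  have hzero := ode_zero hP' Φ (fun b => ((τ b : ℤ) : ℚ_[ℓ])) hτ' hφ' hJ' (fun l => toK (F l))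
    (fun b hb l => by
      rw [← hDd]
      exact hspan _ (hst b hb l))
    (fun l => by rw [hK0, hF l, Int.cast_zero])
  have hLL : ∀ b ∈ B, aeval Φ (Ld B (fun i => toK (P i)) b e) =
      aeval Φ (Ld B (fun i => toK (P i)) b g) := by
    intro b hb
    have h2 := hzero _ (hspan _ (hQ b hb))
    rw [map_sub, hLd, hLd, map_sub] at h2
    exact sub_eq_zero.mp h2
  -- the quotient
  have hXp : ∀ e : Fin N → ℕ, toK (Xp ℤ e) = Xp ℚ_[ℓ] e := by
    intro e
    rw [htoK]
    simp [Xp]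
  have hlog : ∀ e : Fin N → ℕ, aeval Φ (∏ i, (X i : MvPolynomial (Fin N) ℚ_[ℓ])) *
      (aeval Φ (Jac B (fun i => toK (P i))) *
        PowerSeries.derivative ℚ_[ℓ] (aeval Φ (Xp ℚ_[ℓ] e))) =
      aeval Φ (Xp ℚ_[ℓ] e) * ∑ b ∈ B, PowerSeries.C ((τ b : ℤ) : ℚ_[ℓ]) *
        aeval Φ (Ld B (fun i => toK (P i)) b e) := by
    intro e
    rw [ode_eq hP' Φ (fun b => ((τ b : ℤ) : ℚ_[ℓ])) hτ' hφ' (Xp ℚ_[ℓ] e), Finset.mul_sum,
      Finset.mul_sum]
    refine Finset.sum_congr rfl fun b _ => ?_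
    have h2 := congrArg (aeval Φ) (prodX_mul_Dd_Xp (R := ℚ_[ℓ]) (B := B)
      (P := fun i => toK (P i)) (b := b) e)
    rw [map_mul, map_mul] at h2
    linear_combination PowerSeries.C ((τ b : ℤ) : ℚ_[ℓ]) * h2
  have hprod0 : ∀ s : Fin N → ℕ, PowerSeries.constantCoeff (aeval Φ (Xp ℚ_[ℓ] s)) =
      ((∏ i, z0 i ^ s i : ℤ) : ℚ_[ℓ]) := by
    intro s
    rw [← hXp, hK0, eval_Xp]
  have hprod0' : ∀ s : Fin N → ℕ, (∏ i, z0 i ^ s i : ℤ) ≠ 0 := fun s =>
    Finset.prod_ne_zero_iff.mpr fun i _ => pow_ne_zero _ (hz0 i)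
  have hPi : aeval Φ (∏ i, (X i : MvPolynomial (Fin N) ℚ_[ℓ])) ≠ 0 := by
    intro h
    have h2 : (∏ i, (X i : MvPolynomial (Fin N) ℚ_[ℓ])) = Xp ℚ_[ℓ] (fun _ => 1) := by
      simp [Xp]
    have h3 := hprod0 (fun _ => 1)
    rw [← h2, h, map_zero] at h3
    exact hprod0' (fun _ => 1) (by exact_mod_cast h3.symm)
  have hJne : aeval Φ (Jac B (fun i => toK (P i))) ≠ 0 := by
    intro h
    rw [h, map_zero] at hJ'
    exact hJ' rfl
  have hder : PowerSeries.derivative ℚ_[ℓ] (aeval Φ (Xp ℚ_[ℓ] e)) * aeval Φ (Xp ℚ_[ℓ] g) =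
      aeval Φ (Xp ℚ_[ℓ] e) * PowerSeries.derivative ℚ_[ℓ] (aeval Φ (Xp ℚ_[ℓ] g)) := by
    have h2 := hlog e
    have h3 := hlog g
    rw [Finset.sum_congr rfl (fun b hb => by rw [hLL b hb])] at h2
    apply mul_left_cancel₀ hPi
    apply mul_left_cancel₀ hJne
    linear_combination aeval Φ (Xp ℚ_[ℓ] g) * h2 - aeval Φ (Xp ℚ_[ℓ] e) * h3
  have hquot := quot_const _ _ (by
    rw [hprod0 g]
    exact_mod_cast hprod0' g) hder
  rw [hprod0, hprod0, ← hXp, ← hXp, hK, hK] at hquot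
  -- back to `ℤ_[ℓ]`
  have hR : ez φ (Xp ℤ e) * PowerSeries.C ((∏ i, z0 i ^ g i : ℤ) : ℤ_[ℓ]) =
      PowerSeries.C ((∏ i, z0 i ^ e i : ℤ) : ℤ_[ℓ]) * ez φ (Xp ℤ g) := by
    apply PowerSeries.map_injective ι hι
    rw [map_mul, map_mul, PowerSeries.map_C, PowerSeries.map_C, map_intCast ι, map_intCast ι]
    exact hquot
  obtain ⟨ev, hevX, hevC, hevd⟩ := exists_ev ℓ
  have hev := congrArg ev hR
  rw [map_mul, map_mul, hevC, hevC, hom_ez, hom_ez] at hev
  have hend : ∀ i, ev (φ i) = (z1 i : ℤ_[ℓ]) := by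
    have hB : ∀ b ∈ B, ev (φ b) = (z1 b : ℤ_[ℓ]) := by
      intro b hb
      rw [hφB b hb, map_add, map_mul, hevC, hevC, hevX]
      have h2 := hτ b
      have h3 : z1 b = z0 b + τ b * ℓ := by linear_combination h2
      rw [h3]
      push_cast
      ring
    intro i
    by_cases hi : i ∈ B
    · exact hB i hi
    have hval : ∀ y : ℤ_[ℓ], (pol (fun j => (z1 j : ℤ_[ℓ])) i (P i)).eval y =
        ez (Function.update (fun j => (z1 j : ℤ_[ℓ])) i y) (P i) := fun y => pol_eval _ _ _ _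
    have hz1 : ∀ Q, ez (Function.update (fun j => (z1 j : ℤ_[ℓ])) i (z1 i : ℤ_[ℓ])) Q =
        ((eval z1 Q : ℤ) : ℤ_[ℓ]) := by
      intro Q
      rw [← ez_cast, Function.update_eq_self]
    refine hensel_unique (pol (fun j => (z1 j : ℤ_[ℓ])) i (P i)) ?_ ?_ ?_ ?_
    · rw [hval]
      have h2 := congrArg ev (hφP i hi)
      rw [map_zero, hom_ez] at h2
      rw [← h2]
      refine ez_congr fun j hj => ?_
      rcases Finset.mem_insert.1 (hP i hi hj) with h | h
      · subst h; simp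
      · have hji : j ≠ i := fun h2 => hi (h2 ▸ h)
        rw [Function.update_of_ne hji, hB j h]
    · rw [hval, hz1, h1 i hi, Int.cast_zero]
    · rw [pol_derivative, pol_eval, hz1]
      refine isUnit_cast fun h => hJ1 i hi ?_
      have h2 : (ℓ : ℤ) ∣ eval z1 (pderiv i (P i)) - eval z0 (pderiv i (P i)) := by
        have h3 : ∀ Q : MvPolynomial (Fin N) ℤ, (ℓ : ℤ) ∣ eval z1 Q - eval z0 Q := by
          intro Q
          induction Q using MvPolynomial.induction_on with
          | C a => simp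
          | add p q hp hq =>
            rw [map_add, map_add]
            have := hp.add hq
            convert! this using 1
            ring
          | mul_X p n hp =>
            rw [map_mul, map_mul, eval_X, eval_X]
            have h4 : (ℓ : ℤ) ∣ z1 n - z0 n := ⟨τ n, hτ n⟩
            have := (hp.mul_right (z1 n)).add (h4.mul_left (eval z0 p))
            convert! this using 1
            ring
        exact h3 _
      have h3 := h.sub h2
      convert! h3 using 1
      ring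
    · have h2 := hevd (φ i)
      rw [hφ0] at h2
      have h3 : (ℓ : ℤ_[ℓ]) ∣ (z1 i : ℤ_[ℓ]) - (z0 i : ℤ_[ℓ]) := by
        refine ⟨(τ i : ℤ_[ℓ]), ?_⟩
        have h4 := congrArg (fun n : ℤ => (n : ℤ_[ℓ])) (hτ i)
        push_cast at h4
        exact h4
      have h5 := h2.sub h3
      convert! h5 using 1
      ring
  simp only [hend] at hev
  rw [ez_cast, ez_cast, eval_Xp, eval_Xp] at hev
  exact_mod_cast hev

end Pool.Agent.Lib.FewX
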