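import Pool.Agent.Lib.FewX.StabU
import Pool.Agent.Lib.FewX.ChartU
import Pool.Agent.Lib.FewX.Path

/-!
# FewX.PointsU: no large sequence of points  (1.5 h)

Suppose `Z0` large. `exists_chart`: `Z ⊆ Z0`, chart; `ABC` and injectivity pass to `Z`. Remove the zeros of the `pderiv i (P j i)`, `i ∉ B`: `Z'` large with `Jac (z) ≠ 0`. `class_choice` with `Δ j z = eval z (Jac B (P j))` (`bdE_Jac`, `bdE_eval`; `Y^k ≤ exp (Y^ε)`; `n = 0`):
`C ⊆ Z'` large. For almost all `j` (finitely many conditions: `Pvars`, `Pvan`, `Fvan`, `stab` for all `b ∈ B`, `l`; `ldiff` for all `b ∈ B`), `path_eq` for `z0, z1 ∈ C j`: `(∏ z1^e) (∏ z0^g) = (∏ z0^e) (∏ z1^g)`. Times `α γ`: `a1 c0 = a0 c1`; `a0, c0` coprime (`c = a + b`),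
`a1, c1` coprime, all positive: `a1 = a0`, `c1 = c0`: so `z1 = z0` by `hinj`. So `C j` has at most one element, but `Large` gives `card (C j) ≥ Y^η ≥ 2` (`ev_rpow`).
-/

open MvPolynomial Filter

namespace Pool.Agent.Lib.FewX

namespace PointsUAux

theorem coprime_eq {a0 b0 c0 a1 b1 c1 : ℤ} (ha0 : 0 < a0) (ha1 : 0 < a1)
    (h0 : a0 + b0 = c0) (h1 : a1 + b1 = c1) (hc0 : IsCoprime a0 b0) (hc1 : IsCoprime a1 b1)
    (h : a1 * c0 = a0 * c1) : a0 = a1 ∧ c0 = c1 := by
  have k0 : IsCoprime a0 c0 := by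
    rw [← h0]
    have := IsCoprime.add_mul_left_right hc0 1
    rwa [mul_one, add_comm] at this
  have k1 : IsCoprime a1 c1 := by
    rw [← h1]
    have := IsCoprime.add_mul_left_right hc1 1
    rwa [mul_one, add_comm] at this
  have d0 : a0 ∣ a1 := k0.dvd_of_dvd_mul_right (h ▸ Dvd.intro _ rfl)
  have d1 : a1 ∣ a0 := k1.dvd_of_dvd_mul_right (h ▸ Dvd.intro _ rfl)
  have e : a0 = a1 := Int.dvd_antisymm ha0.le ha1.le d0 d1
  refine ⟨e, ?_⟩
  rw [← e] at h
  exact mul_left_cancel₀ ha0.ne' h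

end PointsUAux

theorem points_U {N : ℕ} {Y : ℕ → ℕ} (hY : ∀ j, j + 2 ≤ Y j) (Z : ℕ → Finset (Fin N → ℤ))
    (α β γ : ℕ → ℤ) (e f g : ℕ → Fin N → ℕ) (habc : ABC Y Z α β γ e f g)
    (hinj : ∀ j, ∀ z ∈ Z j, ∀ z' ∈ Z j, α j * ∏ i, z i ^ e j i = α j * ∏ i, z' i ^ e j i →
      γ j * ∏ i, z i ^ g j i = γ j * ∏ i, z' i ^ g j i → z = z') : ¬ Large Y Z := by
  classical
  intro hL0
  obtain ⟨Z1, B, P, r, F, hZ1, ch⟩ := exists_chart hY hL0
  have habc1 : ABC Y Z1 α β γ e f g := ⟨habc.1, fun j z hz => habc.2 j z (hZ1 j hz)⟩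
  have hbox : ∀ j, ∀ z ∈ Z1 j, ∀ i, |z i| ≤ Y j := by
    intro j z hz i
    obtain ⟨h1, h2⟩ := (habc1.2 j z hz).1 i
    rw [abs_of_pos (by omega)]
    exact h2
  have hL := ch.large
  have hYr : ∀ j, (1 : ℝ) ≤ Y j := fun j => by
    have := hY j
    exact_mod_cast (by omega : 1 ≤ Y j)
  -- remove the zeros of the derivatives
  have hfil : ∀ s : Finset (Fin N), s ⊆ Bᶜ →
      Large Y (fun j => (Z1 j).filter (fun z => ∀ i ∈ s, eval z (pderiv i (P j i)) ≠ 0)) := by
    intro s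
    induction s using Finset.induction_on with
    | empty =>
      intro _
      refine hL.mono (Eventually.of_forall fun j => ?_)
      simp
    | insert i s his ih =>
      intro hs'
      have hiB : i ∉ B := Finset.mem_compl.1 (hs' (Finset.mem_insert_self i s))
      have h1 := ih (fun x hx => hs' (Finset.mem_insert_of_mem hx))
      have h2 : ¬ Large Y (fun j => ((Z1 j).filter
          (fun z => ∀ i ∈ s, eval z (pderiv i (P j i)) ≠ 0)).filter
            (fun z => eval z (pderiv i (P j i)) = 0)) := by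
        refine ch.Pder i hiB _ (fun j => ?_) (Eventually.of_forall fun j z hz => ?_)
        · exact ((Finset.filter_subset _ _).trans (Finset.filter_subset _ _))
        · exact (Finset.mem_filter.1 hz).2
      have h3 := Large.filter_not hY h1 (p := fun j z => eval z (pderiv i (P j i)) = 0)
        (by convert h2)
      refine h3.mono (Eventually.of_forall fun j => Finset.card_le_card fun z hz => ?_)
      simp only [Finset.mem_filter, Finset.mem_insert, forall_eq_or_imp] at hz ⊢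
      exact ⟨hz.1.1, hz.2, hz.1.2⟩
  have hL2 := hfil Bᶜ (Finset.Subset.refl _)
  obtain ⟨Z2, hZ2⟩ : ∃ Z2 : ℕ → Finset (Fin N → ℤ), Z2 = fun j => (Z1 j).filter
    (fun z => ∀ i ∈ Bᶜ, eval z (pderiv i (P j i)) ≠ 0) := ⟨_, rfl⟩
  rw [← hZ2] at hL2
  have hZ2' : ∀ j, Z2 j ⊆ Z1 j := fun j => by rw [hZ2]; exact Finset.filter_subset _ _
  have hJne : ∀ j, ∀ z ∈ Z2 j, eval z (Jac B (P j)) ≠ 0 := by
    intro j z hz
    rw [hZ2] at hz
    unfold Jac
    rw [map_prod]
    exact Finset.prod_ne_zero_iff.2 fun i hi => (Finset.mem_filter.1 hz).2 i hi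
  obtain ⟨kJ, hkJ⟩ := bdE_eval hY (bdE_Jac hY ch.Pbd)
  obtain ⟨κ, ℓ, C, hκ, hCZ, hCL, hC⟩ := class_choice hY hL2
    (fun j z => eval z (Jac B (P j)))
    (Eventually.of_forall hJne)
    (by
      intro ε hε
      filter_upwards [hkJ, DMUAux.pow_le_exp hY kJ hε] with j h1 h3 z hz
      have h5 : ((|eval z (Jac B (P j))| : ℤ) : ℝ) ≤ (Y j : ℝ) ^ kJ := by
        exact_mod_cast h1 z (hbox j z (hZ2' j hz))
      exact h5.trans h3) 0
  have hCZ' : ∀ j, C j ⊆ Z1 j := fun j => (hCZ j).trans (hZ2' j)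
  have hvars : ∀ᶠ j in UU, ∀ i : Fin N, i ∉ B → (P j i).vars ⊆ insert i B := by
    rw [eventually_all]
    intro i
    by_cases hi : i ∈ B
    · exact Eventually.of_forall fun j h => absurd hi h
    · filter_upwards [ch.Pvars i hi] with j hj _
      exact hj
  have hvan : ∀ᶠ j in UU, ∀ i : Fin N, i ∉ B → ∀ z ∈ Z1 j, eval z (P j i) = 0 := by
    rw [eventually_all]
    intro i
    by_cases hi : i ∈ B
    · exact Eventually.of_forall fun j h => absurd hi h
    · filter_upwards [ch.Pvan i hi] with j hj _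
      exact hj
  have hFv : ∀ᶠ j in UU, ∀ l : Fin r, ∀ z ∈ Z1 j, eval z (F j l) = 0 := by
    rw [eventually_all]
    intro l
    exact ch.Fvan l
  have hst : ∀ᶠ j in UU, ∀ b : Fin N, b ∈ B → ∀ l : Fin r,
      toQ (Dd B (P j) b (F j l)) ∈ spQ (F j) := by
    rw [eventually_all]
    intro b
    by_cases hb : b ∈ B
    · have : ∀ᶠ j in UU, ∀ l : Fin r, toQ (Dd B (P j) b (F j l)) ∈ spQ (F j) := by
        rw [eventually_all]
        intro l
        exact stab hY ch hbox hb l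
      filter_upwards [this] with j hj _
      exact hj
    · exact Eventually.of_forall fun j h => absurd h hb
  have hld : ∀ᶠ j in UU, ∀ b : Fin N, b ∈ B →
      toQ (Ld B (P j) b (e j) - Ld B (P j) b (g j)) ∈ spQ (F j) := by
    rw [eventually_all]
    intro b
    by_cases hb : b ∈ B
    · filter_upwards [ldiff hY ch habc1 hb] with j hj _
      exact hj
    · exact Eventually.of_forall fun j h => absurd h hb
  obtain ⟨η, hη, hcard⟩ := hCL
  have hbad : ∀ᶠ j in UU, False := by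
    filter_upwards [hC, hvars, hvan, hFv, hst, hld, hcard, ev_rpow hY hη 2] with
      j h1 h2 h3 h4 h5 h6 h7 h8
    obtain ⟨hℓ, -, hdiv, hnd⟩ := h1
    have h9 : (2 : ℝ) ≤ (C j).card := h8.trans h7
    have h10 : 1 < (C j).card := by
      have : 2 ≤ (C j).card := by exact_mod_cast h9
      omega
    obtain ⟨z0, hz0, z1, hz1, hne⟩ := Finset.one_lt_card.1 h10
    have hz0Z := hCZ' j hz0
    have hz1Z := hCZ' j hz1
    obtain ⟨a1, a2, a3, a4, a5, a6, a7⟩ := habc1.2 j z0 hz0Z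
    obtain ⟨b1, b2, b3, b4, b5, b6, b7⟩ := habc1.2 j z1 hz1Z
    have hpath := path_eq (fun i hi => h2 i hi) (F j) z0 z1 (ℓ j) hℓ
      (fun i => hdiv z1 hz1 z0 hz0 i) (fun i hi => h3 i hi z0 hz0Z)
      (fun i hi => h3 i hi z1 hz1Z) (hnd z0 hz0) (fun l => h4 l z0 hz0Z)
      (fun b hb l => h5 b hb l) (e j) (g j) (fun b hb => h6 b hb)
      (fun i => by have := (a1 i).1; omega)
    have hk : (α j * ∏ i, z1 i ^ e j i) * (γ j * ∏ i, z0 i ^ g j i) =
        (α j * ∏ i, z0 i ^ e j i) * (γ j * ∏ i, z1 i ^ g j i) := by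
      linear_combination (α j * γ j) * hpath
    obtain ⟨c1, c2⟩ := PointsUAux.coprime_eq a2 b2 a4 b4 a5 b5 hk
    exact hne (hinj j z0 (hZ1 j hz0Z) z1 (hZ1 j hz1Z) c1 c2)
  obtain ⟨j, hj⟩ := hbad.exists
  exact hj

end Pool.Agent.Lib.FewX
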