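import Pool.Agent.Lib.FewX.RepD

/-!
# FewX.RepA: ring operations on representatives  (1.5 h)

`rep_of`: it is enough that the supports of the `G j` are in one finite set `S`: for `m ∈ S` with `coeff m Q = 0` the germ of
`coeff m (G j)` is `0`, so it is `0` almost surely (finitely many `m`). `rep_exists`: `G j = ∑ m ∈ Q.support, monomial m (c m j)` where
`c m` is a sequence with germ `coeff m Q` (`Quotient.exists_rep` / `Germ.inductionOn`). `rep_unique`: the coefficients in `Q.support` agree
almost surely. `rep_add`, `rep_mul` by `rep_of` (`coeff_mul`: finite sum over `antidiagonal m`; germ of a finite sum: `Germ.coe_add`, or the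
ring hom `Filter.Germ.coeRingHom`), the support of a product is in the finite set `Q.support + Q'.support`.
-/

open MvPolynomial Filter

namespace Pool.Agent.Lib.FewX

variable {N : ℕ} {Y : ℕ → ℕ} {hY : ∀ j, j + 2 ≤ Y j} {Q Q' : MvPolynomial (Fin N) (Kf hY)}
  {G G' : ℕ → MvPolynomial (Fin N) ℚ}

theorem rep_of (S : Finset (Fin N →₀ ℕ))
    (h1 : ∀ m, ((coeff m Q : Kf hY) : Germ UU ℚ) =
      ((fun j => coeff m (G j) : ℕ → ℚ) : Germ UU ℚ))
    (h2 : ∀ᶠ j in UU, (G j).support ⊆ S) : Rep Q G := by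
  refine ⟨h1, ?_⟩
  have h3 : ∀ᶠ j in UU, ∀ m ∈ S, coeff m Q = 0 → coeff m (G j) = 0 := by
    rw [Filter.eventually_all_finset]
    intro m _
    by_cases hm : coeff m Q = 0
    · have h4 := h1 m
      rw [hm] at h4
      have h5 : ((fun _ => (0 : ℚ) : ℕ → ℚ) : Germ UU ℚ) =
          ((fun j => coeff m (G j) : ℕ → ℚ) : Germ UU ℚ) := h4
      have h6 := Filter.Germ.coe_eq.1 h5
      filter_upwards [h6] with j hj _
      exact hj.symm
    · exact Filter.Eventually.of_forall fun j h => absurd h hm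
  filter_upwards [h2, h3] with j hj hj3 m hm
  by_contra hmQ
  rw [MvPolynomial.notMem_support_iff] at hmQ
  exact (MvPolynomial.mem_support_iff.1 hm) (hj3 m (hj hm) hmQ)

theorem rep_exists (Q : MvPolynomial (Fin N) (Kf hY)) : ∃ G, Rep Q G := by
  classical
  have h : ∀ m : Fin N →₀ ℕ, ∃ c : ℕ → ℚ, ((coeff m Q : Kf hY) : Germ UU ℚ) = (c : Germ UU ℚ) := by
    intro m
    induction ((coeff m Q : Kf hY) : Germ UU ℚ) using Filter.Germ.inductionOn with
    | _ f => exact ⟨f, rfl⟩
  choose c hc using h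
  have hco : ∀ (j : ℕ) (m : Fin N →₀ ℕ), coeff m (∑ m ∈ Q.support, monomial m (c m j)) =
      if m ∈ Q.support then c m j else 0 := by
    intro j m
    rw [MvPolynomial.coeff_sum]
    simp only [MvPolynomial.coeff_monomial]
    rw [Finset.sum_ite_eq' Q.support m (fun m => c m j)]
  refine ⟨fun j => ∑ m ∈ Q.support, monomial m (c m j), rep_of Q.support ?_ ?_⟩
  · intro m
    by_cases hm : m ∈ Q.support
    · rw [hc m]
      congr 1
      funext j
      rw [hco, if_pos hm]
    · have h0 : coeff m Q = 0 := MvPolynomial.notMem_support_iff.1 hm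
      have h1 : (fun j => coeff m (∑ m ∈ Q.support, monomial m (c m j)) : ℕ → ℚ) =
          fun _ => (0 : ℚ) := by
        funext j
        rw [hco, if_neg hm]
      rw [h0, h1]
      rfl
  · refine Filter.Eventually.of_forall fun j m hm => ?_
    by_contra hmQ
    rw [MvPolynomial.mem_support_iff, hco, if_neg hmQ] at hm
    exact hm rfl

theorem rep_unique (h : Rep Q G) (h' : Rep Q G') : ∀ᶠ j in UU, G j = G' j := by
  have h3 : ∀ᶠ j in UU, ∀ m ∈ Q.support, coeff m (G j) = coeff m (G' j) := by
    rw [Filter.eventually_all_finset]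
    intro m _
    exact Filter.Germ.coe_eq.1 ((h.1 m).symm.trans (h'.1 m))
  filter_upwards [h.2, h'.2, h3] with j h1 h2 h3
  ext m
  by_cases hm : m ∈ Q.support
  · exact h3 m hm
  · rw [MvPolynomial.notMem_support_iff.1 (fun h4 => hm (h1 h4)),
      MvPolynomial.notMem_support_iff.1 (fun h4 => hm (h2 h4))]

theorem rep_congr (h : Rep Q G) (h' : ∀ᶠ j in UU, G j = G' j) : Rep Q G' := by
  refine ⟨?_, ?_⟩
  · intro m
    rw [h.1 m]
    apply Filter.Germ.coe_eq.2
    filter_upwards [h'] with j hj
    rw [hj]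
  · filter_upwards [h.2, h'] with j h1 h2
    rw [← h2]
    exact h1

theorem rep_zero : Rep (0 : MvPolynomial (Fin N) (Kf hY)) (fun _ => 0) := by
  refine ⟨?_, ?_⟩
  · intro m
    rw [MvPolynomial.coeff_zero]
    have h1 : (fun _ => coeff m (0 : MvPolynomial (Fin N) ℚ) : ℕ → ℚ) = fun _ => (0 : ℚ) := by
      funext j
      rw [MvPolynomial.coeff_zero]
    rw [h1]
    rfl
  · exact Filter.Eventually.of_forall fun j => by simp

theorem rep_one : Rep (1 : MvPolynomial (Fin N) (Kf hY)) (fun _ => 1) := by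
  classical
  apply rep_of {0}
  · intro m
    by_cases hm : (0 : Fin N →₀ ℕ) = m
    · have h1 : (fun _ => coeff m (1 : MvPolynomial (Fin N) ℚ) : ℕ → ℚ) = fun _ => (1 : ℚ) := by
        funext j
        rw [MvPolynomial.coeff_one, if_pos hm]
      rw [MvPolynomial.coeff_one, if_pos hm, h1]
      rfl
    · have h1 : (fun _ => coeff m (1 : MvPolynomial (Fin N) ℚ) : ℕ → ℚ) = fun _ => (0 : ℚ) := by
        funext j
        rw [MvPolynomial.coeff_one, if_neg hm]
      rw [MvPolynomial.coeff_one, if_neg hm, h1]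
      rfl
  · refine Filter.Eventually.of_forall fun j m hm => ?_
    rw [MvPolynomial.mem_support_iff, MvPolynomial.coeff_one] at hm
    rw [Finset.mem_singleton]
    by_contra hne
    exact hm (if_neg (Ne.symm hne))

theorem rep_add (h : Rep Q G) (h' : Rep Q' G') : Rep (Q + Q') (fun j => G j + G' j) := by
  classical
  apply rep_of (Q.support ∪ Q'.support)
  · intro m
    rw [MvPolynomial.coeff_add]
    have h1 : (fun j => coeff m (G j + G' j) : ℕ → ℚ) =
        (fun j => coeff m (G j)) + fun j => coeff m (G' j) := by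
      funext j
      rw [MvPolynomial.coeff_add]
      rfl
    rw [h1, Filter.Germ.coe_add, ← h.1 m, ← h'.1 m]
    rfl
  · filter_upwards [h.2, h'.2] with j h1 h2
    exact (MvPolynomial.support_add).trans (Finset.union_subset_union h1 h2)

open Pointwise in
theorem rep_mul (h : Rep Q G) (h' : Rep Q' G') : Rep (Q * Q') (fun j => G j * G' j) := by
  classical
  apply rep_of (Q.support + Q'.support)
  · intro m
    have h1 : (fun j => coeff m (G j * G' j) : ℕ → ℚ) = ∑ x ∈ Finset.HasAntidiagonal.antidiagonal m,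
        (fun j => coeff x.1 (G j) : ℕ → ℚ) * (fun j => coeff x.2 (G' j) : ℕ → ℚ) := by
      funext j
      rw [MvPolynomial.coeff_mul, Finset.sum_apply]
      rfl
    have h2 : ((coeff m (Q * Q') : Kf hY) : Germ UU ℚ) = ∑ x ∈ Finset.HasAntidiagonal.antidiagonal m,
        ((coeff x.1 Q : Kf hY) : Germ UU ℚ) * ((coeff x.2 Q' : Kf hY) : Germ UU ℚ) := by
      rw [MvPolynomial.coeff_mul]
      have := map_sum (Kf hY).subtype (fun x : (Fin N →₀ ℕ) × (Fin N →₀ ℕ) =>
        coeff x.1 Q * coeff x.2 Q') (Finset.HasAntidiagonal.antidiagonal m)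
      simp only [map_mul] at this
      exact this
    rw [h1, h2]
    have h3 := map_sum (Filter.Germ.coeRingHom UU) (fun x : (Fin N →₀ ℕ) × (Fin N →₀ ℕ) =>
      (fun j => coeff x.1 (G j) : ℕ → ℚ) * (fun j => coeff x.2 (G' j) : ℕ → ℚ))
      (Finset.HasAntidiagonal.antidiagonal m)
    refine Eq.trans ?_ h3.symm
    refine Finset.sum_congr rfl fun x _ => ?_
    rw [map_mul, h.1 x.1, h'.1 x.2]
    rfl
  · filter_upwards [h.2, h'.2] with j h1 h2
    exact (MvPolynomial.support_mul _ _).trans (Finset.add_subset_add h1 h2)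

end Pool.Agent.Lib.FewX
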