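import Pool.Agent.Lib.FewX.RepA

/-!
# FewX.RepB: representatives: finite sums, derivatives, variables  (1.2 h)

`rep_sum` by induction from `rep_zero`, `rep_add`. `rep_pderiv`: `coeff m (pderiv i Q) = (m i + 1) * coeff (m + single i 1) Q`
(`MvPolynomial.coeff_pderiv`, or by writing `Q` as the sum of its monomials), and `rep_of`. `rep_eq_zero`: all germs are `0`.
`rep_vars`: the support of `G j` is in that of `Q`. `rep_vars_of`: a coefficient of `Q` which is not `0` is a germ which is not `0`, so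
`coeff m (G j) ≠ 0` almost surely (ultrafilter), so the variables of `m` are in `B`.
-/

open MvPolynomial Filter

namespace Pool.Agent.Lib.FewX

variable {N : ℕ} {Y : ℕ → ℕ} {hY : ∀ j, j + 2 ≤ Y j} {Q Q' : MvPolynomial (Fin N) (Kf hY)}
  {G G' : ℕ → MvPolynomial (Fin N) ℚ}

theorem rep_sum {ι : Type} (s : Finset ι) (Q : ι → MvPolynomial (Fin N) (Kf hY))
    (G : ι → ℕ → MvPolynomial (Fin N) ℚ) (h : ∀ i ∈ s, Rep (Q i) (G i)) :
    Rep (∑ i ∈ s, Q i) (fun j => ∑ i ∈ s, G i j) := by
  classical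
  induction s using Finset.induction_on with
  | empty => simpa using (rep_zero : Rep (0 : MvPolynomial (Fin N) (Kf hY)) (fun _ => 0))
  | insert a s ha ih =>
    have h1 := rep_add (h a (Finset.mem_insert_self a s))
      (ih fun i hi => h i (Finset.mem_insert_of_mem hi))
    simpa only [Finset.sum_insert ha] using h1

namespace RepBAux

/-- the monomials of the derivative -/
theorem support_pderiv {R : Type*} [CommRing R] (i : Fin N) (P : MvPolynomial (Fin N) R) :
    (pderiv i P).support ⊆ P.support.image (fun m => m - Finsupp.single i 1) := by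
  classical
  intro m hm
  rw [mem_support_iff, coeff_pderiv] at hm
  have h1 : coeff (m + Finsupp.single i 1) P ≠ 0 := fun h0 => hm (by rw [h0]; simp)
  refine Finset.mem_image.2 ⟨m + Finsupp.single i 1, mem_support_iff.2 h1, ?_⟩
  simp

end RepBAux

open RepBAux

theorem rep_pderiv (i : Fin N) (h : Rep Q G) :
    Rep (pderiv i Q) (fun j => pderiv i (G j)) := by
  classical
  refine rep_of (Q.support.image (fun m => m - Finsupp.single i 1)) (fun m => ?_) ?_
  · have h1 := h.1 (m + Finsupp.single i 1)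
    have h2 : (fun j => coeff m (pderiv i (G j)) : ℕ → ℚ) =
        (fun j => coeff (m + Finsupp.single i 1) (G j) : ℕ → ℚ) * (fun _ => ((m i : ℚ) + 1)) := by
      funext j
      simp only [coeff_pderiv, Pi.mul_apply]
    rw [h2, coeff_pderiv, Germ.coe_mul, ← h1]
    rfl
  · filter_upwards [h.2] with j hj
    exact (support_pderiv i (G j)).trans (Finset.image_subset_image hj)

theorem rep_eq_zero (h : Rep Q G) (h0 : ∀ᶠ j in UU, G j = 0) : Q = 0 := by
  ext m
  have h1 := h.1 m
  have h2 : ((fun j => coeff m (G j) : ℕ → ℚ) : Germ UU ℚ) = ((fun _ => 0 : ℕ → ℚ) : Germ UU ℚ) := by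
    refine Germ.coe_eq.2 ?_
    filter_upwards [h0] with j hj
    rw [hj, coeff_zero]
  rw [h2] at h1
  rw [coeff_zero]
  exact h1

theorem rep_vars (h : Rep Q G) : ∀ᶠ j in UU, (G j).vars ⊆ Q.vars := by
  filter_upwards [h.2] with j hj
  intro i hi
  obtain ⟨d, hd, hdi⟩ := (mem_vars_iff_mem_support i).1 hi
  exact (mem_vars_iff_mem_support i).2 ⟨d, hj hd, hdi⟩

theorem rep_vars_of {B : Finset (Fin N)} (h : Rep Q G) (h0 : ∀ᶠ j in UU, (G j).vars ⊆ B) :
    Q.vars ⊆ B := by
  intro i hi
  obtain ⟨d, hd, hdi⟩ := (mem_vars_iff_mem_support i).1 hi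
  by_contra hB
  have h1 : ∀ᶠ j in UU, coeff d (G j) = 0 := by
    filter_upwards [h0] with j hj
    by_contra h2
    exact hB (hj ((mem_vars_iff_mem_support i).2 ⟨d, mem_support_iff.2 h2, hdi⟩))
  have h2 : ((fun j => coeff d (G j) : ℕ → ℚ) : Germ UU ℚ) = ((fun _ => 0 : ℕ → ℚ) : Germ UU ℚ) :=
    Germ.coe_eq.2 h1
  have h3 := h.1 d
  rw [h2] at h3
  have h4 : ((coeff d Q : Kf hY) : Germ UU ℚ) = ((0 : Kf hY) : Germ UU ℚ) := h3
  exact mem_support_iff.1 hd (Subtype.ext h4)

end Pool.Agent.Lib.FewX
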