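import Pool.Agent.Lib.FewX.KField

/-!
# FewX.RepD: sequences of polynomials representing a polynomial over the field of germs (definition)
-/

open MvPolynomial Filter

namespace Pool.Agent.Lib.FewX

variable {N : ℕ} {Y : ℕ → ℕ} {hY : ∀ j, j + 2 ≤ Y j}

/-- `G` represents `Q`: the coefficients of `Q` are the germs of the coefficients of `G j`, and the monomials of
`G j` are monomials of `Q`, almost surely. -/
def Rep (Q : MvPolynomial (Fin N) (Kf hY)) (G : ℕ → MvPolynomial (Fin N) ℚ) : Prop :=
  (∀ m, ((coeff m Q : Kf hY) : Germ UU ℚ) = ((fun j => coeff m (G j) : ℕ → ℚ) : Germ UU ℚ)) ∧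
    ∀ᶠ j in UU, (G j).support ⊆ Q.support

end Pool.Agent.Lib.FewX
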