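import Pool.Agent.Lib.FewX.Defs

/-!
# FewX.Seq: large sequences of sets, bounded sequences of polynomials, charts

`UU` is a nonprincipal ultrafilter on `ℕ`, `Y j → ∞` a sequence of integers (always `j + 2 ≤ Y j`).
A sequence of finite sets is `Large` if its cardinality is at least a fixed power of `Y j` for almost all `j`.
`BdE G`: the polynomials `G j` have bounded degree and coefficients at most a fixed power of `Y j`.
-/

open MvPolynomial Filter

namespace Pool.Agent.Lib.FewX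

/-- a nonprincipal ultrafilter on `ℕ` -/
noncomputable abbrev UU : Filter ℕ := (hyperfilter ℕ : Filter ℕ)

variable {N : ℕ} (Y : ℕ → ℕ)

/-- the cardinality is at least a power of `Y j` -/
def Large {α : Type} (Z : ℕ → Finset α) : Prop :=
  ∃ η : ℝ, 0 < η ∧ ∀ᶠ j in UU, (Y j : ℝ) ^ η ≤ (Z j).card

/-- degree at most `k`, coefficients at most `Y j ^ k` -/
def Bd (k : ℕ) (G : ℕ → MvPolynomial (Fin N) ℤ) : Prop :=
  ∀ᶠ j in UU, (G j).totalDegree ≤ k ∧ ∀ m, |coeff m (G j)| ≤ (Y j : ℤ) ^ k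

/-- a bounded sequence of polynomials -/
def BdE (G : ℕ → MvPolynomial (Fin N) ℤ) : Prop := ∃ k, Bd Y k G

/-- `G j` vanishes on `Z j` for almost all `j` -/
def VanOn (Z : ℕ → Finset (Fin N → ℤ)) (G : ℕ → MvPolynomial (Fin N) ℤ) : Prop :=
  ∀ᶠ j in UU, ∀ z ∈ Z j, eval z (G j) = 0

/-- the polynomial with rational coefficients -/
noncomputable abbrev toQ : MvPolynomial (Fin N) ℤ →+* MvPolynomial (Fin N) ℚ :=
  map (Int.castRingHom ℚ)

/-- the ideal of `ℚ[X]` generated by the polynomials `F l` -/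
noncomputable def spQ {r : ℕ} (F : Fin r → MvPolynomial (Fin N) ℤ) :
    Ideal (MvPolynomial (Fin N) ℚ) :=
  Ideal.span (Set.range fun l => toQ (F l))

/-- A chart of the large sequence `Z`: coordinates `B`, equations `P j i` for `i ∉ B`, generators `F j l` of
the ideal of `Z`, such that every bounded sequence of polynomials vanishing on a large subsequence of `Z` is in the
ideal of the `F j l`, and no nonzero one in the variables of `B` only, or of the form `∂_i (P j i)`, does. -/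
structure Chart (Z : ℕ → Finset (Fin N → ℤ)) (B : Finset (Fin N))
    (P : ℕ → Fin N → MvPolynomial (Fin N) ℤ) {r : ℕ}
    (F : ℕ → Fin r → MvPolynomial (Fin N) ℤ) : Prop where
  large : Large Y Z
  indep : ∀ G : ℕ → MvPolynomial (Fin N) ℤ, BdE Y G →
    (∀ᶠ j in UU, G j ≠ 0 ∧ (G j).vars ⊆ B) →
    ∀ Z' : ℕ → Finset (Fin N → ℤ), (∀ j, Z' j ⊆ Z j) → VanOn Z' G → ¬ Large Y Z'
  Pbd : ∀ i, i ∉ B → BdE Y (fun j => P j i)
  Pvars : ∀ i, i ∉ B → ∀ᶠ j in UU, (P j i).vars ⊆ insert i B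
  Pvan : ∀ i, i ∉ B → VanOn Z (fun j => P j i)
  Pder : ∀ i, i ∉ B → ∀ Z' : ℕ → Finset (Fin N → ℤ), (∀ j, Z' j ⊆ Z j) →
    VanOn Z' (fun j => pderiv i (P j i)) → ¬ Large Y Z'
  Fbd : ∀ l, BdE Y (fun j => F j l)
  Fvan : ∀ l, VanOn Z (fun j => F j l)
  gen : ∀ Q : ℕ → MvPolynomial (Fin N) ℤ, BdE Y Q →
    ∀ Z' : ℕ → Finset (Fin N → ℤ), (∀ j, Z' j ⊆ Z j) → Large Y Z' → VanOn Z' Q →
    ∀ᶠ j in UU, toQ (Q j) ∈ spQ (F j)

/-- `α X^e + β X^f - γ X^g` -/
noncomputable def EE (α β γ : ℤ) (e f g : Fin N → ℕ) : MvPolynomial (Fin N) ℤ :=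
  C α * Xp ℤ e + C β * Xp ℤ f - C γ * Xp ℤ g

theorem eval_Xp {N : ℕ} (e : Fin N → ℕ) (z : Fin N → ℤ) : eval z (Xp ℤ e) = ∏ i, z i ^ e i := by
  simp [Xp]

theorem eval_EE {N : ℕ} (α β γ : ℤ) (e f g : Fin N → ℕ) (z : Fin N → ℤ) :
    eval z (EE α β γ e f g) = α * ∏ i, z i ^ e i + β * ∏ i, z i ^ f i - γ * ∏ i, z i ^ g i := by
  simp [EE, eval_Xp]

end Pool.Agent.Lib.FewX
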