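import Pool.Agent.Lib.FewX.DMU
import Pool.Agent.Lib.FewX.Height

/-!
# FewX.StabU: the ideal of a chart is stable, and the logarithmic derivative of `a/c` is in it  (2 h)

`stab`: `Z' j = {z ∈ Z j | D_b (F j l) (z) ≠ 0}` is not large by `dmu` (`E j = F j l`, `VanOn` from `Fvan`; `hs` from `bdE_Dd`, `bdE_eval`: `Y^k ≤ exp (Y^ε)` almost surely). So the complement is large (`Large.filter_not`), and `gen` for
`Q j = Dd B (P j) b (F j l)` (`bdE_Dd`).
`ldiff`: `E j = EE (α j) (β j) (γ j) (e j) (f j) (g j)` vanishes on `Z j` (`habc`). Size of `Dd .. (E j)` at `z`: `prodX_mul_Dd_Xp` evaluated at `z`: `(∏ z) * value = a qa + b qb - c qc`, `∏ z ≥ 1`, `|qa|, |qb|, |qc| ≤ Y^k` (`bdE_Ld`, `bdE_eval`),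
`a, b ≤ c ≤ exp (Y^(1/(j+1)))`: at most `3 Y^k exp (Y^(1/(j+1))) ≤ exp (Y^ε)` for almost all `j`. So by `dmu` the set where `D_b E ≠ 0` is not large; on the rest, which is large, `height_eq` with `H = Y^k` (`4 Y^k < Y^j ≤ c` for `j` large) gives `Ld e = Ld g` at `z`.
`gen` for `Q j = Ld (e j) - Ld (g j)`.
-/

open MvPolynomial Filter

namespace Pool.Agent.Lib.FewX

variable {N : ℕ} {Y : ℕ → ℕ} {Z : ℕ → Finset (Fin N → ℤ)} {B : Finset (Fin N)}
  {P : ℕ → Fin N → MvPolynomial (Fin N) ℤ} {r : ℕ} {F : ℕ → Fin r → MvPolynomial (Fin N) ℤ}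

theorem stab (hY : ∀ j, j + 2 ≤ Y j) (ch : Chart Y Z B P F)
    (hbox : ∀ j, ∀ z ∈ Z j, ∀ i, |z i| ≤ Y j) {b : Fin N} (hb : b ∈ B) (l : Fin r) :
    ∀ᶠ j in UU, toQ (Dd B (P j) b (F j l)) ∈ spQ (F j) := by
  classical
  have hQ : BdE Y (fun j => Dd B (P j) b (F j l)) := bdE_Dd hY ch.Pbd b (ch.Fbd l)
  obtain ⟨k, hk⟩ := bdE_eval hY hQ
  have h1 : ¬ Large Y (fun j => (Z j).filter (fun z => eval z (Dd B (P j) b (F j l)) ≠ 0)) := by
    refine dmu hY ch hbox hb (fun j => F j l) _ (fun j => Finset.filter_subset _ _) ?_ ?_ ?_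
    · filter_upwards [ch.Fvan l] with j hj z hz
      exact hj z (Finset.mem_of_mem_filter z hz)
    · intro ε hε
      filter_upwards [hk, DMUAux.pow_le_exp hY k hε] with j h2 h3 z hz
      have h4 := h2 z (hbox j z (Finset.mem_of_mem_filter z hz))
      have h5 : ((|eval z (Dd B (P j) b (F j l))| : ℤ) : ℝ) ≤ (Y j : ℝ) ^ k := by
        exact_mod_cast h4
      exact h5.trans h3
    · exact Eventually.of_forall fun j z hz => (Finset.mem_filter.1 hz).2
  have h2 : Large Y (fun j => (Z j).filter (fun z => eval z (Dd B (P j) b (F j l)) = 0)) := by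
    have h0 := Large.filter_not hY ch.large
      (p := fun j z => eval z (Dd B (P j) b (F j l)) ≠ 0) (by convert h1)
    refine h0.mono (Eventually.of_forall fun j => Finset.card_le_card fun z hz => ?_)
    simp only [Finset.mem_filter, ne_eq, not_not] at hz ⊢
    exact hz
  refine ch.gen _ hQ _ (fun j => Finset.filter_subset _ _) h2 ?_
  exact Eventually.of_forall fun j z hz => (Finset.mem_filter.1 hz).2

/-- The points `z` of `Z` give coprime `a, b` with `a + b = c` (`a = α z^e`, `b = β z^f`, `c = γ z^g`) of moderate size. -/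
def ABC (Y : ℕ → ℕ) (Z : ℕ → Finset (Fin N → ℤ)) (α β γ : ℕ → ℤ) (e f g : ℕ → Fin N → ℕ) : Prop :=
  (∀ j i, e j i ≤ Y j ∧ f j i ≤ Y j ∧ g j i ≤ Y j) ∧
  ∀ j, ∀ z ∈ Z j, (∀ i, 1 ≤ z i ∧ z i ≤ Y j) ∧
    0 < α j * ∏ i, z i ^ e j i ∧ 0 < β j * ∏ i, z i ^ f j i ∧
    α j * ∏ i, z i ^ e j i + β j * ∏ i, z i ^ f j i = γ j * ∏ i, z i ^ g j i ∧
    IsCoprime (α j * ∏ i, z i ^ e j i) (β j * ∏ i, z i ^ f j i) ∧
    (Y j : ℤ) ^ j ≤ γ j * ∏ i, z i ^ g j i ∧
    ((γ j * ∏ i, z i ^ g j i : ℤ) : ℝ) ≤ Real.exp ((Y j : ℝ) ^ (1 / ((j : ℝ) + 1)))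

theorem ldiff (hY : ∀ j, j + 2 ≤ Y j) (ch : Chart Y Z B P F) {α β γ : ℕ → ℤ}
    {e f g : ℕ → Fin N → ℕ} (habc : ABC Y Z α β γ e f g) {b : Fin N} (hb : b ∈ B) :
    ∀ᶠ j in UU, toQ (Ld B (P j) b (e j) - Ld B (P j) b (g j)) ∈ spQ (F j) := by
  classical
  obtain ⟨hefg, hz⟩ := habc
  have hbox : ∀ j, ∀ z ∈ Z j, ∀ i, |z i| ≤ Y j := by
    intro j z hzz i
    have h := (hz j z hzz).1 i
    rw [abs_of_nonneg (by linarith [h.1])]
    exact h.2
  have be : BdE Y (fun j => Ld B (P j) b (e j)) :=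
    bdE_Ld hY ch.Pbd b e (Eventually.of_forall fun j i => (hefg j i).1)
  have bf : BdE Y (fun j => Ld B (P j) b (f j)) :=
    bdE_Ld hY ch.Pbd b f (Eventually.of_forall fun j i => (hefg j i).2.1)
  have bg : BdE Y (fun j => Ld B (P j) b (g j)) :=
    bdE_Ld hY ch.Pbd b g (Eventually.of_forall fun j i => (hefg j i).2.2)
  obtain ⟨k1, hk1⟩ := bdE_eval hY be
  obtain ⟨k2, hk2⟩ := bdE_eval hY bf
  obtain ⟨k3, hk3⟩ := bdE_eval hY bg
  obtain ⟨k, hkd⟩ : ∃ k, k = k1 + k2 + k3 := ⟨_, rfl⟩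
  have hk : ∀ᶠ j in UU, ∀ z ∈ Z j, |eval z (Ld B (P j) b (e j))| ≤ (Y j : ℤ) ^ k ∧
      |eval z (Ld B (P j) b (f j))| ≤ (Y j : ℤ) ^ k ∧
      |eval z (Ld B (P j) b (g j))| ≤ (Y j : ℤ) ^ k := by
    filter_upwards [hk1, hk2, hk3] with j h1 h2 h3 z hzz
    have hY1 : (1 : ℤ) ≤ Y j := by
      have := hY j
      exact_mod_cast (by omega : 1 ≤ Y j)
    refine ⟨(h1 z (hbox j z hzz)).trans (pow_le_pow_right₀ hY1 (by omega)),
      (h2 z (hbox j z hzz)).trans (pow_le_pow_right₀ hY1 (by omega)),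
      (h3 z (hbox j z hzz)).trans (pow_le_pow_right₀ hY1 (by omega))⟩
  obtain ⟨E, hE⟩ : ∃ E : ℕ → MvPolynomial (Fin N) ℤ,
      E = fun j => EE (α j) (β j) (γ j) (e j) (f j) (g j) := ⟨_, rfl⟩
  have hEv : ∀ j, ∀ z ∈ Z j, eval z (E j) = 0 := by
    intro j z hzz
    rw [hE]
    show eval z (EE (α j) (β j) (γ j) (e j) (f j) (g j)) = 0
    rw [eval_EE]
    linarith [(hz j z hzz).2.2.2.1]
  have hXp : ∀ (j : ℕ) (z : Fin N → ℤ) (u : Fin N → ℕ),
      (∏ i, z i) * eval z (Dd B (P j) b (Xp ℤ u)) = (∏ i, z i ^ u i) * eval z (Ld B (P j) b u) := by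
    intro j z u
    have h := congrArg (eval z) (prodX_mul_Dd_Xp (B := B) (P := P j) (b := b) u)
    simpa only [map_mul, map_prod, eval_X, eval_Xp] using h
  have hsize : ∀ᶠ j in UU, ∀ z ∈ Z j, ((|eval z (Dd B (P j) b (E j))| : ℤ) : ℝ) ≤
      2 * Real.exp ((Y j : ℝ) ^ (1 / ((j : ℝ) + 1))) * (Y j : ℝ) ^ k := by
    filter_upwards [hk] with j h1 z hzz
    obtain ⟨hz1, ha, hb', habc', _, _, hexp⟩ := hz j z hzz
    obtain ⟨q1, q2, q3⟩ := h1 z hzz
    have k1' := hXp j z (e j)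
    have k2' := hXp j z (f j)
    have k3' := hXp j z (g j)
    have hD : eval z (Dd B (P j) b (E j)) = α j * eval z (Dd B (P j) b (Xp ℤ (e j))) +
        β j * eval z (Dd B (P j) b (Xp ℤ (f j))) - γ j * eval z (Dd B (P j) b (Xp ℤ (g j))) := by
      rw [hE]
      show eval z (Dd B (P j) b (EE (α j) (β j) (γ j) (e j) (f j) (g j))) = _
      unfold EE
      rw [Dd_sub, Dd_add, Dd_C_mul, Dd_C_mul, Dd_C_mul, map_sub, map_add, map_mul, map_mul,
        map_mul, eval_C, eval_C, eval_C]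
    have hp : (1 : ℤ) ≤ ∏ i, z i := by
      have h0 : ∀ s : Finset (Fin N), (1 : ℤ) ≤ ∏ i ∈ s, z i := by
        intro s
        induction s using Finset.induction_on with
        | empty => simp
        | insert i s his ih =>
          rw [Finset.prod_insert his]
          nlinarith [(hz1 i).1]
      exact h0 _
    rw [hD]
    generalize eval z (Dd B (P j) b (Xp ℤ (e j))) = da at *
    generalize eval z (Dd B (P j) b (Xp ℤ (f j))) = db at *
    generalize eval z (Dd B (P j) b (Xp ℤ (g j))) = dc at *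
    generalize eval z (Ld B (P j) b (e j)) = qa at *
    generalize eval z (Ld B (P j) b (f j)) = qb at *
    generalize eval z (Ld B (P j) b (g j)) = qc at *
    obtain ⟨a, haa⟩ : ∃ a : ℤ, a = α j * ∏ i, z i ^ e j i := ⟨_, rfl⟩
    obtain ⟨b', hbb⟩ : ∃ b' : ℤ, b' = β j * ∏ i, z i ^ f j i := ⟨_, rfl⟩
    obtain ⟨c, hcc⟩ : ∃ c : ℤ, c = γ j * ∏ i, z i ^ g j i := ⟨_, rfl⟩
    rw [← haa] at ha habc'
    rw [← hbb] at hb' habc'
    rw [← hcc] at habc' hexp
    have e1 : (∏ i, z i) * (α j * da + β j * db - γ j * dc) = a * qa + b' * qb - c * qc := by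
      rw [haa, hbb, hcc]
      linear_combination α j * k1' + β j * k2' - γ j * k3'
    have hYk : (0 : ℤ) ≤ (Y j : ℤ) ^ k := (abs_nonneg qa).trans q1
    have e2 : |a * qa + b' * qb - c * qc| ≤ 2 * c * (Y j : ℤ) ^ k := by
      have r1 : |a * qa| ≤ a * (Y j : ℤ) ^ k := by
        rw [abs_mul, abs_of_pos ha]
        exact mul_le_mul_of_nonneg_left q1 ha.le
      have r2 : |b' * qb| ≤ b' * (Y j : ℤ) ^ k := by
        rw [abs_mul, abs_of_pos hb']
        exact mul_le_mul_of_nonneg_left q2 hb'.le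
      have hc0 : 0 < c := by linarith
      have r3 : |c * qc| ≤ c * (Y j : ℤ) ^ k := by
        rw [abs_mul, abs_of_pos hc0]
        exact mul_le_mul_of_nonneg_left q3 hc0.le
      have r4 := abs_sub (a * qa + b' * qb) (c * qc)
      have r5 := abs_add_le (a * qa) (b' * qb)
      calc |a * qa + b' * qb - c * qc| ≤ |a * qa| + |b' * qb| + |c * qc| := by linarith
        _ ≤ a * (Y j : ℤ) ^ k + b' * (Y j : ℤ) ^ k + c * (Y j : ℤ) ^ k := by linarith
        _ = (a + b' + c) * (Y j : ℤ) ^ k := by ring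
        _ = 2 * c * (Y j : ℤ) ^ k := by rw [habc']; ring
    have e3 : |α j * da + β j * db - γ j * dc| ≤ 2 * c * (Y j : ℤ) ^ k := by
      refine le_trans ?_ e2
      rw [← e1, abs_mul, abs_of_pos (by linarith : (0 : ℤ) < ∏ i, z i)]
      nlinarith [abs_nonneg (α j * da + β j * db - γ j * dc)]
    have e4 : ((|α j * da + β j * db - γ j * dc| : ℤ) : ℝ) ≤ 2 * (c : ℝ) * (Y j : ℝ) ^ k := by
      exact_mod_cast e3
    refine e4.trans ?_
    have e5 : (0 : ℝ) ≤ (Y j : ℝ) ^ k := by positivity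
    nlinarith
  have hYr : ∀ j, (1 : ℝ) ≤ Y j := fun j => by
    have := hY j
    exact_mod_cast (by omega : 1 ≤ Y j)
  have h1 : ¬ Large Y (fun j => (Z j).filter (fun z => eval z (Dd B (P j) b (E j)) ≠ 0)) := by
    refine dmu hY ch hbox hb E _ (fun j => Finset.filter_subset _ _) ?_ ?_ ?_
    · exact Eventually.of_forall fun j z hzz => hEv j z (Finset.mem_of_mem_filter z hzz)
    · intro ε hε
      have hε2 : 0 < ε / 2 := by positivity
      filter_upwards [hsize, DMUAux.pow_le_exp hY (k + 1) hε2, ev_rpow hY hε2 2,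
        ev_ge ⌈2 / ε⌉₊] with j h2 h3 h4 h5 z hzz
      have h6 := h2 z (Finset.mem_of_mem_filter z hzz)
      have hY0 : (0 : ℝ) < Y j := by linarith [hYr j]
      have hY2 : (2 : ℝ) ≤ Y j := by
        have := hY j
        exact_mod_cast (by omega : 2 ≤ Y j)
      have h7 : (1 : ℝ) / ((j : ℝ) + 1) ≤ ε / 2 := by
        have h8 : 2 / ε ≤ (j : ℝ) := (Nat.le_ceil _).trans (by exact_mod_cast h5)
        rw [div_le_iff₀ (by positivity)]
        rw [div_le_iff₀ hε] at h8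
        nlinarith
      have h9 : (Y j : ℝ) ^ (1 / ((j : ℝ) + 1)) ≤ (Y j : ℝ) ^ (ε / 2) :=
        Real.rpow_le_rpow_of_exponent_le (hYr j) h7
      have h10 : 2 * (Y j : ℝ) ^ k ≤ Real.exp ((Y j : ℝ) ^ (ε / 2)) := by
        refine le_trans ?_ h3
        rw [pow_succ, mul_comm]
        exact mul_le_mul_of_nonneg_left hY2 (by positivity)
      have h11 : (Y j : ℝ) ^ ε = (Y j : ℝ) ^ (ε / 2) * (Y j : ℝ) ^ (ε / 2) := by
        rw [← Real.rpow_add hY0]
        congr 1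
        ring
      calc ((|eval z (Dd B (P j) b (E j))| : ℤ) : ℝ)
          ≤ 2 * Real.exp ((Y j : ℝ) ^ (1 / ((j : ℝ) + 1))) * (Y j : ℝ) ^ k := h6
        _ = Real.exp ((Y j : ℝ) ^ (1 / ((j : ℝ) + 1))) * (2 * (Y j : ℝ) ^ k) := by ring
        _ ≤ Real.exp ((Y j : ℝ) ^ (ε / 2)) * Real.exp ((Y j : ℝ) ^ (ε / 2)) :=
            mul_le_mul (Real.exp_le_exp.2 h9) h10 (by positivity) (Real.exp_pos _).le
        _ = Real.exp ((Y j : ℝ) ^ (ε / 2) + (Y j : ℝ) ^ (ε / 2)) := (Real.exp_add _ _).symm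
        _ ≤ Real.exp ((Y j : ℝ) ^ ε) := by
            apply Real.exp_le_exp.2
            rw [h11]
            nlinarith
    · exact Eventually.of_forall fun j z hzz => (Finset.mem_filter.1 hzz).2
  have h2 : Large Y (fun j => (Z j).filter (fun z => eval z (Dd B (P j) b (E j)) = 0)) := by
    have h0 := Large.filter_not hY ch.large
      (p := fun j z => eval z (Dd B (P j) b (E j)) ≠ 0) (by convert h1)
    refine h0.mono (Eventually.of_forall fun j => Finset.card_le_card fun z hz => ?_)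
    simp only [Finset.mem_filter, ne_eq, not_not] at hz ⊢
    exact hz
  refine ch.gen _ (bdE_sub hY be bg) _ (fun j => Finset.filter_subset _ _) h2 ?_
  filter_upwards [hk, ev_ge (k + 3)] with j h3 h4 z hzz
  have hzZ : z ∈ Z j := Finset.mem_of_mem_filter z hzz
  have hD0 : eval z (Dd B (P j) b (E j)) = 0 := (Finset.mem_filter.1 hzz).2
  obtain ⟨hz1, ha, hb', habc', hcop, hYc, _⟩ := hz j z hzZ
  obtain ⟨q1, q2, q3⟩ := h3 z hzZ
  have hY2 : (2 : ℤ) ≤ Y j := by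
    have := hY j
    exact_mod_cast (by omega : 2 ≤ Y j)
  have hbig : 4 * (Y j : ℤ) ^ k < γ j * ∏ i, z i ^ g j i := by
    refine lt_of_lt_of_le ?_ hYc
    have h5 : (Y j : ℤ) ^ (k + 3) ≤ (Y j : ℤ) ^ j := pow_le_pow_right₀ (by linarith) h4
    refine lt_of_lt_of_le ?_ h5
    have h6 : (0 : ℤ) < (Y j : ℤ) ^ k := pow_pos (by linarith) k
    have h7 : (8 : ℤ) ≤ (Y j : ℤ) ^ 3 := by
      calc (8 : ℤ) = 2 ^ 3 := by norm_num
        _ ≤ (Y j : ℤ) ^ 3 := pow_le_pow_left₀ (by norm_num) hY2 3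
    rw [pow_add]
    nlinarith
  have hE0 := hEv j z hzZ
  rw [hE] at hE0 hD0
  have h5 := (height_eq B (P j) b (α j) (β j) (γ j) (e j) (f j) (g j) z hE0 hD0 ha hb' hcop
    ((Y j : ℤ) ^ k) q1 q2 q3 hbig).1
  show eval z (Ld B (P j) b (e j) - Ld B (P j) b (g j)) = 0
  rw [map_sub, h5, sub_self]

end Pool.Agent.Lib.FewX
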