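import Pool.Agent.Lib.FewX.TransA

/-!
# FewX.TransB: triples with few distinct exponents  (1.8 h)

`powers_of_exp`: enumerate the set `m.primeFactors.image m.factorization` of at most `n` positive exponents by `E : Fin n → ℕ` (`orderEmbOfFin` on the first ones, `E i = 0` afterwards), `x i = ∏ p ∈ m.primeFactors with m.factorization p = E i, p` (`= 1` if `E i = 0`): `x i ≤ rad m ≤ Y`,
`m = ∏ p ^ m.factorization p = ∏ x i ^ E i`. `few_exp`: `few_powers n (ε/2)`: `M, δ, Y0`; the triple `t` with `ρ = rad (a b c) ≥ Y0` belongs to the dyadic block `Y0 2^i ≤ ρ < Y0 2^(i+1)`, `i ≤ log2 Y`; with `V = Y0 2^(i+1) ≤ 2 Y`: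
`a, b, c` are `Powers n V` (`numExp a ≤ numExp (a b c)`: for `p ∣ a` the exponent of `p` in `a b c` is that in `a`; `rad a ≤ ρ`), `c ≥ ρ^(2 M) ≥ (V/2)^(2M) ≥ V^M` (`V ≥ 4`), `c ≤ exp (ρ^δ) ≤ exp (V^δ)`: at most `(2Y)^(ε/2)` triples in
each block, `log2 Y + 1` blocks. `ρ < Y0`: `c ≤ exp (Y0^δ)`: at most a constant number `K0` of triples. Total `≤ K0 + (log2 Y + 1) (2 Y)^(ε/2) ≤ Y^ε` for `Y` large. (`M = 0` in `few_powers` may be replaced by a larger `M`.)
-/

namespace Pool.Agent.Lib.FewX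

namespace TransBAux

theorem enum_prod {Y : ℕ} (hY : 1 ≤ Y) (F : ℕ → ℕ) (S : Finset ℕ) :
    (∀ s ∈ S, 1 ≤ F s ∧ F s ≤ Y) → ∀ n, S.card ≤ n → ∃ x k : Fin n → ℕ,
      (∀ i, 1 ≤ x i ∧ x i ≤ Y) ∧ ∏ s ∈ S, F s ^ s = ∏ i, x i ^ k i := by
  classical
  induction S using Finset.induction_on with
  | empty =>
    intro _ n _
    exact ⟨fun _ => 1, fun _ => 0, fun _ => ⟨le_rfl, hY⟩, by simp⟩
  | insert a S ha ih =>
    intro h n hn
    rw [Finset.card_insert_of_notMem ha] at hn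
    obtain ⟨n', rfl⟩ : ∃ n', n = n' + 1 := ⟨n - 1, by omega⟩
    obtain ⟨x, k, hx, hp⟩ := ih (fun s hs => h s (Finset.mem_insert_of_mem hs)) n' (by omega)
    refine ⟨Fin.cons (F a) x, Fin.cons a k, ?_, ?_⟩
    · intro i
      refine Fin.cases ?_ (fun j => ?_) i
      · simpa using h a (Finset.mem_insert_self _ _)
      · simpa using hx j
    · rw [Finset.prod_insert ha, Fin.prod_univ_succ, hp]
      simp

theorem rad_pos (m : ℕ) : 1 ≤ rad m := by
  unfold rad
  exact Finset.prod_pos fun p hp => (Nat.prime_of_mem_primeFactors hp).pos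

theorem num_le {u w : ℕ} (hu : 0 < u) (hw : 0 < w) (hc : Nat.Coprime u w) :
    numExp u ≤ numExp (u * w) := by
  unfold numExp
  apply Finset.card_le_card
  intro s hs
  obtain ⟨p, hp, rfl⟩ := Finset.mem_image.1 hs
  refine Finset.mem_image.2 ⟨p, ?_, ?_⟩
  · rw [Nat.primeFactors_mul hu.ne' hw.ne']
    exact Finset.mem_union_left _ hp
  · rw [Nat.factorization_mul hu.ne' hw.ne', Finsupp.add_apply]
    have hpw : ¬ p ∣ w := by
      intro h
      have h1 := Nat.dvd_of_mem_primeFactors hp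
      have h2 := Nat.dvd_gcd h1 h
      rw [Nat.coprime_iff_gcd_eq_one.1 hc] at h2
      exact (Nat.prime_of_mem_primeFactors hp).one_lt.ne' (Nat.dvd_one.1 h2)
    rw [Nat.factorization_eq_zero_of_not_dvd hpw, add_zero]

theorem rad_le {u w : ℕ} (hu : 0 < u) (hw : 0 < w) : rad u ≤ rad (u * w) := by
  unfold rad
  apply Finset.prod_le_prod_of_subset_of_one_le'
  · rw [Nat.primeFactors_mul hu.ne' hw.ne']
    exact Finset.subset_union_left
  · intro p hp _
    exact (Nat.prime_of_mem_primeFactors hp).one_lt.le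

end TransBAux

open TransBAux

theorem powers_of_exp {n Y m : ℕ} (hm : 0 < m) (h : numExp m ≤ n) (hr : rad m ≤ Y) :
    Powers n Y m := by
  classical
  have hY : 1 ≤ Y := (rad_pos m).trans hr
  obtain ⟨x, k, hx, hp⟩ := enum_prod hY
    (fun s => ∏ p ∈ m.primeFactors.filter (fun p => m.factorization p = s), p)
    (m.primeFactors.image m.factorization) (by
      intro s _
      refine ⟨Finset.prod_pos fun p hp =>
        (Nat.prime_of_mem_primeFactors (Finset.mem_filter.1 hp).1).pos, le_trans ?_ hr⟩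
      exact Finset.prod_le_prod_of_subset_of_one_le' (Finset.filter_subset _ _)
        fun p hp _ => (Nat.prime_of_mem_primeFactors hp).one_lt.le) n h
  refine ⟨x, k, hx, ?_⟩
  rw [← hp]
  have h1 : ∏ s ∈ m.primeFactors.image m.factorization,
      (∏ p ∈ m.primeFactors.filter (fun p => m.factorization p = s), p) ^ s =
      ∏ s ∈ m.primeFactors.image m.factorization,
        ∏ p ∈ m.primeFactors.filter (fun p => m.factorization p = s), p ^ m.factorization p := by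
    refine Finset.prod_congr rfl fun s _ => ?_
    rw [← Finset.prod_pow]
    refine Finset.prod_congr rfl fun p hp => ?_
    rw [(Finset.mem_filter.1 hp).2]
  rw [h1, Finset.prod_fiberwise_of_maps_to (fun p hp => Finset.mem_image_of_mem _ hp)]
  have h2 := Nat.prod_factorization_pow_eq_self hm.ne'
  conv_lhs => rw [← h2]
  rw [Finsupp.prod, Nat.support_factorization]

theorem few_exp (n : ℕ) (ε : ℝ) (hε : 0 < ε) : ∃ (M : ℕ) (δ : ℝ) (Y0 : ℕ), 0 < δ ∧
    ∀ Y : ℕ, Y0 ≤ Y → ∀ T : Finset (ℕ × ℕ × ℕ),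
      (∀ t ∈ T, AbcTriple t.1 t.2.1 t.2.2 ∧ numExp (t.1 * t.2.1 * t.2.2) ≤ n ∧
        rad (t.1 * t.2.1 * t.2.2) ≤ Y ∧ rad (t.1 * t.2.1 * t.2.2) ^ M ≤ t.2.2 ∧
        (t.2.2 : ℝ) ≤ Real.exp ((rad (t.1 * t.2.1 * t.2.2) : ℝ) ^ δ)) →
      (T.card : ℝ) ≤ (Y : ℝ) ^ ε := by
  classical
  obtain ⟨M, δ, Y0, hδ, hY0, H⟩ := few_powers n (ε / 2) (by positivity)
  -- the number of triples with small radical
  set K : ℕ := ⌊Real.exp ((Y0 : ℝ) ^ δ)⌋₊ with hK
  set K0 : ℝ := ((K : ℝ) + 1) ^ 3 with hK0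
  set C1 : ℝ := 4 / (ε * Real.log 2) + 1 with hC1
  have hlog2 : 0 < Real.log 2 := Real.log_pos one_lt_two
  have hC1pos : 0 < C1 := by positivity
  set C2 : ℝ := K0 + C1 * (2 : ℝ) ^ (ε / 2) with hC2
  have hC2pos : 0 < C2 := by positivity
  have hev : ∀ᶠ Y : ℕ in Filter.atTop, C2 ≤ (Y : ℝ) ^ (ε / 4) :=
    ((tendsto_rpow_atTop (by positivity : 0 < ε / 4)).comp
      tendsto_natCast_atTop_atTop).eventually_ge_atTop C2
  obtain ⟨Y1, hY1⟩ := Filter.eventually_atTop.1 hev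
  refine ⟨2 * M, δ, max Y1 1, hδ, fun Y hY T hT => ?_⟩
  have hYY1 : Y1 ≤ Y := (le_max_left _ _).trans hY
  have hYone : 1 ≤ Y := (le_max_right _ _).trans hY
  have hYR : (1 : ℝ) ≤ (Y : ℝ) := by exact_mod_cast hYone
  set ρ : ℕ × ℕ × ℕ → ℕ := fun t => rad (t.1 * t.2.1 * t.2.2) with hρ
  -- the blocks
  have hcover : T ⊆ T.filter (fun t => ρ t < Y0) ∪
      (Finset.range (Nat.log 2 Y + 1)).biUnion
        (fun i => T.filter (fun t => Y0 * 2 ^ i ≤ ρ t ∧ ρ t < Y0 * 2 ^ (i + 1))) := by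
    intro t ht
    rw [Finset.mem_union, Finset.mem_filter, Finset.mem_biUnion]
    by_cases h0 : ρ t < Y0
    · exact Or.inl ⟨ht, h0⟩
    · right
      have h1 : Y0 ≤ ρ t := Nat.le_of_not_lt h0
      have hq : ρ t / Y0 ≠ 0 := by
        have := Nat.div_pos h1 (by omega)
        omega
      refine ⟨Nat.log 2 (ρ t / Y0), ?_, ?_⟩
      · rw [Finset.mem_range, Nat.lt_succ_iff]
        apply Nat.log_mono_right
        exact (Nat.div_le_self _ _).trans (hT t ht).2.2.1
      · rw [Finset.mem_filter]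
        refine ⟨ht, ?_, ?_⟩
        · have h2 := Nat.pow_log_le_self 2 hq
          calc Y0 * 2 ^ Nat.log 2 (ρ t / Y0) ≤ Y0 * (ρ t / Y0) := Nat.mul_le_mul_left _ h2
            _ ≤ ρ t := Nat.mul_div_le _ _
        · have h2 := Nat.lt_pow_succ_log_self (one_lt_two) (ρ t / Y0)
          rw [Nat.div_lt_iff_lt_mul (by omega)] at h2
          rw [mul_comm]
          exact h2
  -- small radicals
  have hsmall : ((T.filter (fun t => ρ t < Y0)).card : ℝ) ≤ K0 := by
    have hsub : T.filter (fun t => ρ t < Y0) ⊆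
        Finset.range (K + 1) ×ˢ (Finset.range (K + 1) ×ˢ Finset.range (K + 1)) := by
      intro t ht
      rw [Finset.mem_filter] at ht
      obtain ⟨⟨ha, hb, hc, _, _, _, habc⟩, _, _, _, h5⟩ := hT t ht.1
      have h6 : (t.2.2 : ℝ) ≤ Real.exp ((Y0 : ℝ) ^ δ) := by
        refine h5.trans (Real.exp_le_exp.2 ?_)
        apply Real.rpow_le_rpow (Nat.cast_nonneg _) _ hδ.le
        exact_mod_cast ht.2.le
      have h7 : t.2.2 ≤ K := Nat.le_floor h6
      rw [Finset.mem_product, Finset.mem_product, Finset.mem_range, Finset.mem_range,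
        Finset.mem_range]
      omega
    have h1 := Finset.card_le_card hsub
    rw [Finset.card_product, Finset.card_product, Finset.card_range] at h1
    have h2 : ((T.filter (fun t => ρ t < Y0)).card : ℝ) ≤
        (((K + 1) * ((K + 1) * (K + 1)) : ℕ) : ℝ) := by exact_mod_cast h1
    refine h2.trans (le_of_eq ?_)
    rw [hK0]
    push_cast
    ring
  -- one block
  have hblock : ∀ i, ((T.filter (fun t => Y0 * 2 ^ i ≤ ρ t ∧ ρ t < Y0 * 2 ^ (i + 1))).card : ℝ) ≤
      (2 * (Y : ℝ)) ^ (ε / 2) := by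
    intro i
    rcases Finset.eq_empty_or_nonempty
      (T.filter (fun t => Y0 * 2 ^ i ≤ ρ t ∧ ρ t < Y0 * 2 ^ (i + 1))) with h0 | ⟨t0, ht0⟩
    · rw [h0, Finset.card_empty, Nat.cast_zero]
      positivity
    · have hV : Y0 * 2 ^ (i + 1) ≤ 2 * Y := by
        have h1 := Finset.mem_filter.1 ht0
        have h2 := (hT t0 h1.1).2.2.1
        have h3 : Y0 * 2 ^ i ≤ Y := h1.2.1.trans h2
        calc Y0 * 2 ^ (i + 1) = 2 * (Y0 * 2 ^ i) := by ring
          _ ≤ 2 * Y := Nat.mul_le_mul_left 2 h3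
      have hV0 : Y0 ≤ Y0 * 2 ^ (i + 1) := Nat.le_mul_of_pos_right _ (by positivity)
      have h1 := H (Y0 * 2 ^ (i + 1)) hV0 1 1 1
        (T.filter (fun t => Y0 * 2 ^ i ≤ ρ t ∧ ρ t < Y0 * 2 ^ (i + 1))) (by
          intro t ht
          obtain ⟨ht1, ht2, ht3⟩ := Finset.mem_filter.1 ht
          obtain ⟨hA, hnum, _, hpow, hexp⟩ := hT t ht1
          obtain ⟨ha, hb, hc, hab, hac, hbc, habc⟩ := hA
          have hbcpos := Nat.mul_pos hb hc
          have hacpos := Nat.mul_pos ha hc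
          have habpos := Nat.mul_pos ha hb
          have e1 : t.1 * t.2.1 * t.2.2 = t.1 * (t.2.1 * t.2.2) := by ring
          have e2 : t.1 * t.2.1 * t.2.2 = t.2.1 * (t.1 * t.2.2) := by ring
          have e3 : t.1 * t.2.1 * t.2.2 = t.2.2 * (t.1 * t.2.1) := by ring
          have c1 : Nat.Coprime t.1 (t.2.1 * t.2.2) := Nat.Coprime.mul_right hab hac
          have c2 : Nat.Coprime t.2.1 (t.1 * t.2.2) := Nat.Coprime.mul_right hab.symm hbc
          have c3 : Nat.Coprime t.2.2 (t.1 * t.2.1) := Nat.Coprime.mul_right hac.symm hbc.symm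
          have hrV : rad (t.1 * t.2.1 * t.2.2) ≤ Y0 * 2 ^ (i + 1) := ht3.le
          refine ⟨⟨ha, hb, hc, hab, hac, hbc, habc⟩, ⟨t.1, ?_, (one_mul _).symm⟩,
            ⟨t.2.1, ?_, (one_mul _).symm⟩, ⟨t.2.2, ?_, (one_mul _).symm⟩, ?_, ?_⟩
          · apply powers_of_exp ha
            · exact (num_le ha hbcpos c1).trans (by rw [← e1]; exact hnum)
            · exact (rad_le ha hbcpos).trans (by rw [← e1]; exact hrV)
          · apply powers_of_exp hb
            · exact (num_le hb hacpos c2).trans (by rw [← e2]; exact hnum)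
            · exact (rad_le hb hacpos).trans (by rw [← e2]; exact hrV)
          · apply powers_of_exp hc
            · exact (num_le hc habpos c3).trans (by rw [← e3]; exact hnum)
            · exact (rad_le hc habpos).trans (by rw [← e3]; exact hrV)
          · refine le_trans ?_ hpow
            rw [pow_mul]
            apply Nat.pow_le_pow_left
            have h5 : 2 ≤ rad (t.1 * t.2.1 * t.2.2) := by
              have h6 : Y0 * 1 ≤ Y0 * 2 ^ i := Nat.mul_le_mul_left _ Nat.one_le_two_pow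
              have h7 : Y0 * 2 ^ i ≤ rad (t.1 * t.2.1 * t.2.2) := ht2
              omega
            calc Y0 * 2 ^ (i + 1) = 2 * (Y0 * 2 ^ i) := by ring
              _ ≤ 2 * rad (t.1 * t.2.1 * t.2.2) := Nat.mul_le_mul_left 2 ht2
              _ ≤ rad (t.1 * t.2.1 * t.2.2) * rad (t.1 * t.2.1 * t.2.2) :=
                Nat.mul_le_mul_right _ h5
              _ = rad (t.1 * t.2.1 * t.2.2) ^ 2 := by ring
          · refine hexp.trans (Real.exp_le_exp.2 ?_)
            apply Real.rpow_le_rpow (Nat.cast_nonneg _) _ hδ.le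
            exact_mod_cast hrV)
      refine h1.trans ?_
      apply Real.rpow_le_rpow (Nat.cast_nonneg _) _ (by positivity)
      exact_mod_cast hV
  -- the total
  have hcard : (T.card : ℝ) ≤ K0 + ((Nat.log 2 Y : ℝ) + 1) * (2 * (Y : ℝ)) ^ (ε / 2) := by
    have h1 := Finset.card_le_card hcover
    have h2 := h1.trans (Finset.card_union_le _ _)
    have h3 : (T.card : ℝ) ≤ ((T.filter (fun t => ρ t < Y0)).card : ℝ) +
        (((Finset.range (Nat.log 2 Y + 1)).biUnion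
        (fun i => T.filter (fun t => Y0 * 2 ^ i ≤ ρ t ∧ ρ t < Y0 * 2 ^ (i + 1)))).card : ℝ) := by
      exact_mod_cast h2
    have h4 : (((Finset.range (Nat.log 2 Y + 1)).biUnion
        (fun i => T.filter (fun t => Y0 * 2 ^ i ≤ ρ t ∧ ρ t < Y0 * 2 ^ (i + 1)))).card : ℝ) ≤
        ((Nat.log 2 Y : ℝ) + 1) * (2 * (Y : ℝ)) ^ (ε / 2) := by
      have h5 : (((Finset.range (Nat.log 2 Y + 1)).biUnion
        (fun i => T.filter (fun t => Y0 * 2 ^ i ≤ ρ t ∧ ρ t < Y0 * 2 ^ (i + 1)))).card : ℝ) ≤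
        ∑ i ∈ Finset.range (Nat.log 2 Y + 1),
          ((T.filter (fun t => Y0 * 2 ^ i ≤ ρ t ∧ ρ t < Y0 * 2 ^ (i + 1))).card : ℝ) := by
        exact_mod_cast Finset.card_biUnion_le
      refine h5.trans ((Finset.sum_le_sum fun i _ => hblock i).trans (le_of_eq ?_))
      rw [Finset.sum_const, Finset.card_range, nsmul_eq_mul]
      push_cast
      ring
    linarith
  have hlog : (Nat.log 2 Y : ℝ) + 1 ≤ C1 * (Y : ℝ) ^ (ε / 4) := by
    have h1 : (Nat.log 2 Y : ℝ) * Real.log 2 ≤ Real.log Y := by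
      rw [← Real.log_pow]
      apply Real.log_le_log (by positivity)
      exact_mod_cast Nat.pow_log_le_self 2 (by omega)
    have h2 : Real.log Y ≤ (Y : ℝ) ^ (ε / 4) / (ε / 4) :=
      Real.log_le_rpow_div (by linarith) (by positivity)
    have h3 : (Nat.log 2 Y : ℝ) ≤ 4 / (ε * Real.log 2) * (Y : ℝ) ^ (ε / 4) := by
      have h4 : (Nat.log 2 Y : ℝ) * Real.log 2 ≤ (Y : ℝ) ^ (ε / 4) / (ε / 4) := h1.trans h2
      have h5 : 4 / (ε * Real.log 2) * (Y : ℝ) ^ (ε / 4) =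
          ((Y : ℝ) ^ (ε / 4) / (ε / 4)) / Real.log 2 := by
        field_simp
      rw [h5, le_div_iff₀ hlog2]
      exact h4
    have h6 : (1 : ℝ) ≤ (Y : ℝ) ^ (ε / 4) := Real.one_le_rpow hYR (by positivity)
    rw [hC1, add_mul, one_mul]
    linarith
  have hmul : (2 * (Y : ℝ)) ^ (ε / 2) = (2 : ℝ) ^ (ε / 2) * (Y : ℝ) ^ (ε / 2) :=
    Real.mul_rpow (by norm_num) (by positivity)
  have hY3 : (1 : ℝ) ≤ (Y : ℝ) ^ (ε / 4 + ε / 2) := Real.one_le_rpow hYR (by positivity)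
  have hpos : (0 : ℝ) < Y := by linarith
  calc (T.card : ℝ) ≤ K0 + ((Nat.log 2 Y : ℝ) + 1) * (2 * (Y : ℝ)) ^ (ε / 2) := hcard
    _ ≤ K0 + (C1 * (Y : ℝ) ^ (ε / 4)) * (2 * (Y : ℝ)) ^ (ε / 2) := by
        have : 0 ≤ (2 * (Y : ℝ)) ^ (ε / 2) := by positivity
        have := mul_le_mul_of_nonneg_right hlog this
        linarith
    _ = K0 + C1 * (2 : ℝ) ^ (ε / 2) * (Y : ℝ) ^ (ε / 4 + ε / 2) := by
        rw [hmul, Real.rpow_add hpos]
        ring
    _ ≤ K0 * (Y : ℝ) ^ (ε / 4 + ε / 2) + C1 * (2 : ℝ) ^ (ε / 2) * (Y : ℝ) ^ (ε / 4 + ε / 2) := by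
        have hK0' : 0 ≤ K0 := by positivity
        have := mul_le_mul_of_nonneg_left hY3 hK0'
        linarith
    _ = C2 * (Y : ℝ) ^ (ε / 4 + ε / 2) := by rw [hC2]; ring
    _ ≤ (Y : ℝ) ^ (ε / 4) * (Y : ℝ) ^ (ε / 4 + ε / 2) :=
        mul_le_mul_of_nonneg_right (hY1 Y hYY1) (by positivity)
    _ = (Y : ℝ) ^ ε := by
        rw [← Real.rpow_add hpos]
        congr 1
        ring

end Pool.Agent.Lib.FewX
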