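import Mathlib

/-!
# FewX.Triples: definitions for the final statements
-/

namespace Pool.Agent.Lib.FewX

/-- the radical -/
def rad (n : ℕ) : ℕ := ∏ p ∈ n.primeFactors, p

/-- the number of distinct exponents in the prime factorisation -/
def numExp (n : ℕ) : ℕ := (n.primeFactors.image n.factorization).card

/-- pairwise coprime positive integers with `a + b = c` -/
def AbcTriple (a b c : ℕ) : Prop :=
  0 < a ∧ 0 < b ∧ 0 < c ∧ Nat.Coprime a b ∧ Nat.Coprime a c ∧ Nat.Coprime b c ∧ a + b = c

/-- a product of at most `n` powers (with arbitrary exponents) of positive integers `≤ Y` -/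
def Powers (n Y m : ℕ) : Prop :=
  ∃ x k : Fin n → ℕ, (∀ i, 1 ≤ x i ∧ x i ≤ Y) ∧ m = ∏ i, x i ^ k i

end Pool.Agent.Lib.FewX
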